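import Pool.Agent.N95.RF.Sel

/-!
Several groups of points of generic complete intersections, of which only few have to be considered.
-/

set_option autoImplicit false
set_option linter.unusedSectionVars false
set_option linter.overlappingInstances false

open FF Module IntermediateField
open Pool.Agent.N111.GI (GenericCI)
open Pool.Agent.N111.FT (aclo mem_aclo subset_aclo aclo_le aclo_mono aclo_closed map_mem_aclo_iff)
open Pool.Agent.W602.GT (GeneralType coords)
open Pool.Agent.N95.PR (ratios adjoin_ratios base mem_base base_closed alg_base trdeg_base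
  ratios_norm ratios_image)

namespace Pool.Agent.N95.RF

section

variable {k K L A : Type} [Field k] [Field K] [CharZero K] [IsAlgClosed K] [Algebra k K] [Field L]
  [Field A] [Algebra K L] [Algebra K A] [Algebra L A] [IsScalarTower K L A]

/-- **Fibrations over varieties of general type.** -/
theorem fib_all [Normal L A] [Algebra.EssFiniteType K L] {s : ℕ} (X : Fin s → GenericCI k K)
    (N r w : Fin s → ℕ) (x : ∀ j, Fin (N j) → Fin ((X j).n + 1) → A)
    (hx : ∀ j i, (X j).Point (x j i)) (hr0 : ∀ j, 0 < r j)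
    (hr : ∀ j i, finrank L (adjoin L (ratios (x j i))) ≤ r j)
    (hw : ∀ j, Algebra.trdeg K (adjoin K (⋃ i, ratios (x j i))) = w j) (hpos : ∀ j, 0 < w j)
    (hdeg : ∀ j a, min (N j) (w j) ≤ (X j).d a)
    (hd : ∀ j, (min (N j) (w j) + 1) * (X j).m + 2 * r j ≤ ∑ a, ((X j).d a + 1) + w j)
    (hind : Algebra.trdeg K (adjoin K (⋃ j, ⋃ i, ratios (x j i))) = (∑ j, w j : ℕ))
    (hconj : ∀ (σ : A ≃ₐ[L] A) j i, ∀ z ∈ ratios (x j i),
      σ z ∈ aclo K (⋃ j, ⋃ i, ratios (x j i))) :
    GeneralType K (base K L (⋃ j, ⋃ i, ratios (x j i))) (∑ j, w j) := by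
  classical
  have hsel : ∀ j, ∃ (ρ : ℕ) (g : Fin ρ → Fin (N j)), ρ ≤ w j ∧ ρ ≤ N j ∧
      (∀ i i', i ≠ i' → ratios (x j (g i)) ≠ ratios (x j (g i'))) ∧
      aclo K (⋃ i, ratios (x j (g i))) = aclo K (⋃ i, ratios (x j i)) := fun j =>
    exists_sel (w := w j) (fun l => ratios (x j l)) (hw j)
  choose ρ g hρw hρr hne hcl using hsel
  -- the closures
  have hle : ∀ j, (⋃ i, ratios (x j i)) ⊆ aclo K (⋃ j, ⋃ i, ratios (x j (g j i))) := fun j =>
    (subset_aclo (⋃ i, ratios (x j i))).trans (by
      rw [← hcl j]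
      exact aclo_mono (Set.subset_iUnion (fun j => ⋃ i, ratios (x j (g j i))) j))
  have hsub : ∀ j i, ratios (x j (g j i)) ⊆ ⋃ i, ratios (x j i) := fun j i =>
    Set.subset_iUnion (fun l => ratios (x j l)) _
  have hcl' : aclo K (⋃ j, ⋃ i, ratios (x j (g j i))) = aclo K (⋃ j, ⋃ i, ratios (x j i)) := by
    apply le_antisymm
    · exact aclo_mono (Set.iUnion_mono fun j => Set.iUnion_subset fun i => hsub j i)
    · exact aclo_le (Set.iUnion_subset hle)
  have hbase : base K L (⋃ j, ⋃ i, ratios (x j (g j i))) =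
      base K L (⋃ j, ⋃ i, ratios (x j i)) := by
    ext z
    rw [mem_base, mem_base, hcl']
  rw [← hbase]
  refine fib_grp X ρ r w (fun j i => x j (g j i)) (fun j i => hx j _)
    (fun j i i' hii => ?_) (fun j a => (le_min (hρr j) (hρw j)).trans (hdeg j a)) hr0
    (fun j i => hr j _) (fun j => ?_) hpos (fun j => ?_) ?_ fun σ j i z hz => ?_
  · by_contra hcon
    push Not at hcon
    exact hne j i i' hii (ratios_eq_of_prop (hx j _).ne (hx j _).ne hcon)
  · rw [trdeg_aclo (hcl j)]
    exact hw j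
  · refine le_trans ?_ (hd j)
    have h1 := le_min (hρr j) (hρw j)
    have h2 : (ρ j + 1) * (X j).m ≤ (min (N j) (w j) + 1) * (X j).m :=
      Nat.mul_le_mul_right _ (by omega)
    omega
  · rw [trdeg_aclo hcl']
    exact hind
  · rw [hcl']
    exact hconj σ j (g j i) z hz

end

end Pool.Agent.N95.RF
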