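import Pool.Agent.N95.RF.Vec

/-!
Several points of a generic complete intersection: a basis of the space of the vectors.
-/

set_option autoImplicit false
set_option linter.unusedSectionVars false

open MvPolynomial Module Pool.Agent.TH145.GH
open Pool.Agent.TH145.GC (Tan dF_sub dF_self der_zero_of_alg)

namespace Pool.Agent.N95.RF

section

variable {k0 K L : Type} [Field k0] [Field K] [Field L] [Algebra k0 L] [Algebra K L]
  {n m ρ : ℕ} {A : Type}

namespace Dat

variable (S : Dat k0 K L n m ρ A)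

/-- deformations which move only one of the last points -/
structure Tri (G : A → Fin ρ → MvPolynomial (Fin (n + 1)) L) : Prop where
  hom : ∀ a i, (G a i).IsHomogeneous (S.dg a)
  zero : ∀ a i i', i < i' → eval (S.x i') (G a i) = 0
  ne : ∀ a i, eval (S.x i) (G a i) ≠ 0

/-- the indices of the products of linear forms -/
abbrev Sx (n ρ : ℕ) (A : Type) := A × (Fin (n + 1) →₀ ℕ) × (Fin ρ → Fin (n + 1) × Fin (n + 1))

/-- the product of linear forms and a monomial -/
noncomputable def pr (s : Sx n ρ A) : MvPolynomial (Fin (n + 1)) L := mp S.x Finset.univ s.2.1 s.2.2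

theorem x_ne (i : Fin ρ) : S.x i ≠ 0 := by
  intro h
  have h1 := S.xc i
  rw [h] at h1
  exact zero_ne_one h1

theorem lf_hom (x : Fin (n + 1) → L) (q : Fin (n + 1) × Fin (n + 1)) :
    (lf x q).IsHomogeneous 1 := by
  unfold lf
  refine IsHomogeneous.sub ?_ ?_
  · have := (isHomogeneous_C (Fin (n + 1)) (x q.1)).mul (isHomogeneous_X L q.2)
    rwa [zero_add] at this
  · have := (isHomogeneous_C (Fin (n + 1)) (x q.2)).mul (isHomogeneous_X L q.1)
    rwa [zero_add] at this

theorem prod_lf_hom {ι : Type} (x : ι → Fin (n + 1) → L) (s : Finset ι)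
    (q : ι → Fin (n + 1) × Fin (n + 1)) : (∏ i ∈ s, lf (x i) (q i)).IsHomogeneous s.card := by
  have h1 := IsHomogeneous.prod s (fun i => lf (x i) (q i)) (fun _ => 1) fun i _ => lf_hom _ _
  rwa [Finset.sum_const, smul_eq_mul, mul_one] at h1

theorem pr_hom {s : Sx n ρ A} (hs : s.2.1.degree = S.dg s.1 - ρ) :
    (S.pr s).IsHomogeneous (S.dg s.1) := by
  have h1 := (isHomogeneous_monomial (R := L) (1 : L) hs).mul
    (prod_lf_hom S.x Finset.univ s.2.2)
  rw [Finset.card_univ, Fintype.card_fin, Nat.sub_add_cancel (S.deg s.1)] at h1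
  exact h1

theorem pr_eval (s : Sx n ρ A) (i : Fin ρ) : eval (S.x i) (S.pr s) = 0 := by
  unfold pr mp
  rw [map_mul, map_prod, Finset.prod_eq_zero (Finset.mem_univ i) (eval_lf_self _ _), mul_zero]

/-- **Forms modulo the products of linear forms.** -/
theorem tri_span {G : A → Fin ρ → MvPolynomial (Fin (n + 1)) L} (hG : S.Tri G) (a : A) (l : ℕ)
    (hl : l ≤ ρ) {g : MvPolynomial (Fin (n + 1)) L} (hg : g.IsHomogeneous (S.dg a))
    (h0 : ∀ i : Fin ρ, l ≤ i → eval (S.x i) g = 0) :
    g ∈ Submodule.span L {u | ∃ i : Fin ρ, (i : ℕ) < l ∧ u = G a i} ⊔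
      Submodule.span L {u | ∃ s : Sx n ρ A, s.1 = a ∧ s.2.1.degree = S.dg s.1 - ρ ∧ u = S.pr s} := by
  induction l generalizing g with
  | zero =>
    refine Submodule.mem_sup_right ?_
    have h1 : g ∈ Sd L n (S.dg a - ρ) * ∏ i : Fin ρ, Lam (S.x i) := by
      refine vanish S.x S.x_ne S.dist Finset.univ (S.dg a - ρ) ?_ fun i _ => h0 i (Nat.zero_le _)
      rw [Finset.card_univ, Fintype.card_fin, Nat.sub_add_cancel (S.deg a)]
      exact mem_Sd hg
    refine Submodule.span_mono ?_ (prod_span S.x Finset.univ (S.dg a - ρ) h1)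
    rintro _ ⟨I, q, hI, rfl⟩
    exact ⟨(a, I, q), rfl, hI, rfl⟩
  | succ l ih =>
    obtain ⟨i, hi⟩ : ∃ i : Fin ρ, (i : ℕ) = l := ⟨⟨l, hl⟩, rfl⟩
    obtain ⟨r, hr⟩ : ∃ r, r = eval (S.x i) g / eval (S.x i) (G a i) := ⟨_, rfl⟩
    have h1 : (g - r • G a i).IsHomogeneous (S.dg a) := by
      refine hg.sub ?_
      rw [smul_eq_C_mul]
      have := (isHomogeneous_C (Fin (n + 1)) r).mul (hG.hom a i)
      rwa [zero_add] at this
    have h2 := ih (Nat.le_of_succ_le hl) h1 (fun i' hi' => by
      rw [map_sub, smul_eval]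
      rcases Nat.eq_or_lt_of_le hi' with h | h
      · have h3 : i' = i := Fin.ext (h.symm.trans hi.symm)
        rw [h3, hr, div_mul_cancel₀ _ (hG.ne a i), sub_self]
      · rw [h0 i' h, hG.zero a i i' (by rw [Fin.lt_def, hi]; exact h), mul_zero, sub_self])
    have h3 : g = (g - r • G a i) + r • G a i := by ring
    rw [h3]
    have h4 : Submodule.span L {u | ∃ i : Fin ρ, (i : ℕ) < l ∧ u = G a i} ≤
        Submodule.span L {u | ∃ i : Fin ρ, (i : ℕ) < l + 1 ∧ u = G a i} := by
      refine Submodule.span_mono ?_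
      rintro _ ⟨i', hi', rfl⟩
      exact ⟨i', by omega, rfl⟩
    exact Submodule.add_mem _ ((sup_le_sup_right h4 _ : _ ≤ _) h2)
      (Submodule.mem_sup_left (Submodule.smul_mem _ _ (Submodule.subset_span ⟨i, by omega, rfl⟩)))

/-- the vectors of the points, of the vertical derivations, and of the deformations which fix the
points -/
noncomputable def v1 {w : ℕ} (E : Fin w → Derivation ℤ L L) :
    ((Fin ρ ⊕ Fin w) ⊕ Sx n ρ A) → (Fin ρ × Fin (n + 1) → L) :=
  Sum.elim (Sum.elim (eu S.x) fun l => vd (E l) S.x) fun s => S.T s.1 (S.pr s)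

theorem lam_v1 {w : ℕ} {E : Fin w → Derivation ℤ L L}
    (hE : ∀ l (r : K), E l (algebraMap K L r) = 0) (b : A) (i : Fin ρ)
    (r : (Fin ρ ⊕ Fin w) ⊕ Sx n ρ A)
    (hr : ∀ s, r = Sum.inr s → s.2.1.degree = S.dg s.1 - ρ) : S.lam b i (S.v1 E r) = 0 := by
  rcases r with (i' | l) | s
  · exact S.lam_eu b i i'
  · exact S.lam_vd (hE l) b i
  · have h1 := S.lam_T s.1 b i (S.pr_hom (hr s rfl))
    by_cases h : s.1 = b
    · refine (h1.1 h).trans ?_
      rw [S.pr_eval, neg_zero]
    · exact h1.2 h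

/-- the vectors of the points and of the vertical derivations are independent -/
theorem ind0 [CharZero L] {w : ℕ} {E : Fin w → Derivation K L L} {t : Fin w → L}
    (hEt : ∀ i j, E i (t j) = if i = j then 1 else 0)
    (halg : ∀ z : L, IsAlgebraic (IntermediateField.adjoin K
      (Set.range fun q : Fin ρ × Fin (n + 1) => S.x q.1 q.2)) z) :
    LinearIndependent L (Sum.elim (eu S.x) fun l => vd ((E l).restrictScalars ℤ) S.x) := by
  classical
  rw [Fintype.linearIndependent_iff]
  intro c hc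
  rw [Fintype.sum_sum_type] at hc
  have h1 : ∀ i, c (Sum.inl i) = 0 := by
    intro i
    have h2 := congrFun hc (i, S.c i)
    rw [Pi.add_apply, Finset.sum_apply, Finset.sum_apply, Finset.sum_eq_single i] at h2
    · have h3 : ∑ l, (c (Sum.inr l) • Sum.elim (eu S.x)
          (fun l => vd ((E l).restrictScalars ℤ) S.x) (Sum.inr l)) (i, S.c i) = 0 := by
        refine Finset.sum_eq_zero fun l _ => ?_
        change c (Sum.inr l) * (E l) (S.x i (S.c i)) = 0
        rw [S.xc, (E l).map_one_eq_zero, mul_zero]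
      rw [h3, add_zero] at h2
      change c (Sum.inl i) * (if i = i then S.x i (S.c i) else 0) = 0 at h2
      rw [if_pos rfl, S.xc, mul_one] at h2
      exact h2
    · intro i' _ hi'
      change c (Sum.inl i') * (if i = i' then S.x i' (S.c i) else 0) = 0
      rw [if_neg (Ne.symm hi'), mul_zero]
    · intro h
      exact absurd (Finset.mem_univ _) h
  have h2 : ∀ q : Fin ρ × Fin (n + 1), (∑ l, c (Sum.inr l) • E l) (S.x q.1 q.2) = 0 := by
    intro q
    have h3 := congrFun hc q
    rw [Pi.add_apply, Finset.sum_apply, Finset.sum_apply] at h3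
    have h4 : ∑ i, (c (Sum.inl i) • Sum.elim (eu S.x)
        (fun l => vd ((E l).restrictScalars ℤ) S.x) (Sum.inl i)) q = 0 := by
      refine Finset.sum_eq_zero fun i _ => ?_
      rw [h1, zero_smul, Pi.zero_apply]
    rw [h4, zero_add] at h3
    rw [← Derivation.coeFnAddMonoidHom_apply, map_sum, Finset.sum_apply]
    exact h3
  obtain ⟨δ, hδ⟩ : ∃ δ : Derivation K L L, δ = ∑ l, c (Sum.inr l) • E l := ⟨_, rfl⟩
  rw [← hδ] at h2
  have h3 : ∀ z : L, δ z = 0 := by
    intro z
    have h4 : ∀ y ∈ (IntermediateField.adjoin K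
        (Set.range fun q : Fin ρ × Fin (n + 1) => S.x q.1 q.2)).toSubfield,
        (δ.restrictScalars ℤ) y = 0 := by
      intro y hy
      have h5 : y ∈ IntermediateField.adjoin K
        (Set.range fun q : Fin ρ × Fin (n + 1) => S.x q.1 q.2) := hy
      change δ y = 0
      refine IntermediateField.adjoin_induction K (p := fun y _ => δ y = 0) ?_ ?_ ?_ ?_ ?_ h5
      · rintro _ ⟨q, rfl⟩
        exact h2 q
      · exact fun r => δ.map_algebraMap r
      · intro a b _ _ ha hb
        rw [map_add, ha, hb, add_zero]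
      · intro a _ ha
        rw [δ.leibniz_inv, ha, smul_zero]
      · intro a b _ _ ha hb
        rw [δ.leibniz, ha, hb, smul_zero, smul_zero, add_zero]
    exact der_zero_of_alg (δ.restrictScalars ℤ) _ h4 (halg z)
  rintro (i | l)
  · exact h1 i
  · have h4 := h3 (t l)
    rw [hδ, ← Derivation.coeFnAddMonoidHom_apply, map_sum, Finset.sum_apply,
      Finset.sum_eq_single l] at h4
    · change c (Sum.inr l) * E l (t l) = 0 at h4
      rwa [hEt, if_pos rfl, mul_one] at h4
    · intro i _ hi
      change c (Sum.inr i) * E i (t l) = 0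
      rw [hEt, if_neg hi, mul_zero]
    · intro h
      exact absurd (Finset.mem_univ _) h

end Dat

end

end Pool.Agent.N95.RF
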