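import Pool.Agent.N95.RF.Bas

/-!
Several points of a generic complete intersection: the rows.
-/

set_option autoImplicit false
set_option linter.unusedSectionVars false

open MvPolynomial Module Pool.Agent.TH145.GH
open Pool.Agent.TH145.GC (Tan dF_sub dF_self der_zero_of_alg)

namespace Pool.Agent.N95.RF

section

variable {k0 K L : Type} [Field k0] [Field K] [Field L] [Algebra k0 L] [Algebra K L]
  {n m ρ w : ℕ} {A : Type}

/-- the indices of the rows -/
abbrev Ir (n ρ w : ℕ) (A : Type) (B : Finset (Dat.Sx n ρ A)) :=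
  ((Fin ρ ⊕ Fin w) ⊕ B) ⊕ (Fin ρ × A)

namespace Dat

variable (S : Dat k0 K L n m ρ A)

/-- the rows -/
noncomputable def row (B : Finset (Sx n ρ A)) (E : Fin w → Derivation ℤ L L)
    (G : A → Fin ρ → MvPolynomial (Fin (n + 1)) L) :
    Ir n ρ w A B → (Fin ρ × Fin (n + 1) → L) :=
  Sum.elim (Sum.elim (Sum.elim (eu S.x) fun l => vd (E l) S.x) fun s => S.T s.1.1 (S.pr s.1))
    fun p => S.T p.2 (G p.2 p.1)

/-- the properties of the index set of the rows -/
structure Good (B : Finset (Sx n ρ A)) (E : Fin w → Derivation ℤ L L)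
    (G : A → Fin ρ → MvPolynomial (Fin (n + 1)) L) : Prop where
  deg : ∀ s ∈ B, s.2.1.degree = S.dg s.1 - ρ
  span : ∀ s : Sx n ρ A, s.2.1.degree = S.dg s.1 - ρ → S.T s.1 (S.pr s) ∈
    Submodule.span L (Set.range fun r : (Fin ρ ⊕ Fin w) ⊕ B => S.row B E G (Sum.inl r))
  ind : LinearIndependent L (S.row B E G)

theorem exists_rows [CharZero L] [Fintype A] {E : Fin w → Derivation K L L}
    {t : Fin w → L} (hEt : ∀ i j, E i (t j) = if i = j then 1 else 0)
    (halg : ∀ z : L, IsAlgebraic (IntermediateField.adjoin K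
      (Set.range fun q : Fin ρ × Fin (n + 1) => S.x q.1 q.2)) z)
    {G : A → Fin ρ → MvPolynomial (Fin (n + 1)) L} (hG : S.Tri G) :
    ∃ B : Finset (Sx n ρ A), S.Good B (fun l => (E l).restrictScalars ℤ) G := by
  classical
  obtain ⟨E', hE'⟩ : ∃ E' : Fin w → Derivation ℤ L L, E' = fun l => (E l).restrictScalars ℤ :=
    ⟨_, rfl⟩
  have hEK : ∀ l (r : K), E' l (algebraMap K L r) = 0 := by
    intro l r
    rw [hE']
    exact (E l).map_algebraMap r
  obtain ⟨t0, ht0⟩ : ∃ t0 : Set ((Fin ρ ⊕ Fin w) ⊕ Sx n ρ A),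
    t0 = {r | ∀ s, r = Sum.inr s → s.2.1.degree = S.dg s.1 - ρ} := ⟨_, rfl⟩
  have h1 : LinearIndepOn L (S.v1 E') (Set.range Sum.inl) := by
    rw [← Set.image_univ]
    refine LinearIndepOn.image_of_comp _ _ ?_
    rw [linearIndepOn_univ_iff]
    have h2 := S.ind0 hEt halg
    rw [hE']
    exact h2
  have h2 : Set.range Sum.inl ⊆ t0 := by
    rintro _ ⟨r, rfl⟩
    rw [ht0]
    intro s hs
    exact absurd hs (by simp)
  obtain ⟨b, hbt, hb1, hb2, hb3⟩ := exists_linearIndepOn_extension h1 h2
  have hbf : b.Finite := by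
    have h3 : Finite b := LinearIndependent.finite hb3
    exact h3
  obtain ⟨B, hB⟩ : ∃ B : Finset (Sx n ρ A), ∀ s, s ∈ B ↔ Sum.inr s ∈ b := by
    have h3 : {s : Sx n ρ A | (Sum.inr s : (Fin ρ ⊕ Fin w) ⊕ Sx n ρ A) ∈ b}.Finite :=
      hbf.preimage (Sum.inr_injective.injOn)
    exact ⟨h3.toFinset, fun s => by rw [Set.Finite.mem_toFinset]; rfl⟩
  let φ : ((Fin ρ ⊕ Fin w) ⊕ B) → b := fun r => match r with
    | Sum.inl r => ⟨Sum.inl r, hb1 ⟨r, rfl⟩⟩
    | Sum.inr s => ⟨Sum.inr s.1, (hB s.1).1 s.2⟩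
  have hφ : ∀ r, S.row B E' G (Sum.inl r) = S.v1 E' (φ r) := by
    rintro ((i | l) | s)
    · rfl
    · rfl
    · rfl
  have hφi : Function.Injective φ := by
    rintro (r | s) (r' | s') h
    · have h3 := congrArg Subtype.val h
      exact congrArg Sum.inl (Sum.inl_injective h3)
    · have h3 := congrArg Subtype.val h
      exact absurd h3 (by simp [φ])
    · have h3 := congrArg Subtype.val h
      exact absurd h3 (by simp [φ])
    · have h3 := congrArg Subtype.val h
      exact congrArg Sum.inr (Subtype.ext (Sum.inr_injective h3))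
  have hind1 : LinearIndependent L fun r : (Fin ρ ⊕ Fin w) ⊕ B => S.row B E' G (Sum.inl r) := by
    have h3 := LinearIndependent.comp hb3 φ hφi
    have h4 : (fun r : (Fin ρ ⊕ Fin w) ⊕ B => S.row B E' G (Sum.inl r)) =
        (fun x : b => S.v1 E' x.1) ∘ φ := funext hφ
    rw [h4]
    exact h3
  have hspan : S.v1 E' '' b ⊆ Set.range fun r : (Fin ρ ⊕ Fin w) ⊕ B => S.row B E' G (Sum.inl r) := by
    rintro _ ⟨r, hr, rfl⟩
    rcases r with r | s
    · exact ⟨Sum.inl r, hφ (Sum.inl r)⟩
    · exact ⟨Sum.inr ⟨s, (hB s).2 hr⟩, rfl⟩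
  have hdegB : ∀ s ∈ B, s.2.1.degree = S.dg s.1 - ρ := by
    intro s hs
    have h3 := hbt ((hB s).1 hs)
    rw [ht0] at h3
    exact h3 s rfl
  have hlam0 : ∀ (c : A) (i : Fin ρ) (r : (Fin ρ ⊕ Fin w) ⊕ B),
      S.lam c i (S.row B E' G (Sum.inl r)) = 0 := by
    intro c i r
    rw [hφ]
    refine S.lam_v1 hEK c i _ fun s hs => ?_
    rcases r with r | s'
    · exact absurd hs (by simp [φ])
    · have h3 : s'.1 = s := Sum.inr_injective hs
      rw [← h3]
      exact hdegB _ s'.2
  refine ⟨B, ?_⟩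
  rw [← hE']
  refine ⟨hdegB, fun s hs => ?_, ?_⟩
  · have h3 : S.v1 E' (Sum.inr s) ∈ Submodule.span L (S.v1 E' '' b) := by
      apply hb2
      refine ⟨Sum.inr s, ?_, rfl⟩
      rw [ht0]
      intro s' hs'
      rw [← Sum.inr_injective hs']
      exact hs
    exact Submodule.span_mono hspan h3
  · rw [Fintype.linearIndependent_iff]
    intro c hc
    rw [Fintype.sum_sum_type] at hc
    have hG0 : ∀ a i, c (Sum.inr (i, a)) = 0 := by
      intro a
      let Γ : Matrix (Fin ρ) (Fin ρ) L := Matrix.of fun i' i => eval (S.x i) (G a i')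
      have hdet : Γ.det ≠ 0 := by
        have h3 : Γ.BlockTriangular (OrderDual.toDual : Fin ρ → (Fin ρ)ᵒᵈ) := by
          intro i i' hii
          exact hG.zero a i i' hii
        have h4 : Γ.det = ∏ i, Γ i i := by
          convert Matrix.det_of_isLowerTriangular Γ h3
        rw [h4]
        exact Finset.prod_ne_zero_iff.2 fun i _ => hG.ne a i
      have h3 : Matrix.vecMul (fun i => c (Sum.inr (i, a))) Γ = 0 := by
        funext i
        have h4 := congrArg (S.lam a i) hc
        rw [map_add, map_sum, map_sum, map_zero] at h4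
        have h5 : ∑ r, S.lam a i (c (Sum.inl r) • S.row B E' G (Sum.inl r)) = 0 := by
          refine Finset.sum_eq_zero fun r _ => ?_
          rw [map_smul, hlam0, smul_zero]
        rw [h5, zero_add] at h4
        have h6 : ∀ p : Fin ρ × A, S.lam a i (c (Sum.inr p) • S.row B E' G (Sum.inr p)) =
            if p.2 = a then - (c (Sum.inr p) * eval (S.x i) (G p.2 p.1)) else 0 := by
          intro p
          have h7 := S.lam_T p.2 a i (hG.hom p.2 p.1)
          rw [map_smul, smul_eq_mul]
          by_cases h : p.2 = a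
          · rw [if_pos h]
            have h8 : S.lam a i (S.row B E' G (Sum.inr p)) = - eval (S.x i) (G p.2 p.1) := h7.1 h
            rw [h8]
            ring
          · rw [if_neg h]
            have h8 : S.lam a i (S.row B E' G (Sum.inr p)) = 0 := h7.2 h
            rw [h8, mul_zero]
        rw [Finset.sum_congr rfl fun p _ => h6 p, Fintype.sum_prod_type] at h4
        simp only [Finset.sum_ite_eq', Finset.mem_univ, if_true, Finset.sum_neg_distrib,
          neg_eq_zero] at h4
        exact h4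
      have h4 := Matrix.eq_zero_of_vecMul_eq_zero hdet h3
      exact fun i => congrFun h4 i
    have h3 : ∑ r, c (Sum.inl r) • S.row B E' G (Sum.inl r) = 0 := by
      have h4 : ∑ p, c (Sum.inr p) • S.row B E' G (Sum.inr p) = 0 := by
        refine Finset.sum_eq_zero fun p _ => ?_
        rw [hG0 p.2 p.1, zero_smul]
      rwa [h4, add_zero] at hc
    have h4 := Fintype.linearIndependent_iff.1 hind1 (fun r => c (Sum.inl r)) h3
    rintro (r | p)
    · exact h4 r
    · exact hG0 p.2 p.1

end Dat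

end

end Pool.Agent.N95.RF
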