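import Pool.Agent.N95.RF.Bas2

/-!
Several points of a generic complete intersection: the number of the rows.
-/

set_option autoImplicit false
set_option linter.unusedSectionVars false

open MvPolynomial Module Pool.Agent.TH145.GH
open Pool.Agent.TH145.GC (Tan dF_sub dF_self der_zero_of_alg)

namespace Pool.Agent.N95.RF

section

variable {k0 K L : Type} [Field k0] [Field K] [Field L] [Algebra k0 L] [Algebra K L]
  {n m ρ w : ℕ} {A : Type}

namespace Dat

variable (S : Dat k0 K L n m ρ A)

theorem sum_der_apply {J : Type} (s : Finset J) (δ : J → Derivation ℤ L L) (f : L) :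
    (∑ j ∈ s, δ j) f = ∑ j ∈ s, δ j f := by
  rw [← Derivation.coeFnAddMonoidHom_apply, map_sum, Finset.sum_apply]
  rfl

theorem row_tan {B : Finset (Sx n ρ A)} {E : Fin w → Derivation ℤ L L}
    (hE : ∀ l (r : k0), E l (algebraMap k0 L r) = 0)
    (G : A → Fin ρ → MvPolynomial (Fin (n + 1)) L) (r : Ir n ρ w A B) (i : Fin ρ) :
    (fun j => S.row B E G r (i, j)) ∈ Tan k0 (S.x i) := by
  have hT : ∀ a g, (fun j => S.T a g (i, j)) ∈ Tan k0 (S.x i) := by
    intro a g
    refine ⟨0, S.Dg a g, fun r => ?_, fun l => ?_⟩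
    · rw [Dg, sum_der_apply]
      refine Finset.sum_eq_zero fun I _ => ?_
      rw [Derivation.smul_apply, S.kill, smul_zero]
    · rw [zero_mul, zero_add]
      rfl
  rcases r with ((i' | l) | s) | p
  · by_cases h : i = i'
    · subst h
      refine ⟨1, 0, fun _ => rfl, fun l => ?_⟩
      change (if i = i then S.x i l else 0) = _
      rw [if_pos rfl, one_mul]
      simp
    · refine ⟨0, 0, fun _ => rfl, fun l => ?_⟩
      change (if i = i' then S.x i' l else 0) = _
      rw [if_neg h, zero_mul]
      simp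
  · refine ⟨0, E l, hE l, fun j => ?_⟩
    rw [zero_mul, zero_add]
    rfl
  · exact hT _ _
  · exact hT _ _

variable [Fintype A]

/-- the number of the columns of a block -/
theorem block_le {B : Finset (Sx n ρ A)} [DecidableEq (Ir n ρ w A B)] {E : Fin w → Derivation ℤ L L}
    (hE : ∀ l (r : k0), E l (algebraMap k0 L r) = 0)
    (G : A → Fin ρ → MvPolynomial (Fin (n + 1)) L) {σ : Ir n ρ w A B → Fin ρ × Fin (n + 1)}
    (hdet : (Matrix.of fun r s => S.row B E G r (σ s)).det ≠ 0) (i : Fin ρ) :
    (Finset.univ.filter fun s => (σ s).1 = i).card ≤ m + 1 := by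
  classical
  refine le_trans ?_ (S.tan i)
  let f : Tan k0 (S.x i) →ₗ[L] ({s : Ir n ρ w A B // (σ s).1 = i} → L) :=
    { toFun := fun z s => z.1 (σ s.1).2
      map_add' := fun _ _ => rfl
      map_smul' := fun _ _ => rfl }
  refine card_block hdet (fun s => (σ s).1 = i) f fun r => ?_
  refine ⟨⟨_, S.row_tan hE G r i⟩, ?_⟩
  funext s
  exact congrArg (S.row B E G r) (Prod.ext s.2.symm rfl)

/-- the number of the rows -/
theorem rows_le {B : Finset (Sx n ρ A)} [DecidableEq (Ir n ρ w A B)] {E : Fin w → Derivation ℤ L L}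
    (hE : ∀ l (r : k0), E l (algebraMap k0 L r) = 0)
    (G : A → Fin ρ → MvPolynomial (Fin (n + 1)) L) {σ : Ir n ρ w A B → Fin ρ × Fin (n + 1)}
    (hdet : (Matrix.of fun r s => S.row B E G r (σ s)).det ≠ 0) :
    ρ + w + B.card + ρ * Fintype.card A ≤ ρ * (m + 1) := by
  classical
  have h1 : Fintype.card (Ir n ρ w A B) = ∑ i : Fin ρ,
      (Finset.univ.filter fun s : Ir n ρ w A B => (σ s).1 = i).card := by
    rw [← Finset.card_univ]
    exact Finset.card_eq_sum_card_fiberwise fun s _ => Finset.mem_univ _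
  have h2 : Fintype.card (Ir n ρ w A B) = ρ + w + B.card + ρ * Fintype.card A := by
    rw [Fintype.card_sum, Fintype.card_sum, Fintype.card_sum, Fintype.card_prod, Fintype.card_fin,
      Fintype.card_fin, Fintype.card_coe]
  rw [← h2, h1]
  refine (Finset.sum_le_sum fun i _ => S.block_le hE G hdet i).trans ?_
  rw [Finset.sum_const, Finset.card_univ, Fintype.card_fin, smul_eq_mul]

end Dat

end

end Pool.Agent.N95.RF
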