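import Pool.Agent.N95.RF.Sym
import Pool.Agent.N95.RF.Grp2

/-!
Selection of few points of a cycle, over which all the others are algebraic.
-/

set_option autoImplicit false
set_option linter.unusedSectionVars false
set_option linter.overlappingInstances false

open FF Module IntermediateField
open Pool.Agent.N111.GI (GenericCI)
open Pool.Agent.N111.FT (aclo mem_aclo subset_aclo aclo_le aclo_mono aclo_closed map_mem_aclo_iff)
open Pool.Agent.W602.GT (GeneralType coords)
open Pool.Agent.N95.PR (ratios adjoin_ratios base mem_base base_closed alg_base trdeg_base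
  ratios_norm ratios_image)

namespace Pool.Agent.N95.RF

theorem trdeg_aclo {K A : Type} [Field K] [Field A] [Algebra K A] {S T : Set A}
    (h : aclo K S = aclo K T) :
    Algebra.trdeg K (adjoin K S) = Algebra.trdeg K (adjoin K T) := by
  have h1 : ∀ U : Set A, Algebra.trdeg K (base K A U) = Algebra.trdeg K (adjoin K U) := fun U =>
    trdeg_base fun z hz => isAlgebraic_algebraMap (⟨z, hz⟩ : base K A U)
  have h2 : base K A S = base K A T := by
    ext z
    rw [mem_base, mem_base, h]
  rw [← h1, ← h1, h2]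

theorem exists_sel {K A : Type} [Field K] [Field A] [Algebra K A] {s w : ℕ} (R : Fin s → Set A)
    (hw : Algebra.trdeg K (adjoin K (⋃ l, R l)) = w) :
    ∃ (ρ : ℕ) (g : Fin ρ → Fin s), ρ ≤ w ∧ ρ ≤ s ∧ (∀ i j, i ≠ j → R (g i) ≠ R (g j)) ∧
      aclo K (⋃ i, R (g i)) = aclo K (⋃ l, R l) := by
  classical
  -- a smallest set of indices
  let P : Finset (Fin s) → Prop := fun I => ∀ l, R l ⊆ aclo K (⋃ i ∈ I, R i)
  have hP : ∃ I, P I := ⟨Finset.univ, fun l => by
    refine subset_aclo _ |>.trans' ?_
    exact Set.subset_biUnion_of_mem (u := R) (Finset.mem_coe.2 (Finset.mem_univ l))⟩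
  obtain ⟨I, hI, hmin⟩ : ∃ I, P I ∧ ∀ I', P I' → I.card ≤ I'.card := by
    have hex : ∃ n, ∃ I, P I ∧ I.card = n := by
      obtain ⟨I, hI⟩ := hP
      exact ⟨_, I, hI, rfl⟩
    obtain ⟨I, hI, hc⟩ := Nat.find_spec hex
    refine ⟨I, hI, fun I' hI' => ?_⟩
    rw [hc]
    exact Nat.find_min' hex ⟨I', hI', rfl⟩
  have hnot : ∀ i ∈ I, ∃ z ∈ R i, z ∉ aclo K (⋃ j ∈ I.erase i, R j) := by
    intro i hi
    by_contra hcon
    push Not at hcon
    have h1 : P (I.erase i) := by
      intro l
      refine (hI l).trans ?_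
      have h2 : aclo K (⋃ j ∈ I, R j) ≤ aclo K (⋃ j ∈ I.erase i, R j) := by
        refine aclo_le (Set.iUnion₂_subset fun j hj => ?_)
        by_cases hji : j = i
        · subst hji
          exact hcon
        · exact (Set.subset_biUnion_of_mem (u := R)
            (Finset.mem_coe.2 (Finset.mem_erase.2 ⟨hji, hj⟩))).trans (subset_aclo _)
      exact h2
    have h2 := hmin _ h1
    have h3 := Finset.card_erase_lt_of_mem hi
    omega
  have hz : ∀ i : Fin s, ∃ z : A, i ∈ I → z ∈ R i ∧ z ∉ aclo K (⋃ j ∈ I.erase i, R j) := by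
    intro i
    by_cases hi : i ∈ I
    · obtain ⟨z, h1, h2⟩ := hnot i hi
      exact ⟨z, fun _ => ⟨h1, h2⟩⟩
    · exact ⟨0, fun h => absurd h hi⟩
  choose z hz using hz
  -- independence
  have hind : ∀ T : Finset (Fin s), T ⊆ I → AlgebraicIndepOn K z (T : Set (Fin s)) := by
    intro T
    induction T using Finset.induction_on with
    | empty =>
      intro _
      rw [Finset.coe_empty]
      exact algebraicIndependent_empty_type_iff.2 (algebraMap K A).injective
    | insert a T ha ih =>
      intro hT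
      rw [Finset.coe_insert]
      refine (ih fun b hb => hT (Finset.mem_insert_of_mem hb)).insert ?_
      intro halg
      obtain ⟨h1, h2⟩ := hz a (hT (Finset.mem_insert_self a T))
      apply h2
      have h3 : z a ∈ aclo K (z '' (T : Set (Fin s))) := by
        rw [mem_aclo]
        exact isAlgebraic_adjoin_iff.2 halg
      refine aclo_mono ?_ h3
      rintro _ ⟨b, hb, rfl⟩
      have hbT : b ∈ T := hb
      have hbI : b ∈ I := hT (Finset.mem_insert_of_mem hbT)
      have hba : b ≠ a := fun h => ha (h ▸ hbT)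
      exact Set.mem_biUnion (Finset.mem_coe.2 (Finset.mem_erase.2 ⟨hba, hbI⟩)) (hz b hbI).1
  have hIi := hind I (Finset.Subset.refl I)
  -- the number of the indices
  have hcard : I.card ≤ w := by
    have hmem : ∀ i : I, z i ∈ adjoin K (⋃ l, R l) := fun i =>
      subset_adjoin _ _ (Set.mem_iUnion.2 ⟨i, (hz i i.2).1⟩)
    let z' : I → adjoin K (⋃ l, R l) := fun i => ⟨z i, hmem i⟩
    have h1 : AlgebraicIndependent K z' := by
      have h2 : AlgebraicIndependent K ((adjoin K (⋃ l, R l)).val ∘ z') := hIi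
      exact AlgebraicIndependent.of_comp _ h2
    have h2 := h1.cardinalMk_le_trdeg
    rw [hw, Cardinal.mk_coe_finset] at h2
    exact_mod_cast h2
  let e : Fin I.card ≃ I := I.equivFin.symm
  have hU : ⋃ i, R (e i) = ⋃ i ∈ I, R i := by
    ext y
    simp only [Set.mem_iUnion]
    constructor
    · rintro ⟨i, hi⟩
      exact ⟨e i, (e i).2, hi⟩
    · rintro ⟨i, hi, hy⟩
      refine ⟨e.symm ⟨i, hi⟩, ?_⟩
      rw [Equiv.apply_symm_apply]
      exact hy
  refine ⟨I.card, fun i => e i, hcard, ?_, fun i j hij h => ?_, ?_⟩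
  · have h1 := I.card_le_univ
    rwa [Fintype.card_fin] at h1
  · obtain ⟨h1, h2⟩ := hz (e i) (e i).2
    apply h2
    refine subset_aclo _ ?_
    rw [h] at h1
    refine Set.mem_biUnion (Finset.mem_coe.2 (Finset.mem_erase.2 ⟨?_, (e j).2⟩)) h1
    intro h3
    exact hij (e.injective (Subtype.ext h3)).symm
  · rw [hU]
    apply le_antisymm
    · exact aclo_mono (Set.iUnion₂_subset fun i _ => Set.subset_iUnion R i)
    · exact aclo_le (Set.iUnion_subset fun l => hI l)

section

variable {k K L : Type} [Field k] [Field K] [CharZero K] [IsAlgClosed K] [Algebra k K] [Field L]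
  [Algebra K L]

/-- two points with coordinates satisfying the equations of proportional vectors have the same
ratios -/
theorem ratios_eq_of_prop {A : Type} [Field A] {n : ℕ} {x y : Fin (n + 1) → A} (hx : x ≠ 0)
    (hy : y ≠ 0) (h : ∀ p q, x p * y q = x q * y p) : ratios x = ratios y := by
  obtain ⟨c, hc'⟩ := Function.ne_iff.1 hy
  have hc : y c ≠ 0 := hc'
  have h3 : ∀ i, x i = x c / y c * y i := by
    intro i
    have h4 := h i c
    field_simp
    exact h4
  have h5 : x c / y c ≠ 0 := fun h4 => hx (funext fun i => by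
    rw [h3 i, h4, zero_mul]
    rfl)
  have h6 : x = (x c / y c) • y := funext h3
  rw [h6, ratios_smul h5]

/-- **Fibrations defined by rational maps to products of symmetric powers.** -/
theorem sym_grp [Algebra.EssFiniteType K L] {s : ℕ} (X : Fin s → GenericCI k K)
    (r w : Fin s → ℕ) (f : ∀ j, SymMap k K L (X j) (r j))
    (hw : ∀ j, Algebra.trdeg K (adjoin K (f j).values) = w j) (hpos : ∀ j, 0 < w j)
    (hdeg : ∀ j a, min (r j) (w j) ≤ (X j).d a)
    (hd : ∀ j, (min (r j) (w j) + 1) * (X j).m + 2 * r j ≤ ∑ a, ((X j).d a + 1) + w j)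
    (hind : Algebra.trdeg K (adjoin K (⋃ j, (f j).values)) = (∑ j, w j : ℕ)) :
    GeneralType K (base K L (⋃ j, (f j).values)) (∑ j, w j) := by
  classical
  have hsel : ∀ j, ∃ (ρ : ℕ) (g : Fin ρ → Fin (r j)), ρ ≤ w j ∧ ρ ≤ r j ∧
      (∀ i i', i ≠ i' → ratios ((f j).p (g i)) ≠ ratios ((f j).p (g i'))) ∧
      aclo K (⋃ i, ratios ((f j).p (g i))) = aclo K (f j).values := by
    intro j
    obtain ⟨ρ, g, h1, h2, h3, h4⟩ := exists_sel (w := w j) (fun l => ratios ((f j).p l)) (by
      rw [← (f j).values_eq]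
      exact hw j)
    rw [← (f j).values_eq] at h4
    exact ⟨ρ, g, h1, h2, h3, h4⟩
  choose ρ g hρw hρr hne hcl using hsel
  have hr0 : ∀ j, 0 < r j := by
    intro j
    rcases Nat.eq_zero_or_pos (r j) with h | h
    · exfalso
      have h1 : (f j).values = ∅ := by
        rw [Set.eq_empty_iff_forall_notMem]
        rintro z ⟨l, -⟩
        exact absurd l.2 (by omega)
      have h0 := hw j
      rw [h1, adjoin_empty] at h0
      have h2 : Algebra.trdeg K (⊥ : IntermediateField K (AlgebraicClosure L)) = 0 :=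
        _root_.trdeg_eq_zero
      rw [h2] at h0
      have h3 : w j = 0 := by exact_mod_cast h0.symm
      have h4 := hpos j
      omega
    · exact h
  -- the closures
  have hle : ∀ j, (f j).values ⊆ aclo K (⋃ j, ⋃ i, ratios ((f j).p (g j i))) := fun j =>
    (subset_aclo (f j).values).trans (by
      rw [← hcl j]
      exact aclo_mono (Set.subset_iUnion (fun j => ⋃ i, ratios ((f j).p (g j i))) j))
  have hsub : ∀ j i, ratios ((f j).p (g j i)) ⊆ (f j).values := fun j i => by
    rw [(f j).values_eq]
    exact Set.subset_iUnion (fun l => ratios ((f j).p l)) _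
  have hcl' : aclo K (⋃ j, ⋃ i, ratios ((f j).p (g j i))) = aclo K (⋃ j, (f j).values) := by
    apply le_antisymm
    · exact aclo_mono (Set.iUnion_mono fun j => Set.iUnion_subset fun i => hsub j i)
    · exact aclo_le (Set.iUnion_subset hle)
  have hbase : base K L (⋃ j, ⋃ i, ratios ((f j).p (g j i))) = base K L (⋃ j, (f j).values) := by
    ext z
    rw [mem_base, mem_base, hcl']
  rw [← hbase]
  refine fib_grp X ρ r w (fun j i => (f j).p (g j i)) (fun j i => (f j).pt _)
    (fun j i i' hii => ?_) (fun j a => (le_min (hρr j) (hρw j)).trans (hdeg j a)) hr0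
    (fun j i => ((f j).finrank_le _).2) (fun j => ?_) hpos (fun j => ?_) ?_ fun σ j i z hz => ?_
  · by_contra hcon
    push Not at hcon
    exact hne j i i' hii (ratios_eq_of_prop ((f j).pt _).ne ((f j).pt _).ne hcon)
  · rw [trdeg_aclo (hcl j)]
    exact hw j
  · refine le_trans ?_ (hd j)
    have h1 := le_min (hρr j) (hρw j)
    have h2 : (ρ j + 1) * (X j).m ≤ (min (r j) (w j) + 1) * (X j).m :=
      Nat.mul_le_mul_right _ (by omega)
    omega
  · rw [trdeg_aclo hcl']
    exact hind
  · exact hle j ((f j).values_conj σ (hsub j i hz))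

/-- **The base of the fibration defined by a map to a symmetric power is of general type.** -/
theorem SymMap.gt_base' [Algebra.EssFiniteType K L] {X : GenericCI k K} {r : ℕ}
    (f : SymMap k K L X r) {w : ℕ} (hdeg : ∀ a, min r w ≤ X.d a)
    (hw : Algebra.trdeg K (adjoin K f.values) = w) (hpos : 0 < w)
    (hd : (min r w + 1) * X.m + 2 * r ≤ ∑ a, (X.d a + 1) + w) :
    GeneralType K (base K L f.values) w := by
  have hU : ⋃ _ : Fin 1, f.values = f.values := Set.iUnion_const _
  have h1 := sym_grp (s := 1) (fun _ => X) (fun _ => r) (fun _ => w) (fun _ => f) (fun _ => hw)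
    (fun _ => hpos) (fun _ => hdeg) (fun _ => hd) (by
      rw [hU, hw]
      simp)
  rw [hU] at h1
  simpa using h1

theorem SymMap.gt_self' [Algebra.EssFiniteType K L] {X : GenericCI k K} {r : ℕ}
    (f : SymMap k K L X r) {w : ℕ} (hdeg : ∀ a, min r w ≤ X.d a)
    (hw : Algebra.trdeg K L = w) (hpos : 0 < w)
    (h : ∀ z : L, algebraMap L (AlgebraicClosure L) z ∈ aclo K f.values)
    (hd : (min r w + 1) * X.m + 2 * r ≤ ∑ a, (X.d a + 1) + w) : GeneralType K L w := by
  have htop := f.base_top h
  have h1 : Algebra.trdeg K (base K L f.values) = w := by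
    rw [htop, ← hw]
    exact (IntermediateField.topEquiv (F := K) (E := L)).trdeg_eq
  have h2 := f.gt_base' hdeg (w := w) (by
    rw [← trdeg_base fun z hz => f.alg_val hz]
    exact h1) hpos hd
  exact Pool.Agent.TH466.QG.general_of_equiv
    ((IntermediateField.equivOfEq htop).trans IntermediateField.topEquiv) h2

end

end Pool.Agent.N95.RF
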