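import Pool.Agent.N95.RF.Cor
import Pool.Agent.N95.RF.Sel

/-!
Projective sets which are finite over the symmetric powers of generic complete intersections: bounds
depending on the dimension.
-/

set_option autoImplicit false
set_option linter.unusedSectionVars false
set_option linter.overlappingInstances false

open FF Module IntermediateField
open Pool.Agent.N111.GI (GenericCI)
open Pool.Agent.N111.FT (aclo mem_aclo subset_aclo aclo_le aclo_mono aclo_closed map_mem_aclo_iff)
open Pool.Agent.W602.GT (GeneralType coords)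
open Pool.Agent.TH145.MG (DimLE)
open Pool.Agent.N95.GH (OnSet AllGeneral)

namespace Pool.Agent.N95.RF

variable {k K : Type} [Field k] [Field K] [Algebra k K] [IsAlgClosed K] [CharZero K] {M : ℕ}
  {Φ : Set (MvPolynomial (Fin (M + 1)) K)} {X : GenericCI k K} {r : ℕ}

theorem arith {S P q m s r w : ℕ} (hm : 1 ≤ m) (hqP : q ≤ P) (hqw : q ≤ w) (hs : s ≤ r)
    (h : (P + 1) * m + 2 * r ≤ S + P) : (q + 1) * m + 2 * s ≤ S + w := by
  obtain ⟨t, rfl⟩ := Nat.exists_eq_add_of_le hqP
  have h1 : (q + t + 1) * m = (q + 1) * m + t * m := by ring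
  have h2 : t ≤ t * m := Nat.le_mul_of_pos_right t hm
  omega

/-- the dimension of a subvariety -/
theorem dim_le {D : ℕ} (hD : DimLE K Φ D) {E : Type} [Field E] [Algebra K E]
    {z : Fin (M + 1) → E} (hz : OnSet Φ z) (hgen : coords K z = ⊤) {w : ℕ}
    (hw : Algebra.trdeg K E = w) : w ≤ D := by
  have h1 := hD E z hz.1 hz.2
  have h2 : Algebra.trdeg K (coords K z) = w := by
    rw [hgen, ← hw]
    exact (IntermediateField.topEquiv (F := K) (E := E)).trdeg_eq
  have h3 : ((w : ℕ) : Cardinal) ≤ D := by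
    rw [← h2]
    exact h1
  exact_mod_cast h3

/-- **All closed subvarieties are of general type.** -/
theorem SymCor.general' (C : SymCor Φ X r) {D : ℕ} (hD : DimLE K Φ D) (hm : 1 ≤ X.m)
    (hdeg : ∀ a, min r D ≤ X.d a)
    (hd : (min r D + 1) * X.m + 2 * r ≤ ∑ a, (X.d a + 1) + min r D) : AllGeneral Φ := by
  intro E _ _ z w hz hgen hw hw1
  have hess : Algebra.EssFiniteType K E := Pool.Agent.N111.GI.ess_of_gen hgen
  obtain ⟨s, f, hs, h⟩ := C.lift hz hgen
  have hwD : w ≤ D := dim_le hD hz hgen hw
  have hq : min s w ≤ min r D := min_le_min hs hwD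
  exact f.gt_self' (fun a => hq.trans (hdeg a)) hw hw1 h
    (arith hm hq (min_le_right _ _) hs hd)

end Pool.Agent.N95.RF
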