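import Pool.Agent.N95.RF.Fm
import Pool.Agent.N95.PR.Gt

/-!
Several points of a generic complete intersection: existence of the derivations.
-/

set_option autoImplicit false
set_option linter.unusedSectionVars false
set_option linter.overlappingInstances false

open MvPolynomial Module Pool.Agent.TH145.GH FF Pool.Agent.W603.LV Pool.Agent.W603.PV
open Pool.Agent.W602.GT (Divisorial DerReg IsPluri RegAt coords)
open Pool.Agent.TH145.MG (DimLE)
open Pool.Agent.TH145.GC (Tan)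

namespace Pool.Agent.N95.RF

theorem exists_dat {k0 K L : Type} [Field k0] [Field K] [Field L] [Algebra k0 K] [Algebra K L]
    [Algebra k0 L] [IsScalarTower k0 K L] [IsAlgClosed K] [CharZero K] {n m ρ : ℕ} {A : Type}
    {dg : A → ℕ} {V : Set (MvPolynomial (Fin (n + 1)) k0)} (hV : DimLE k0 V m)
    {F : A → MvPolynomial (Fin (n + 1)) K} (hF : ∀ a, (F a).IsHomogeneous (dg a))
    {I₀ : A → Fin (n + 1) →₀ ℕ} (h0 : ∀ a, (F a).coeff (I₀ a) ≠ 0)
    (hind : AlgebraicIndependent k0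
      fun p : (a : A) × {I : Fin (n + 1) →₀ ℕ // I.degree = dg a ∧ I ≠ I₀ a} =>
        (F p.1).coeff p.2.1 / (F p.1).coeff (I₀ p.1)) {ι : Type} {t : ι → L}
    (ht : IsTranscendenceBasis K t) {x : Fin ρ → Fin (n + 1) → L} {c : Fin ρ → Fin (n + 1)}
    (hxc : ∀ i, x i (c i) = 1) (hxV : ∀ i, ∀ f ∈ V, aeval (x i) (map (algebraMap k0 K) f) = 0)
    (hxF : ∀ i a, aeval (x i) (F a) = 0)
    (hdist : ∀ i j, i ≠ j → ∃ q, eval (x j) (lf (x i) q) ≠ 0) (hdeg : ∀ a, ρ ≤ dg a) :
    ∃ S : Dat k0 K L n m ρ A, S.x = x ∧ S.dg = dg := by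
  classical
  have hL : CharZero L := charZero_of_injective_algebraMap (algebraMap K L).injective
  obtain ⟨D, hDS, hD⟩ := Pool.Agent.TH145.GF.exists_dualsG (k0 := k0) ht _ hind
  let F' : A → MvPolynomial (Fin (n + 1)) K := fun a => C ((F a).coeff (I₀ a))⁻¹ * F a
  have hF'c : ∀ a I, (F' a).coeff I = (F a).coeff I / (F a).coeff (I₀ a) := by
    intro a I
    change (C ((F a).coeff (I₀ a))⁻¹ * F a).coeff I = _
    rw [coeff_C_mul, div_eq_mul_inv, mul_comm]
  have hF' : ∀ a, (F' a).IsHomogeneous (dg a) := by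
    intro a
    have := (isHomogeneous_C (Fin (n + 1)) ((F a).coeff (I₀ a))⁻¹).mul (hF a)
    rwa [zero_add] at this
  let D' : A → (Fin (n + 1) →₀ ℕ) → Derivation ℤ L L := fun a I =>
    if h : I.degree = dg a ∧ I ≠ I₀ a then (D ⟨a, ⟨I, h⟩⟩).restrictScalars ℤ else 0
  refine ⟨{ dg := dg, F := F', hom := hF', I0 := I₀, one := fun a => ?_, x := x, c := c,
            xc := hxc, mem := fun a i => ?_, dist := hdist, deg := hdeg, D := D',
            sem := fun a I => ?_, kill := fun a I r => ?_, dual := fun a b I J hI hI0 => ?_,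
            tan := fun i => ?_ }, rfl, rfl⟩
  · rw [hF'c, div_self (h0 a)]
  · change aeval (x i) (C ((F a).coeff (I₀ a))⁻¹ * F a) = 0
    rw [map_mul, hxF, mul_zero]
  · change Sem K (if h : I.degree = dg a ∧ I ≠ I₀ a then (D ⟨a, ⟨I, h⟩⟩).restrictScalars ℤ else 0)
    split_ifs with h
    · exact hDS _
    · exact fun c => ⟨0, by rw [map_zero]; rfl⟩
  · change (if h : I.degree = dg a ∧ I ≠ I₀ a then (D ⟨a, ⟨I, h⟩⟩).restrictScalars ℤ else 0)
      (algebraMap k0 L r) = 0
    split_ifs with h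
    · exact (D ⟨a, ⟨I, h⟩⟩).map_algebraMap r
    · rfl
  · have h1 : D' a I = (D ⟨a, ⟨I, hI, hI0⟩⟩).restrictScalars ℤ := by
      change (if h : I.degree = dg a ∧ I ≠ I₀ a then (D ⟨a, ⟨I, h⟩⟩).restrictScalars ℤ else 0) = _
      rw [dif_pos ⟨hI, hI0⟩]
    rw [h1]
    change (_ → (D ⟨a, ⟨I, hI, hI0⟩⟩) (algebraMap K L ((F' b).coeff J)) = 1) ∧
      (_ → (D ⟨a, ⟨I, hI, hI0⟩⟩) (algebraMap K L ((F' b).coeff J)) = 0)
    rw [hF'c]
    constructor
    · rintro ⟨rfl, rfl⟩
      have := hD ⟨a, ⟨I, hI, hI0⟩⟩ ⟨a, ⟨I, hI, hI0⟩⟩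
      rw [if_pos rfl] at this
      exact this
    · intro hne
      by_cases hJ : J.degree = dg b
      · by_cases hJ0 : J = I₀ b
        · rw [hJ0, div_self (h0 b), map_one]
          exact (D ⟨a, ⟨I, hI, hI0⟩⟩).map_one_eq_zero
        · have := hD ⟨a, ⟨I, hI, hI0⟩⟩ ⟨b, ⟨J, hJ, hJ0⟩⟩
          rw [if_neg] at this
          · exact this
          · intro heq
            apply hne
            have h2 := congrArg (fun p : (a : A) × {I : Fin (n + 1) →₀ ℕ // I.degree = dg a ∧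
              I ≠ I₀ a} => (p.1, p.2.1)) heq
            exact ⟨congrArg Prod.fst h2, congrArg Prod.snd h2⟩
      · have h2 : (F b).coeff J = 0 := by
          by_contra hne0
          exact hJ (deg_of_mem (hF b) (mem_support_iff.2 hne0))
        rw [h2, zero_div, map_zero, map_zero]
  · refine Pool.Agent.TH145.GE.tan_rank (hxc i) (hV L (x i) (fun h => ?_) fun f hf => ?_)
    · have h1 := hxc i
      rw [h] at h1
      exact zero_ne_one h1
    · have h1 := hxV i f hf
      rwa [aeval_map_algebraMap] at h1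

end Pool.Agent.N95.RF
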