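import Mathlib

/-!
Determinants of families of vectors with a triangular relation.
-/

set_option autoImplicit false

namespace Pool.Agent.N95.RF

variable {L I C : Type} [Field L] [Fintype I] [DecidableEq I]

theorem det_tri (b : I → ℕ) (U : Matrix I I L)
    (hU : ∀ r r', U r r' ≠ 0 → r = r' ∨ b r' < b r) : U.det = ∏ r, U r r := by
  let f : I → ℕ ×ₗ ℕ := fun r => toLex (b r, (Fintype.equivFin I r : ℕ))
  have hf : Function.Injective f := by
    intro r r' h
    have h1 := congrArg (fun p => (ofLex p).2) h
    exact (Fintype.equivFin I).injective (Fin.ext h1)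
  let _ : LinearOrder I := LinearOrder.lift' f hf
  have h1 : U.BlockTriangular (OrderDual.toDual : I → Iᵒᵈ) := by
    intro r r' hrr'
    by_contra h0
    have h2 : r < r' := hrr'
    have h3 : f r < f r' := h2
    rcases hU r r' h0 with h | h
    · rw [h] at h3
      exact lt_irrefl _ h3
    · rcases (Prod.Lex.lt_iff).1 h3 with h4 | ⟨h4, -⟩
      · exact absurd h4 (not_lt.2 h.le)
      · exact absurd h4 (ne_of_gt h)
  convert Matrix.det_of_isLowerTriangular U h1

/-- **Determinants of families of vectors with a triangular relation.** -/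
theorem det_rel (b : I → ℕ) {y z : I → C → L} {u : I → L}
    (h : ∀ r, y r - u r • z r ∈ Submodule.span L (z '' {r' | b r' < b r})) (σ : I → C) :
    (Matrix.of fun r s => y r (σ s)).det = (∏ r, u r) * (Matrix.of fun r s => z r (σ s)).det := by
  have h1 : ∀ r, ∃ l : I → L, (∀ r', l r' ≠ 0 → b r' < b r) ∧ y r - u r • z r = ∑ r', l r' • z r' := by
    intro r
    obtain ⟨l, hl, hl'⟩ := (Finsupp.mem_span_image_iff_linearCombination L).1 (h r)
    refine ⟨l, fun r' hr' => ?_, ?_⟩
    · exact (Finsupp.mem_supported L l).1 hl (Finsupp.mem_support_iff.2 hr')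
    · rw [← hl', Finsupp.linearCombination_apply]
      exact Finsupp.sum_fintype l (fun i a => a • z i) (fun i => zero_smul L (z i))
  choose l hl hl' using h1
  let U : Matrix I I L := Matrix.of fun r r' => (if r = r' then u r else 0) + l r r'
  have hU : U.det = ∏ r, u r := by
    rw [det_tri b U]
    · refine Finset.prod_congr rfl fun r _ => ?_
      change (if r = r then u r else 0) + l r r = u r
      rw [if_pos rfl]
      have h2 : l r r = 0 := by
        by_contra h0
        exact lt_irrefl _ (hl r r h0)
      rw [h2, add_zero]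
    · intro r r' h0
      by_cases hrr : r = r'
      · exact Or.inl hrr
      · right
        apply hl
        intro h2
        apply h0
        change (if r = r' then u r else 0) + l r r' = 0
        rw [if_neg hrr, h2, add_zero]
  rw [← hU, ← Matrix.det_mul]
  congr 1
  ext r s
  rw [Matrix.of_apply, Matrix.mul_apply]
  have h2 : y r = u r • z r + ∑ r', l r r' • z r' := by
    rw [← hl' r]
    abel
  rw [h2, Pi.add_apply, Pi.smul_apply, Finset.sum_apply]
  have h3 : ∀ r', U r r' * (Matrix.of fun r s => z r (σ s)) r' s =
      (if r = r' then u r * z r' (σ s) else 0) + l r r' * z r' (σ s) := by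
    intro r'
    change ((if r = r' then u r else 0) + l r r') * z r' (σ s) = _
    rw [add_mul, ite_mul, zero_mul]
  rw [Finset.sum_congr rfl fun r' _ => h3 r', Finset.sum_add_distrib, Finset.sum_ite_eq,
    if_pos (Finset.mem_univ _)]
  rfl

/-- The columns of an invertible minor in a block. -/
theorem card_block {V : Type} [AddCommGroup V] [Module L V] [FiniteDimensional L V] {y : I → C → L}
    {σ : I → C} (hdet : (Matrix.of fun r s => y r (σ s)).det ≠ 0) (p : I → Prop) [DecidablePred p]
    (f : V →ₗ[L] ({s // p s} → L)) (hf : ∀ r, (fun s : {s // p s} => y r (σ s)) ∈ LinearMap.range f) :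
    (Finset.univ.filter p).card ≤ Module.finrank L V := by
  have hsurj : LinearMap.range f = ⊤ := by
    rw [eq_top_iff]
    intro t _
    let t' : I → L := fun s => if h : p s then t ⟨s, h⟩ else 0
    have hinv : IsUnit (Matrix.of fun r s => y r (σ s)).det := isUnit_iff_ne_zero.2 hdet
    let c : I → L := Matrix.vecMul t' (Matrix.of fun r s => y r (σ s))⁻¹
    have hc : Matrix.vecMul c (Matrix.of fun r s => y r (σ s)) = t' := by
      rw [Matrix.vecMul_vecMul, Matrix.nonsing_inv_mul _ hinv, Matrix.vecMul_one]
    have h1 : t = ∑ r, c r • (fun s : {s // p s} => y r (σ s)) := by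
      funext s
      have h2 := congrFun hc s
      have h3 : t' s = t s := by
        change (if h : p s then t ⟨s, h⟩ else 0) = t s
        rw [dif_pos s.2]
      rw [← h3, ← h2, Finset.sum_apply]
      rfl
    rw [h1]
    exact Submodule.sum_mem _ fun r _ => Submodule.smul_mem _ _ (hf r)
  have h1 := LinearMap.finrank_range_le f
  rw [hsurj, finrank_top, Module.finrank_fintype_fun_eq_card, Fintype.card_subtype] at h1
  exact h1

end Pool.Agent.N95.RF
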