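import Pool.Agent.N95.RF.Rel

/-!
Several points of a generic complete intersection: the order of the determinant.
-/

set_option autoImplicit false
set_option linter.unusedSectionVars false

open MvPolynomial Module Pool.Agent.TH145.GH FF Pool.Agent.W603.LV Pool.Agent.W603.PV
open Pool.Agent.TH145.GC (Tan dF_sub dF_self der_zero_of_alg)
open Pool.Agent.W602.GT (Divisorial DerReg)

namespace Pool.Agent.N95.RF

section

variable {K L : Type} [Field K] [Field L] [Algebra K L] {n ρ w : ℕ}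

/-- minimal linear forms -/
theorem exists_min (Q : Place K L) {x z : Fin (n + 1) → L} (h : ∃ q, eval z (lf x q) ≠ 0) :
    ∃ q, eval z (lf x q) ≠ 0 ∧ ∀ p, Ge Q (Q.ord (eval z (lf x q))) (eval z (lf x p)) := by
  classical
  obtain ⟨q0, hq0⟩ := h
  obtain ⟨q, hq, hmin⟩ := Finset.exists_min_image
    (Finset.univ.filter fun q : Fin (n + 1) × Fin (n + 1) => eval z (lf x q) ≠ 0)
    (fun q => Q.ord (eval z (lf x q))) ⟨q0, by simpa using hq0⟩
  refine ⟨q, (Finset.mem_filter.1 hq).2, fun p => ?_⟩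
  by_cases hp : eval z (lf x p) = 0
  · exact Or.inl hp
  · exact Or.inr (hmin p (Finset.mem_filter.2 ⟨Finset.mem_univ _, hp⟩))

theorem Ge.div' {Q : Place K L} {a b : ℤ} {f g : L} (hf : Ge Q a f) (hg : g ≠ 0)
    (hb : Q.ord g = b) : Ge Q (a - b) (f / g) := by
  by_cases h0 : f = 0
  · left
    rw [h0, zero_div]
  · right
    have h1 := hf.resolve_left h0
    rw [div_eq_mul_inv, Q.ord_mul h0 (inv_ne_zero hg), Q.ord_inv, hb]
    linarith

/-- sums over pairs -/
theorem sum_pairs (p : Fin ρ → ℤ) : ∑ i, ∑ i' ∈ Finset.Ioi i, (p i + p i') =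
    ∑ i, ((ρ : ℤ) - 1) * p i := by
  classical
  have h1 : ∀ i, ∑ i' ∈ Finset.Ioi i, (p i + p i') =
      ∑ i' : Fin ρ, if i < i' then p i + p i' else 0 := by
    intro i
    rw [← Finset.sum_filter]
    congr 1
    ext i'
    simp
  rw [Finset.sum_congr rfl fun i _ => h1 i]
  have h2 : ∀ i i' : Fin ρ, (if i < i' then p i + p i' else 0) =
      (if i < i' then p i else 0) + (if i < i' then p i' else 0) := by
    intro i i'
    split_ifs
    · rfl
    · rfl
  simp only [h2, Finset.sum_add_distrib]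
  rw [Finset.sum_comm (f := fun i i' : Fin ρ => if i < i' then p i' else 0),
    ← Finset.sum_add_distrib]
  refine Finset.sum_congr rfl fun i _ => ?_
  rw [← Finset.sum_add_distrib]
  have h3 : ∀ i' : Fin ρ, ((if i < i' then p i else 0) + if i' < i then p i else 0) =
      if i' = i then 0 else p i := by
    intro i'
    rcases lt_trichotomy i i' with h | h | h
    · rw [if_pos h, if_neg (not_lt.2 h.le), if_neg (ne_of_gt h), add_zero]
    · subst h
      rw [if_neg (lt_irrefl _), if_pos rfl, add_zero]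
    · rw [if_neg (not_lt.2 h.le), if_pos h, if_neg (ne_of_lt h), zero_add]
  rw [Finset.sum_congr rfl fun i' _ => h3 i']
  have h4 : ∑ i' : Fin ρ, (if i' = i then 0 else p i) = ∑ i' : Fin ρ, (p i - if i' = i then p i else 0) := by
    refine Finset.sum_congr rfl fun i' _ => ?_
    split_ifs
    · rw [sub_self]
    · rw [sub_zero]
  rw [h4, Finset.sum_sub_distrib, Finset.sum_const, Finset.card_univ, Fintype.card_fin,
    Finset.sum_ite_eq', if_pos (Finset.mem_univ _), nsmul_eq_mul]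
  ring

end

section

variable {k0 K L : Type} [Field k0] [Field K] [Field L] [Algebra k0 L] [Algebra K L]
  {n m ρ w : ℕ} {A : Type}

namespace Dat

variable (S : Dat k0 K L n m ρ A)

theorem tri_gp (c : Fin ρ → Fin (n + 1)) {x' : Fin ρ → Fin (n + 1) → L}
    {lam : Fin ρ → L} (hlam : ∀ i, lam i ≠ 0) (hx : ∀ i, S.x i = lam i • x' i)
    (hc : ∀ i, x' i (c i) = 1)
    {q : Fin ρ → Fin ρ → Fin (n + 1) × Fin (n + 1)}
    (hq : ∀ i i', i < i' → eval (x' i) (lf (x' i') (q i i')) ≠ 0) :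
    S.Tri fun a i => gp (S.dg a) x' c q i := by
  refine ⟨fun a i => gp_hom (S.deg a) _ _ _ _, fun a i i' hii => ?_, fun a i => ?_⟩
  · rw [gp_eval, Finset.prod_eq_zero (Finset.mem_Ioi.2 hii), mul_zero]
    rw [hx, ← one_smul L (x' i'), smul_smul, mul_one]
    have := eval_lf_smul (x' i') (x' i') 1 (lam i') (q i i')
    rw [one_smul] at this
    rw [one_smul, this, eval_lf_self, mul_zero]
  · rw [hx, eval_smul_hom (gp_hom (S.deg a) _ _ _ _), gp_eval, hc, one_pow, one_mul]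
    refine mul_ne_zero (pow_ne_zero _ (hlam i)) (Finset.prod_ne_zero_iff.2 fun i' hi' => ?_)
    exact hq i i' (Finset.mem_Ioi.1 hi')

/-- the determinant of the rows for other vertical derivations -/
theorem det_block [Fintype A] {B : Finset (Sx n ρ A)} [DecidableEq (Ir n ρ w A B)]
    {E Dd : Fin w → Derivation K L L}
    {M : Matrix (Fin w) (Fin w) L} (hM : ∀ i f, Dd i f = ∑ j, M i j * E j f)
    (G : A → Fin ρ → MvPolynomial (Fin (n + 1)) L) (σ : Ir n ρ w A B → Fin ρ × Fin (n + 1)) :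
    (Matrix.of fun r s => S.row B (fun l => (Dd l).restrictScalars ℤ) G r (σ s)).det =
      M.det * (Matrix.of fun r s => S.row B (fun l => (E l).restrictScalars ℤ) G r (σ s)).det := by
  classical
  have iB : DecidableEq B := Classical.decEq _
  have iA : DecidableEq (Fin ρ × A) := Classical.decEq _
  let U : Matrix (Ir n ρ w A B) (Ir n ρ w A B) L :=
    Matrix.fromBlocks (Matrix.fromBlocks (Matrix.fromBlocks (1 : Matrix (Fin ρ) (Fin ρ) L) 0 0 M)
      0 0 (1 : Matrix B B L)) 0 0 (1 : Matrix (Fin ρ × A) (Fin ρ × A) L)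
  have hU : U.det = M.det := by
    have h1 := Matrix.det_fromBlocks_zero₂₁ (Matrix.fromBlocks
      (Matrix.fromBlocks (1 : Matrix (Fin ρ) (Fin ρ) L) 0 0 M)
      0 0 (1 : Matrix B B L)) (0 : Matrix ((Fin ρ ⊕ Fin w) ⊕ B) (Fin ρ × A) L)
      (1 : Matrix (Fin ρ × A) (Fin ρ × A) L)
    have h2 := Matrix.det_fromBlocks_zero₂₁ (Matrix.fromBlocks (1 : Matrix (Fin ρ) (Fin ρ) L) 0 0 M)
      (0 : Matrix (Fin ρ ⊕ Fin w) B L) (1 : Matrix B B L)
    have h3 := Matrix.det_fromBlocks_zero₂₁ (1 : Matrix (Fin ρ) (Fin ρ) L)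
      (0 : Matrix (Fin ρ) (Fin w) L) M
    rw [Matrix.det_one, mul_one] at h1 h2
    rw [Matrix.det_one, one_mul] at h3
    exact (Pool.Agent.TH145.GF.det_dec _ _ _).trans (h1.trans (h2.trans h3))
  rw [← hU, ← Matrix.det_mul]
  congr 1
  ext r s
  rw [Matrix.of_apply, Matrix.mul_apply, Fintype.sum_sum_type, Fintype.sum_sum_type,
    Fintype.sum_sum_type]
  rcases r with ((i | l) | b) | p
  · have e1 : ∀ x : Fin ρ, U (Sum.inl (Sum.inl (Sum.inl i))) (Sum.inl (Sum.inl (Sum.inl x))) =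
        if i = x then 1 else 0 := fun x => Matrix.one_apply
    have e2 : ∀ x : Fin w, U (Sum.inl (Sum.inl (Sum.inl i))) (Sum.inl (Sum.inl (Sum.inr x))) = 0 :=
      fun x => rfl
    have e3 : ∀ x : B, U (Sum.inl (Sum.inl (Sum.inl i))) (Sum.inl (Sum.inr x)) = 0 :=
      fun x => rfl
    have e4 : ∀ x : Fin ρ × A, U (Sum.inl (Sum.inl (Sum.inl i))) (Sum.inr x) = 0 :=
      fun x => rfl
    simp only [e1, e2, e3, e4, zero_mul, Finset.sum_const_zero, add_zero, ite_mul, one_mul,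
      Finset.sum_ite_eq, Finset.mem_univ, if_true]
    rfl
  · have e1 : ∀ x : Fin ρ, U (Sum.inl (Sum.inl (Sum.inr l))) (Sum.inl (Sum.inl (Sum.inl x))) = 0 :=
      fun x => rfl
    have e2 : ∀ x : Fin w, U (Sum.inl (Sum.inl (Sum.inr l))) (Sum.inl (Sum.inl (Sum.inr x))) =
      M l x := fun x => rfl
    have e3 : ∀ x : B, U (Sum.inl (Sum.inl (Sum.inr l))) (Sum.inl (Sum.inr x)) = 0 :=
      fun x => rfl
    have e4 : ∀ x : Fin ρ × A, U (Sum.inl (Sum.inl (Sum.inr l))) (Sum.inr x) = 0 :=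
      fun x => rfl
    simp only [e1, e2, e3, e4, zero_mul, Finset.sum_const_zero, add_zero, zero_add]
    exact hM l _
  · have e1 : ∀ x : Fin ρ, U (Sum.inl (Sum.inr b)) (Sum.inl (Sum.inl (Sum.inl x))) = 0 :=
      fun x => rfl
    have e2 : ∀ x : Fin w, U (Sum.inl (Sum.inr b)) (Sum.inl (Sum.inl (Sum.inr x))) = 0 :=
      fun x => rfl
    have e3 : ∀ x : B, U (Sum.inl (Sum.inr b)) (Sum.inl (Sum.inr x)) =
      if b = x then 1 else 0 := fun x => Matrix.one_apply
    have e4 : ∀ x : Fin ρ × A, U (Sum.inl (Sum.inr b)) (Sum.inr x) = 0 :=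
      fun x => rfl
    simp only [e1, e2, e3, e4, zero_mul, Finset.sum_const_zero, add_zero, zero_add, ite_mul,
      one_mul, Finset.sum_ite_eq, Finset.mem_univ, if_true]
    rfl
  · have e1 : ∀ x : Fin ρ, U (Sum.inr p) (Sum.inl (Sum.inl (Sum.inl x))) = 0 :=
      fun x => rfl
    have e2 : ∀ x : Fin w, U (Sum.inr p) (Sum.inl (Sum.inl (Sum.inr x))) = 0 :=
      fun x => rfl
    have e3 : ∀ x : B, U (Sum.inr p) (Sum.inl (Sum.inr x)) = 0 := fun x => rfl
    have e4 : ∀ x : Fin ρ × A, U (Sum.inr p) (Sum.inr x) = if p = x then 1 else 0 :=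
      fun x => Matrix.one_apply
    simp only [e1, e2, e3, e4, zero_mul, Finset.sum_const_zero, add_zero, zero_add, ite_mul,
      one_mul, Finset.sum_ite_eq, Finset.mem_univ, if_true]
    rfl

/-- the orders of the factors -/
theorem fac_ge {lam : Fin ρ → L} (hlam : ∀ i, lam i ≠ 0) {x' : Fin ρ → Fin (n + 1) → L}
    (hx : ∀ i, S.x i = lam i • x' i) (Q : Place K L) {e : Fin ρ → Fin (n + 1)}
    (he : ∀ i, x' i (e i) = 1) {q q' : Fin ρ → Fin ρ → Fin (n + 1) × Fin (n + 1)}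
    (hq' : ∀ i i', i < i' → eval (x' i) (lf (x' i') (q' i i')) ≠ 0 ∧
      ∀ p, Ge Q (Q.ord (eval (x' i) (lf (x' i') (q' i i')))) (eval (x' i) (lf (x' i') p)))
    (a : A) (i : Fin ρ) :
    Ge Q (∑ i' ∈ Finset.Ioi i, (Q.ord (lam i) + Q.ord (lam i')) - S.dg a * Q.ord (lam i))
      (eval (S.x i) (gp (S.dg a) S.x S.c q i) / eval (S.x i) (gp (S.dg a) x' e q' i)) := by
  classical
  have h1 : eval (S.x i) (gp (S.dg a) S.x S.c q i) = ∏ i' ∈ Finset.Ioi i,
      (lam i' * lam i * eval (x' i) (lf (x' i') (q i i'))) := by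
    rw [gp_eval, S.xc, one_pow, one_mul]
    refine Finset.prod_congr rfl fun i' _ => ?_
    rw [hx i, hx i', eval_lf_smul]
  have h2 : eval (S.x i) (gp (S.dg a) x' e q' i) = lam i ^ S.dg a * ∏ i' ∈ Finset.Ioi i,
      eval (x' i) (lf (x' i') (q' i i')) := by
    rw [hx, eval_smul_hom (gp_hom (S.deg a) _ _ _ _), gp_eval, he, one_pow, one_mul]
  have h3 : eval (S.x i) (gp (S.dg a) S.x S.c q i) / eval (S.x i) (gp (S.dg a) x' e q' i) =
      (∏ i' ∈ Finset.Ioi i, (lam i' * lam i * (eval (x' i) (lf (x' i') (q i i')) /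
        eval (x' i) (lf (x' i') (q' i i'))))) / lam i ^ S.dg a := by
    rw [h1, h2]
    have h4 : ∏ i' ∈ Finset.Ioi i, (lam i' * lam i * (eval (x' i) (lf (x' i') (q i i')) /
        eval (x' i) (lf (x' i') (q' i i')))) = (∏ i' ∈ Finset.Ioi i,
        (lam i' * lam i * eval (x' i) (lf (x' i') (q i i')))) /
        ∏ i' ∈ Finset.Ioi i, eval (x' i) (lf (x' i') (q' i i')) := by
      rw [← Finset.prod_div_distrib]
      exact Finset.prod_congr rfl fun i' _ => (mul_div_assoc _ _ _).symm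
    rw [h4, div_div, mul_comm (lam i ^ S.dg a)]
  rw [h3]
  refine Ge.div' ?_ (pow_ne_zero _ (hlam i)) (by rw [Q.ord_pow])
  refine Ge.prod _ _ _ fun i' hi' => ?_
  have hii := Finset.mem_Ioi.1 hi'
  have h4 : Ge Q (Q.ord (lam i') + Q.ord (lam i)) (lam i' * lam i) :=
    Ge.mul (Or.inr le_rfl) (Or.inr le_rfl)
  have h5 := Ge.div' ((hq' i i' hii).2 (q i i')) (hq' i i' hii).1 rfl
  rw [sub_self] at h5
  have h6 := h4.mul h5
  rw [add_zero, add_comm (Q.ord (lam i'))] at h6
  exact h6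

end Dat

end

end Pool.Agent.N95.RF
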