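import Pool.Agent.N95.RF.Est
import Pool.Agent.W619.PQ.Log

/-!
Several points of a generic complete intersection: the order of the determinant at a divisorial
place.
-/

set_option autoImplicit false
set_option linter.unusedSectionVars false

open MvPolynomial Module Pool.Agent.TH145.GH FF Pool.Agent.W603.LV Pool.Agent.W603.PV
open Pool.Agent.TH145.GC (Tan dF_sub dF_self der_zero_of_alg)
open Pool.Agent.W602.GT (Divisorial DerReg)

namespace Pool.Agent.N95.RF

section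

variable {k0 K L : Type} [Field k0] [Field K] [Field L] [Algebra k0 L] [Algebra K L]
  {n m ρ w : ℕ} {A : Type}

namespace Dat

variable (S : Dat k0 K L n m ρ A)

/-- regular entries -/
theorem loc_reg {Q : Place K L} {x' : Fin ρ → Fin (n + 1) → L} (hx' : ∀ i l, Ge Q 0 (x' i l))
    {Dd : Fin w → Derivation K L L} (hDd : ∀ i, DerReg Q (Dd i))
    {R : A → MvPolynomial (Fin (n + 1)) L → Derivation ℤ L L}
    (hR : ∀ a g, RegP Q g → ∀ f, Ge Q 0 f → Ge Q 0 (R a g f)) (e : Fin ρ → Fin (n + 1))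
    (q' : Fin ρ → Fin ρ → Fin (n + 1) × Fin (n + 1)) (B : Finset (Sx n ρ A))
    (r : Ir n ρ w A B) (p : Fin ρ × Fin (n + 1)) :
    Ge Q 0 (loc B x' Dd R (fun a i => gp (S.dg a) x' e q' i) r p) := by
  rcases r with ((i | l) | s) | p'
  · change Ge Q 0 (if p.1 = i then x' i p.2 else 0)
    split_ifs
    · exact hx' _ _
    · exact Ge.zero
  · exact hDd l _ (hx' _ _)
  · exact hR _ _ ((RegP.mono _).mul (RegP.prod _ _ fun i' _ => RegP.lf (hx' i') _)) _ (hx' _ _)
  · exact hR _ _ (gp_reg hx' _ _ _ _) _ (hx' _ _)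

/-- **The order of the determinant.** -/
theorem est [CharZero K] [Fintype A] (hw : 0 < w) (htr : Algebra.trdeg K L = w) {t : Fin w → L}
    (ht : IsTranscendenceBasis K t) {E : Fin w → Derivation K L L}
    (hEt : ∀ i j, E i (t j) = if i = j then 1 else 0)
    {q : Fin ρ → Fin ρ → Fin (n + 1) × Fin (n + 1)}
    (hq : ∀ i i', i < i' → eval (S.x i) (lf (S.x i') (q i i')) ≠ 0)
    {B : Finset (Sx n ρ A)} [DecidableEq (Ir n ρ w A B)]
    (hB : S.Good B (fun l => (E l).restrictScalars ℤ) fun a i => gp (S.dg a) S.x S.c q i)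
    (σ : Ir n ρ w A B → Fin ρ × Fin (n + 1)) {Q : Place K L} (hQ : Divisorial w Q)
    {Dd : Fin w → Derivation K L L} (hDd : ∀ i, DerReg Q (Dd i)) :
    Ge Q (∑ i, (((Finset.univ.filter fun s => (σ s).1 = i).card : ℤ) + B.card +
        Fintype.card A * ((ρ : ℤ) - 1) - ∑ a, (S.dg a : ℤ)) * pord Q (S.x i))
      ((Matrix.of fun i j => Dd i (t j)).det * (Matrix.of fun r s =>
        S.row B (fun l => (E l).restrictScalars ℤ) (fun a i => gp (S.dg a) S.x S.c q i) r
          (σ s)).det) := by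
  classical
  obtain ⟨M, hMd⟩ : ∃ M : Matrix (Fin w) (Fin w) L, M = Matrix.of fun i j => Dd i (t j) := ⟨_, rfl⟩
  rw [← hMd]
  by_cases hM0 : M.det = 0
  · rw [hM0, zero_mul]
    exact Ge.zero
  have hDdE : ∀ i f, Dd i f = ∑ j, M i j * E j f := fun i f => by
    rw [Pool.Agent.TH145.GF.der_comb ht hEt (Dd i) f, hMd]
    rfl
  rw [← det_block S hDdE]
  have hMu : IsUnit M.det := isUnit_iff_ne_zero.2 hM0
  have hfull : ∀ δ : Derivation K L L, ∃ c : Fin w → L, ∀ f, δ f = ∑ l, c l * Dd l f := by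
    intro δ
    refine ⟨Matrix.vecMul (fun j => δ (t j)) M⁻¹, fun f => ?_⟩
    have h1 : (fun j => Dd j f) = M.mulVec fun j => E j f := by
      funext j
      rw [hDdE]
      rfl
    have h2 : ∑ l, Matrix.vecMul (fun j => δ (t j)) M⁻¹ l * Dd l f =
        Matrix.vecMul (fun j => δ (t j)) M⁻¹ ⬝ᵥ (fun j => Dd j f) := rfl
    rw [h2, h1, Matrix.dotProduct_mulVec, Matrix.vecMul_vecMul, Matrix.nonsing_inv_mul _ hMu,
      Matrix.vecMul_one, Pool.Agent.TH145.GF.der_comb ht hEt δ f]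
    rfl
  choose lam x' hlam hlamP hxx hx' e he using fun i => exists_scaled Q (S.x_ne i)
  have hq0 : ∀ i i', ∃ q', i < i' → eval (x' i) (lf (x' i') q') ≠ 0 ∧
      ∀ p, Ge Q (Q.ord (eval (x' i) (lf (x' i') q'))) (eval (x' i) (lf (x' i') p)) := by
    intro i i'
    by_cases hii : i < i'
    · obtain ⟨q', hq', hq''⟩ := exists_min Q (x := x' i') (z := x' i) ⟨q i i', fun h0 => by
        apply hq i i' hii
        rw [hxx i, hxx i', eval_lf_smul, h0, mul_zero]⟩
      exact ⟨q', fun _ => ⟨hq', hq''⟩⟩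
    · exact ⟨(0, 0), fun h => absurd h hii⟩
  choose q' hq' using hq0
  obtain ⟨R, hR1, hR2⟩ := S.exists_reg hw htr hQ
  have hG : S.Tri fun a i => gp (S.dg a) S.x S.c q i :=
    S.tri_gp S.c (x' := S.x) (lam := fun _ => 1) (fun _ => one_ne_zero)
      (fun i => (one_smul _ _).symm) S.xc hq
  have hG' : S.Tri fun a i => gp (S.dg a) x' e q' i :=
    S.tri_gp e hlam hxx he fun i i' hii => (hq' i i' hii).1
  have h1 := det_rel (lev B) (S.rel hlam hxx hfull hR1 hG hG' hB) σ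
  have h2 : (Matrix.of fun r s => scl lam (loc B x' Dd R (fun a i => gp (S.dg a) x' e q' i) r)
      (σ s)).det = (∏ s, lam (σ s).1) * (Matrix.of fun r s =>
        loc B x' Dd R (fun a i => gp (S.dg a) x' e q' i) r (σ s)).det := by
    rw [← Matrix.det_mul_row]
    rfl
  rw [h1, h2]
  have h3 : Ge Q 0 (Matrix.of fun r s =>
        loc B x' Dd R (fun a i => gp (S.dg a) x' e q' i) r (σ s)).det :=
    Pool.Agent.W619.PQ.ge_det Q _ fun r s => S.loc_reg hx' hDd hR2 e q' B r (σ s)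
  have h4 : Ge Q (∑ s, Q.ord (lam (σ s).1)) (∏ s, lam (σ s).1) :=
    Ge.prod _ _ _ fun s _ => Or.inr le_rfl
  let β : Ir n ρ w A B → ℤ := Sum.elim (Sum.elim (Sum.elim (fun _ => 0) fun _ => 0)
    fun _ => ∑ i, Q.ord (lam i)) fun p =>
      ∑ i' ∈ Finset.Ioi p.1, (Q.ord (lam p.1) + Q.ord (lam i')) - S.dg p.2 * Q.ord (lam p.1)
  have h5 : Ge Q (∑ r, β r) (∏ r : Ir n ρ w A B, S.fac B lam (fun a i => gp (S.dg a) S.x S.c q i)
      (fun a i => gp (S.dg a) x' e q' i) r) := by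
    refine Ge.prod _ _ _ fun r _ => ?_
    rcases r with ((i | l) | s) | p
    · exact Ge.one
    · exact Ge.one
    · change Ge Q (∑ i, Q.ord (lam i)) (∏ i, lam i)
      exact Ge.prod _ _ _ fun i _ => Or.inr le_rfl
    · exact S.fac_ge hlam hxx Q he hq' p.2 p.1
  have h6 := h5.mul (h4.mul h3)
  refine h6.mono (le_of_eq ?_)
  have h7 : ∑ r, β r = B.card * ∑ i, Q.ord (lam i) + ∑ i, ∑ a,
      (∑ i' ∈ Finset.Ioi i, (Q.ord (lam i) + Q.ord (lam i')) - S.dg a * Q.ord (lam i)) := by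
    rw [Fintype.sum_sum_type, Fintype.sum_sum_type, Fintype.sum_sum_type, Fintype.sum_prod_type]
    have e1 : ∑ x : Fin ρ, β (Sum.inl (Sum.inl (Sum.inl x))) = 0 :=
      Finset.sum_eq_zero fun _ _ => rfl
    have e2 : ∑ x : Fin w, β (Sum.inl (Sum.inl (Sum.inr x))) = 0 :=
      Finset.sum_eq_zero fun _ _ => rfl
    have e3 : ∑ x : B, β (Sum.inl (Sum.inr x)) = B.card * ∑ i, Q.ord (lam i) := by
      have e4 : ∀ x : B, β (Sum.inl (Sum.inr x)) = ∑ i, Q.ord (lam i) := fun _ => rfl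
      rw [Finset.sum_congr rfl fun x _ => e4 x, Finset.sum_const, Finset.card_univ,
        Fintype.card_coe, nsmul_eq_mul]
    rw [e1, e2, e3]
    rw [zero_add, zero_add]
    rfl
  have h8 : ∑ s, Q.ord (lam (σ s).1) =
      ∑ i, ((Finset.univ.filter fun s => (σ s).1 = i).card : ℤ) * Q.ord (lam i) := by
    rw [← Finset.sum_fiberwise Finset.univ (fun s => (σ s).1) fun s => Q.ord (lam (σ s).1)]
    refine Finset.sum_congr rfl fun i _ => ?_
    rw [Finset.sum_congr rfl fun s hs => by rw [(Finset.mem_filter.1 hs).2], Finset.sum_const,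
      nsmul_eq_mul]
  have h9 : ∑ i, ∑ a, (∑ i' ∈ Finset.Ioi i, (Q.ord (lam i) + Q.ord (lam i')) -
      S.dg a * Q.ord (lam i)) = ∑ i, (Fintype.card A * ((ρ : ℤ) - 1) - ∑ a, (S.dg a : ℤ)) *
        Q.ord (lam i) := by
    have e1 : ∀ i, ∑ a, (∑ i' ∈ Finset.Ioi i, (Q.ord (lam i) + Q.ord (lam i')) -
        S.dg a * Q.ord (lam i)) = Fintype.card A * (∑ i' ∈ Finset.Ioi i,
          (Q.ord (lam i) + Q.ord (lam i'))) - (∑ a, (S.dg a : ℤ)) * Q.ord (lam i) := by
      intro i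
      rw [Finset.sum_sub_distrib, Finset.sum_const, Finset.card_univ, nsmul_eq_mul,
        Finset.sum_mul]
    rw [Finset.sum_congr rfl fun i _ => e1 i, Finset.sum_sub_distrib, ← Finset.mul_sum,
      sum_pairs fun i => Q.ord (lam i), Finset.mul_sum, ← Finset.sum_sub_distrib]
    refine Finset.sum_congr rfl fun i _ => ?_
    ring
  rw [h7, h8, h9, Finset.mul_sum, add_zero, ← Finset.sum_add_distrib, ← Finset.sum_add_distrib]
  refine Finset.sum_congr rfl fun i _ => ?_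
  rw [hlamP]
  ring

end Dat

end

end Pool.Agent.N95.RF
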