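import Pool.Agent.N95.RF.Est2
import Pool.Agent.N95.PR.Form

/-!
Several points of a generic complete intersection: the canonical form.
-/

set_option autoImplicit false
set_option linter.unusedSectionVars false
set_option linter.overlappingInstances false

open MvPolynomial Module Pool.Agent.TH145.GH FF Pool.Agent.W603.LV Pool.Agent.W603.PV
open Pool.Agent.W602.GT (Divisorial DerReg IsPluri RegAt)
open Pool.Agent.N111.GI

namespace Pool.Agent.N95.RF

section

variable {k0 K L : Type} [Field k0] [Field K] [Field L] [Algebra k0 L] [Algebra K L]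
  {n m ρ w : ℕ} {A : Type}

namespace Dat

variable (S : Dat k0 K L n m ρ A)

/-- **The canonical form of several points.** -/
theorem form [CharZero K] [IsAlgClosed K] [Fintype A] [Algebra k0 K] [IsScalarTower k0 K L]
    (hw : 0 < w)
    (htr : Algebra.trdeg K L = w)
    (halg : ∀ z : L, IsAlgebraic (IntermediateField.adjoin K
      (Set.range fun q : Fin ρ × Fin (n + 1) => S.x q.1 q.2)) z) {ex : ℕ}
    (hd : (ρ + 1) * m + 1 + ex ≤ ∑ a, (S.dg a + 1) + w) :
    ∃ Ω : (Fin w → Derivation K L L) → L, IsPluri 1 Ω ∧ (∃ E, Ω E ≠ 0) ∧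
      ∀ (f : Fin ρ → Fin ex → Fin (n + 1)) (P : Place K L), Divisorial w P →
        RegAt P (fun D => (∏ i, ∏ l, S.x i (f i l)) * Ω D) := by
  classical
  have hL : CharZero L := charZero_of_injective_algebraMap (algebraMap K L).injective
  obtain ⟨t, E, ht, hEt⟩ := Pool.Agent.Y172.exists_crd htr
  have hq0 : ∀ i i' : Fin ρ, ∃ q, i < i' → eval (S.x i) (lf (S.x i') q) ≠ 0 := by
    intro i i'
    by_cases hii : i < i'
    · obtain ⟨q, hq⟩ := S.dist i' i (ne_of_gt hii)
      exact ⟨q, fun _ => hq⟩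
    · exact ⟨(0, 0), fun h => absurd h hii⟩
  choose q hq using hq0
  have hG : S.Tri fun a i => gp (S.dg a) S.x S.c q i :=
    S.tri_gp S.c (x' := S.x) (lam := fun _ => 1) (fun _ => one_ne_zero)
      (fun i => (one_smul _ _).symm) S.xc hq
  obtain ⟨B, hB⟩ := S.exists_rows hEt halg hG
  have iD : DecidableEq (Ir n ρ w A B) := Classical.decEq _
  obtain ⟨σ, hσ⟩ := Pool.Agent.TH145.GC.exists_minor _ hB.ind
  obtain ⟨Δ, hΔ⟩ : ∃ Δ, Δ = (Matrix.of fun r s => S.row B (fun l => (E l).restrictScalars ℤ)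
    (fun a i => gp (S.dg a) S.x S.c q i) r (σ s)).det := ⟨_, rfl⟩
  rw [← hΔ] at hσ
  refine ⟨_, Pool.Agent.N95.PR.det_pluri t Δ, ⟨E, ?_⟩, fun f P hP D hD => ?_⟩
  · have h1 : (Matrix.of fun i j => E i (t j) : Matrix (Fin w) (Fin w) L) = 1 := by
      ext i j
      rw [Matrix.of_apply, hEt, Matrix.one_apply]
    rw [h1, Matrix.det_one, one_mul]
    exact hσ
  · have h1 := S.est hw htr ht hEt hq hB σ hP hD
    rw [← hΔ] at h1
    have h2 : Ge P (∑ i, (ex : ℤ) * pord P (S.x i)) (∏ i, ∏ l, S.x i (f i l)) := by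
      refine Ge.prod _ _ _ fun i _ => ?_
      have h3 := Ge.prod (P := P) Finset.univ (fun l => S.x i (f i l)) (fun _ => pord P (S.x i))
        fun l _ => ge_pord P _ _
      rwa [Finset.sum_const, Finset.card_univ, Fintype.card_fin, nsmul_eq_mul] at h3
    have h3 := h2.mul h1
    refine h3.mono ?_
    rw [← Finset.sum_add_distrib]
    refine Finset.sum_nonneg fun i _ => ?_
    rw [← add_mul]
    have hk0 : ∀ l (r : k0), ((E l).restrictScalars ℤ) (algebraMap k0 L r) = 0 := by
      intro l r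
      rw [IsScalarTower.algebraMap_apply k0 K L]
      exact (E l).map_algebraMap _
    have h4 : pord P (S.x i) ≤ 0 := by
      have h5 := pord_le P (f := S.x i) (j := S.c i) (by rw [S.xc]; exact one_ne_zero)
      rwa [S.xc, P.ord_one] at h5
    have h5 := S.block_le (E := fun l => (E l).restrictScalars ℤ) hk0 _ (by rw [← hΔ]; exact hσ) i
    have h6 := S.rows_le (E := fun l => (E l).restrictScalars ℤ) hk0 _ (by rw [← hΔ]; exact hσ)
    have h7 : ∑ a, (S.dg a + 1) = ∑ a, S.dg a + Fintype.card A := by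
      rw [Finset.sum_add_distrib, Finset.sum_const, smul_eq_mul, mul_one, Finset.card_univ]
    rw [h7] at hd
    refine mul_nonneg_of_nonpos_of_nonpos ?_ h4
    have h5' : ((Finset.univ.filter fun s => (σ s).1 = i).card : ℤ) ≤ m + 1 := by exact_mod_cast h5
    have h6' : (ρ : ℤ) + w + B.card + ρ * Fintype.card A ≤ ρ * (m + 1) := by exact_mod_cast h6
    have h8 : ((ρ : ℤ) + 1) * m + 1 + ex ≤ ∑ a, (S.dg a : ℤ) + Fintype.card A + w := by
      exact_mod_cast hd
    nlinarith

end Dat

end

end Pool.Agent.N95.RF
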