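import Pool.Agent.TH145.GH.Span

/-!
The forms which vanish at finitely many distinct points of a projective space are generated, in
degrees at least the number of the points, by products of linear forms.
-/

set_option autoImplicit false

open MvPolynomial

namespace Pool.Agent.N95.RF

variable {L : Type} [Field L] {n : ℕ}

/-- the linear forms which vanish at a point -/
noncomputable def lf (x : Fin (n + 1) → L) (q : Fin (n + 1) × Fin (n + 1)) :
    MvPolynomial (Fin (n + 1)) L := C (x q.1) * X q.2 - C (x q.2) * X q.1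

theorem eval_lf (x z : Fin (n + 1) → L) (q : Fin (n + 1) × Fin (n + 1)) :
    eval z (lf x q) = x q.1 * z q.2 - x q.2 * z q.1 := by
  simp [lf]

theorem eval_lf_self (x : Fin (n + 1) → L) (q : Fin (n + 1) × Fin (n + 1)) :
    eval x (lf x q) = 0 := by
  rw [eval_lf]
  ring

/-- the forms of degree `e` -/
noncomputable def Sd (L : Type) [Field L] (n e : ℕ) : Submodule L (MvPolynomial (Fin (n + 1)) L) :=
  Submodule.span L {g | ∃ I : Fin (n + 1) →₀ ℕ, I.degree = e ∧ g = monomial I 1}

/-- the linear forms which vanish at a point -/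
noncomputable def Lam (x : Fin (n + 1) → L) : Submodule L (MvPolynomial (Fin (n + 1)) L) :=
  Submodule.span L (Set.range (lf x))

theorem mem_Sd {g : MvPolynomial (Fin (n + 1)) L} {e : ℕ} (hg : g.IsHomogeneous e) :
    g ∈ Sd L n e := by
  rw [g.as_sum]
  refine Submodule.sum_mem _ fun I hI => ?_
  have h1 : monomial I (g.coeff I) = (g.coeff I) • (monomial I 1 : MvPolynomial (Fin (n + 1)) L) := by
    rw [smul_monomial, smul_eq_mul, mul_one]
  rw [h1]
  refine Submodule.smul_mem _ _ (Submodule.subset_span ⟨I, ?_, rfl⟩)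
  exact Pool.Agent.TH145.GH.deg_of_mem hg hI

theorem Sd_zero : Sd L n 0 ≤ Submodule.span L {1} := by
  unfold Sd
  rw [Submodule.span_le]
  rintro _ ⟨I, hI, rfl⟩
  have h1 : I = 0 := (Finsupp.degree_eq_zero_iff I).1 hI
  rw [h1]
  exact Submodule.subset_span rfl

theorem Sd_succ (e : ℕ) : Sd L n (e + 1) ≤ Sd L n e * Sd L n 1 := by
  unfold Sd
  rw [Submodule.span_le, Submodule.span_mul_span]
  rintro _ ⟨I, hI, rfl⟩
  obtain ⟨k, hk⟩ : ∃ k, I k ≠ 0 := by
    by_contra hcon
    push Not at hcon
    have h1 : I = 0 := Finsupp.ext hcon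
    rw [h1, map_zero] at hI
    omega
  have h2 : I - Finsupp.single k 1 + Finsupp.single k 1 = I := by
    refine tsub_add_cancel_of_le ?_
    rw [Finsupp.single_le_iff]
    omega
  refine Submodule.subset_span (Set.mem_mul.2 ⟨monomial (I - Finsupp.single k 1) 1, ⟨_, ?_, rfl⟩,
    monomial (Finsupp.single k 1) 1, ⟨_, ?_, rfl⟩, ?_⟩)
  · have h3 := congrArg Finsupp.degree h2
    rw [map_add, Finsupp.degree_single, hI] at h3
    omega
  · rw [Finsupp.degree_single]
  · rw [monomial_mul, h2, one_mul]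

theorem X_pow_mem (c : Fin (n + 1)) (e : ℕ) : (X c ^ e : MvPolynomial (Fin (n + 1)) L) ∈ Sd L n e := by
  rw [X_pow_eq_monomial]
  exact Submodule.subset_span ⟨_, Finsupp.degree_single _ _, rfl⟩

theorem Sd_mul (e e' : ℕ) : Sd L n e * Sd L n e' ≤ Sd L n (e + e') := by
  unfold Sd
  rw [Submodule.span_mul_span, Submodule.span_le]
  rintro _ ⟨_, ⟨I, hI, rfl⟩, _, ⟨J, hJ, rfl⟩, rfl⟩
  refine Submodule.subset_span ⟨I + J, by rw [map_add, hI, hJ], ?_⟩
  change monomial I 1 * monomial J 1 = _
  rw [monomial_mul, one_mul]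

theorem Sd_one : Sd L n 1 ≤ Submodule.span L (Set.range fun k => (X k : MvPolynomial (Fin (n + 1)) L)) := by
  unfold Sd
  rw [Submodule.span_le]
  rintro _ ⟨I, hI, rfl⟩
  obtain ⟨k, hk⟩ : ∃ k, I k ≠ 0 := by
    by_contra hcon
    push Not at hcon
    have h1 : I = 0 := Finsupp.ext hcon
    rw [h1, map_zero] at hI
    omega
  have h2 : I - Finsupp.single k 1 + Finsupp.single k 1 = I := by
    refine tsub_add_cancel_of_le ?_
    rw [Finsupp.single_le_iff]
    omega
  have h3 : I - Finsupp.single k 1 = 0 := by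
    rw [← Finsupp.degree_eq_zero_iff]
    have h3 := congrArg Finsupp.degree h2
    rw [map_add, Finsupp.degree_single, hI] at h3
    omega
  rw [h3, zero_add] at h2
  rw [← h2]
  exact Submodule.subset_span ⟨k, rfl⟩

/-- linear forms which vanish at a point -/
theorem mem_Lam {x : Fin (n + 1) → L} {c : Fin (n + 1)} (hc : x c ≠ 0)
    {g : MvPolynomial (Fin (n + 1)) L}
    (hg : g ∈ Sd L n 1) (h : eval x g = 0) : g ∈ Lam x := by
  obtain ⟨a, rfl⟩ := (Submodule.mem_span_range_iff_exists_fun L).1 (Sd_one hg)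
  have h1 : ∑ k, a k * x k = 0 := by
    rw [← h, map_sum]
    refine Finset.sum_congr rfl fun k _ => ?_
    rw [smul_eval, eval_X]
  have h2 : (x c)⁻¹ • ∑ k, a k • lf x (c, k) = ∑ k, a k • X k := by
    have h3 : ∑ k, a k • lf x (c, k) = x c • ∑ k, a k • X k - (∑ k, a k * x k) • X c := by
      rw [Finset.smul_sum, Finset.sum_smul, ← Finset.sum_sub_distrib]
      refine Finset.sum_congr rfl fun k _ => ?_
      simp only [lf, smul_eq_C_mul, C_mul]
      ring
    rw [h3, h1, zero_smul, sub_zero, smul_smul, inv_mul_cancel₀ hc, one_smul]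
  rw [← h2]
  exact Submodule.smul_mem _ _ (Submodule.sum_mem _ fun k _ =>
    Submodule.smul_mem _ _ (Submodule.subset_span ⟨_, rfl⟩))

theorem Lam_le (x : Fin (n + 1) → L) : Lam x ≤ Sd L n 1 := by
  unfold Lam
  rw [Submodule.span_le]
  rintro _ ⟨q, rfl⟩
  refine mem_Sd ?_
  unfold lf
  refine IsHomogeneous.sub ?_ ?_
  · have := (isHomogeneous_C (Fin (n + 1)) (x q.1)).mul (isHomogeneous_X L q.2)
    rwa [zero_add] at this
  · have := (isHomogeneous_C (Fin (n + 1)) (x q.2)).mul (isHomogeneous_X L q.1)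
    rwa [zero_add] at this

theorem eval_Lam {x : Fin (n + 1) → L} {g : MvPolynomial (Fin (n + 1)) L} (hg : g ∈ Lam x) :
    eval x g = 0 := by
  unfold Lam at hg
  induction hg using Submodule.span_induction with
  | mem g hg =>
    obtain ⟨q, rfl⟩ := hg
    exact eval_lf_self x q
  | zero => exact map_zero _
  | add a b _ _ ha hb => rw [map_add, ha, hb, add_zero]
  | smul c a _ ha => rw [smul_eval, ha, mul_zero]

/-- one point -/
theorem Sd_le_one {x : Fin (n + 1) → L} {c : Fin (n + 1)} (hc : x c ≠ 0) (e : ℕ) :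
    Sd L n (e + 1) ≤ Sd L n e * Lam x ⊔ Submodule.span L {X c ^ (e + 1)} := by
  have h1 : Sd L n 1 ≤ Lam x ⊔ Submodule.span L {X c} := by
    intro g hg
    have h2 : g - (eval x g / x c) • X c ∈ Lam x := by
      refine mem_Lam hc (Submodule.sub_mem _ hg (Submodule.smul_mem _ _ ?_)) ?_
      · have := X_pow_mem (L := L) c 1
        rwa [pow_one] at this
      · rw [map_sub, smul_eval, eval_X, div_mul_cancel₀ _ hc, sub_self]
    have h3 : g = (g - (eval x g / x c) • X c) + (eval x g / x c) • X c := by ring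
    rw [h3]
    exact Submodule.add_mem_sup h2 (Submodule.smul_mem _ _ (Submodule.subset_span rfl))
  induction e with
  | zero =>
    refine h1.trans (sup_le_sup ?_ ?_)
    · intro g hg
      have h2 := Submodule.mul_mem_mul (M := Sd L n 0) (N := Lam x) (m := 1) (n := g) (by
        have := X_pow_mem (L := L) c 0
        rwa [pow_zero] at this) hg
      rwa [one_mul] at h2
    · rw [zero_add, pow_one]
  | succ e ih =>
    refine (Sd_succ (e + 1)).trans ((mul_le_mul' le_rfl h1).trans ?_)
    rw [Submodule.mul_sup]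
    refine sup_le le_sup_left ?_
    refine (mul_le_mul' ih le_rfl).trans ?_
    rw [Submodule.sup_mul]
    refine sup_le ?_ ?_
    · refine le_sup_of_le_left ?_
      rw [mul_assoc, mul_comm (Lam x), ← mul_assoc]
      refine mul_le_mul' ?_ le_rfl
      refine le_trans ?_ (Sd_mul e 1)
      refine mul_le_mul' le_rfl ?_
      rw [Submodule.span_le, Set.singleton_subset_iff]
      have := X_pow_mem (L := L) c 1
      rwa [pow_one] at this
    · refine le_sup_of_le_right ?_
      rw [Submodule.span_mul_span, Set.singleton_mul_singleton, ← pow_succ]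

/-- two points -/
theorem X_Lam_le {x z : Fin (n + 1) → L} {c : Fin (n + 1)} (hc : x c ≠ 0)
    {g0 : MvPolynomial (Fin (n + 1)) L} (hg0 : g0 ∈ Lam z) (h0 : eval x g0 ≠ 0)
    (l : Fin (n + 1)) :
    Submodule.span L {X l} * Lam z ≤ Lam x * Lam z ⊔ Submodule.span L {X l * g0} := by
  rw [Submodule.mul_le]
  intro a ha g hg
  obtain ⟨b, rfl⟩ := Submodule.mem_span_singleton.1 ha
  obtain ⟨g', hg'⟩ : ∃ g', g' = g - (eval x g / eval x g0) • g0 := ⟨_, rfl⟩
  have h1 : g' ∈ Lam z := by
    rw [hg']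
    exact Submodule.sub_mem _ hg (Submodule.smul_mem _ _ hg0)
  have h2 : g' ∈ Lam x := by
    refine mem_Lam hc (Lam_le z h1) ?_
    rw [hg', map_sub, smul_eval, div_mul_cancel₀ _ h0, sub_self]
  obtain ⟨v, hv⟩ : ∃ v : MvPolynomial (Fin (n + 1)) L, v = X l - (x l / eval x g0) • g0 := ⟨_, rfl⟩
  have h3 : v ∈ Lam x := by
    refine mem_Lam hc ?_ ?_
    · rw [hv]
      refine Submodule.sub_mem _ ?_ (Submodule.smul_mem _ _ (Lam_le z hg0))
      have := X_pow_mem (L := L) l 1
      rwa [pow_one] at this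
    · rw [hv, map_sub, smul_eval, eval_X, div_mul_cancel₀ _ h0, sub_self]
  have h4 : b • X l * g = b • (v * g') + (b * (x l / eval x g0)) • (g' * g0) +
      (b * (eval x g / eval x g0)) • (X l * g0) := by
    have h5 : g = g' + (eval x g / eval x g0) • g0 := by rw [hg']; ring
    have h6 : (X l : MvPolynomial (Fin (n + 1)) L) = v + (x l / eval x g0) • g0 := by
      rw [hv]; ring
    conv_lhs => rw [h5]
    rw [mul_add]
    conv_lhs => rw [h6]
    conv_rhs => rw [h6]
    simp only [smul_eq_C_mul, C_mul]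
    ring
  rw [h4]
  refine Submodule.add_mem_sup (Submodule.add_mem _ (Submodule.smul_mem _ _
    (Submodule.mul_mem_mul h3 h1)) (Submodule.smul_mem _ _ (Submodule.mul_mem_mul h2 hg0)))
    (Submodule.smul_mem _ _ (Submodule.subset_span rfl))

end Pool.Agent.N95.RF
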