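import Pool.Agent.N95.RF.Gen

/-!
The forms which vanish at finitely many distinct points: the products of linear forms.
-/

set_option autoImplicit false

open MvPolynomial

namespace Pool.Agent.N95.RF

variable {L : Type} [Field L] {n : ℕ} {ι : Type} [DecidableEq ι]

theorem prod_mem (x : ι → Fin (n + 1) → L) (s : Finset ι) {g : ι → MvPolynomial (Fin (n + 1)) L}
    (hg : ∀ i ∈ s, g i ∈ Lam (x i)) : ∏ i ∈ s, g i ∈ ∏ i ∈ s, Lam (x i) := by
  induction s using Finset.induction_on with
  | empty =>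
    rw [Finset.prod_empty, Finset.prod_empty]
    exact Submodule.one_le.1 le_rfl
  | insert q s hq ih =>
    rw [Finset.prod_insert hq, Finset.prod_insert hq]
    exact Submodule.mul_mem_mul (hg q (Finset.mem_insert_self _ _))
      (ih fun i hi => hg i (Finset.mem_insert_of_mem hi))

theorem prod_Lam_le (x : ι → Fin (n + 1) → L) {z : Fin (n + 1) → L} {c : Fin (n + 1)} (hc : z c ≠ 0)
    (s : Finset ι) {g : ι → MvPolynomial (Fin (n + 1)) L} (hg : ∀ i ∈ s, g i ∈ Lam (x i))
    (h0 : ∀ i ∈ s, eval z (g i) ≠ 0) (l : Fin (n + 1)) :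
    Submodule.span L {X l} * ∏ i ∈ s, Lam (x i) ≤
      (Lam z * ∏ i ∈ s, Lam (x i)) ⊔ Submodule.span L {X l * ∏ i ∈ s, g i} := by
  induction s using Finset.induction_on with
  | empty =>
    simp only [Finset.prod_empty, mul_one]
    exact le_sup_right
  | insert q s hq ih =>
    have ih' := ih (fun i hi => hg i (Finset.mem_insert_of_mem hi))
      (fun i hi => h0 i (Finset.mem_insert_of_mem hi))
    have h1 := X_Lam_le hc (hg q (Finset.mem_insert_self _ _)) (h0 q (Finset.mem_insert_self _ _)) l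
    have h2 : Submodule.span L {∏ i ∈ s, g i} ≤ ∏ i ∈ s, Lam (x i) := by
      rw [Submodule.span_le, Set.singleton_subset_iff]
      exact prod_mem x s fun i hi => hg i (Finset.mem_insert_of_mem hi)
    rw [Finset.prod_insert hq, Finset.prod_insert hq]
    have e1 : Submodule.span L {X l} * (Lam (x q) * ∏ i ∈ s, Lam (x i)) =
        Lam (x q) * (Submodule.span L {X l} * ∏ i ∈ s, Lam (x i)) := mul_left_comm _ _ _
    rw [e1]
    refine (mul_le_mul' le_rfl ih').trans ?_
    rw [Submodule.mul_sup]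
    refine sup_le (le_sup_of_le_left ?_) ?_
    · rw [mul_left_comm]
    · have e2 : Lam (x q) * Submodule.span L {X l * ∏ i ∈ s, g i} =
          (Submodule.span L {X l} * Lam (x q)) * Submodule.span L {∏ i ∈ s, g i} := by
        rw [mul_comm (Submodule.span L {(X l : MvPolynomial (Fin (n + 1)) L)}), mul_assoc,
          Submodule.span_mul_span, Set.singleton_mul_singleton]
      rw [e2]
      refine (mul_le_mul' h1 le_rfl).trans ?_
      rw [Submodule.sup_mul]
      refine sup_le (le_sup_of_le_left ?_) (le_sup_of_le_right ?_)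
      · rw [mul_assoc]
        exact mul_le_mul' le_rfl (mul_le_mul' le_rfl h2)
      · rw [Submodule.span_mul_span, Set.singleton_mul_singleton, mul_assoc]

/-- **Forms, modulo the forms which vanish at one more point.** -/
theorem step_le (x : ι → Fin (n + 1) → L) {z : Fin (n + 1) → L} {c : Fin (n + 1)} (hc : z c ≠ 0)
    (s : Finset ι) {g : ι → MvPolynomial (Fin (n + 1)) L} (hg : ∀ i ∈ s, g i ∈ Lam (x i))
    (h0 : ∀ i ∈ s, eval z (g i) ≠ 0) (e : ℕ) :
    Sd L n (e + 1) * ∏ i ∈ s, Lam (x i) ≤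
      (Sd L n e * (Lam z * ∏ i ∈ s, Lam (x i))) ⊔
        Submodule.span L {X c ^ (e + 1) * ∏ i ∈ s, g i} := by
  refine (mul_le_mul' (Sd_le_one hc e) le_rfl).trans ?_
  rw [Submodule.sup_mul]
  refine sup_le (le_sup_of_le_left ?_) ?_
  · rw [mul_assoc]
  · have e1 : Submodule.span L {(X c : MvPolynomial (Fin (n + 1)) L) ^ (e + 1)} =
        Submodule.span L {X c ^ e} * Submodule.span L {X c} := by
      rw [Submodule.span_mul_span, Set.singleton_mul_singleton, ← pow_succ]
    rw [e1, mul_assoc]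
    refine (mul_le_mul' le_rfl (prod_Lam_le x hc s hg h0 c)).trans ?_
    rw [Submodule.mul_sup]
    refine sup_le (le_sup_of_le_left ?_) (le_sup_of_le_right ?_)
    · refine mul_le_mul' ?_ le_rfl
      rw [Submodule.span_le, Set.singleton_subset_iff]
      exact X_pow_mem c e
    · rw [Submodule.span_mul_span, Set.singleton_mul_singleton, ← mul_assoc, ← pow_succ]

theorem eval_prod_Lam {z : Fin (n + 1) → L} {M N : Submodule L (MvPolynomial (Fin (n + 1)) L)}
    {g : MvPolynomial (Fin (n + 1)) L} (hg : g ∈ M * (Lam z * N)) : eval z g = 0 := by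
  have h1 : M * (Lam z * N) = Lam z * (M * N) := mul_left_comm _ _ _
  rw [h1] at hg
  induction hg using Submodule.mul_induction_on' with
  | mem_mul_mem a ha b hb => rw [map_mul, eval_Lam ha, zero_mul]
  | add a _ b _ ha hb => rw [map_add, ha, hb, add_zero]

/-- **Forms which vanish at the points.** -/
theorem vanish (x : ι → Fin (n + 1) → L) (hx : ∀ i, x i ≠ 0)
    (hdist : ∀ i j, i ≠ j → ∃ q, eval (x j) (lf (x i) q) ≠ 0) (s : Finset ι) (e : ℕ)
    {g : MvPolynomial (Fin (n + 1)) L} (hg : g ∈ Sd L n (e + s.card))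
    (h0 : ∀ i ∈ s, eval (x i) g = 0) : g ∈ Sd L n e * ∏ i ∈ s, Lam (x i) := by
  classical
  induction s using Finset.induction_on generalizing e with
  | empty =>
    rw [Finset.prod_empty, mul_one]
    exact hg
  | insert p s hp ih =>
    rw [Finset.card_insert_of_notMem hp] at hg
    have h1 : g ∈ Sd L n (e + 1) * ∏ i ∈ s, Lam (x i) := by
      refine ih (e + 1) ?_ fun i hi => h0 i (Finset.mem_insert_of_mem hi)
      have e1 : e + 1 + s.card = e + (s.card + 1) := by ring
      rw [e1]
      exact hg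
    obtain ⟨c, hc⟩ := Function.ne_iff.1 (hx p)
    have h2 : ∀ i, ∃ q, i ∈ s → eval (x p) (lf (x i) q) ≠ 0 := by
      intro i
      by_cases hi : i ∈ s
      · obtain ⟨q, hq⟩ := hdist i p (by rintro rfl; exact hp hi)
        exact ⟨q, fun _ => hq⟩
      · exact ⟨(0, 0), fun h => absurd h hi⟩
    choose q hq using h2
    have h3 := step_le x hc s (g := fun i => lf (x i) (q i))
      (fun i _ => Submodule.subset_span ⟨_, rfl⟩) hq e h1
    rw [Submodule.mem_sup] at h3
    obtain ⟨u, hu, v, hv, huv⟩ := h3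
    obtain ⟨b, rfl⟩ := Submodule.mem_span_singleton.1 hv
    have h4 := h0 p (Finset.mem_insert_self _ _)
    rw [← huv, map_add, eval_prod_Lam hu, zero_add, smul_eval, map_mul, map_pow, eval_X,
      map_prod] at h4
    have h5 : b = 0 := by
      refine (mul_eq_zero.1 h4).resolve_right (mul_ne_zero (pow_ne_zero _ hc) ?_)
      exact Finset.prod_ne_zero_iff.2 fun i hi => hq i hi
    rw [h5, zero_smul, add_zero] at huv
    rw [← huv, Finset.prod_insert hp]
    exact hu

/-- products of linear forms and monomials -/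
noncomputable def mp (x : ι → Fin (n + 1) → L) (s : Finset ι) (I : Fin (n + 1) →₀ ℕ)
    (q : ι → Fin (n + 1) × Fin (n + 1)) : MvPolynomial (Fin (n + 1)) L :=
  monomial I 1 * ∏ i ∈ s, lf (x i) (q i)

theorem prod_span (x : ι → Fin (n + 1) → L) (s : Finset ι) (e : ℕ) :
    Sd L n e * ∏ i ∈ s, Lam (x i) ≤
      Submodule.span L {g | ∃ (I : Fin (n + 1) →₀ ℕ) (q : ι → Fin (n + 1) × Fin (n + 1)),
        I.degree = e ∧ g = mp x s I q} := by
  classical
  unfold Sd Lam
  rw [Submodule.prod_span, Submodule.span_mul_span]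
  refine Submodule.span_mono ?_
  rintro _ ⟨_, ⟨I, hI, rfl⟩, b, hb, rfl⟩
  rw [Set.mem_finsetProd] at hb
  obtain ⟨v, hv, rfl⟩ := hb
  have h1 : ∀ i, ∃ q, i ∈ s → v i = lf (x i) q := by
    intro i
    by_cases hi : i ∈ s
    · obtain ⟨q, hq⟩ := hv hi
      exact ⟨q, fun _ => hq.symm⟩
    · exact ⟨(0, 0), fun h => absurd h hi⟩
  choose q hq using h1
  refine ⟨I, q, hI, ?_⟩
  change monomial I 1 * ∏ i ∈ s, v i = _
  rw [mp]
  congr 1
  exact Finset.prod_congr rfl fun i hi => hq i hi

end Pool.Agent.N95.RF
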