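import Pool.Agent.N95.RF.Gt

/-!
Several groups of points of generic complete intersections.
-/

set_option autoImplicit false
set_option linter.unusedSectionVars false
set_option linter.overlappingInstances false

open FF Module IntermediateField
open Pool.Agent.N111.GI (GenericCI)
open Pool.Agent.N111.FT (aclo mem_aclo subset_aclo aclo_le aclo_mono aclo_closed map_mem_aclo_iff)
open Pool.Agent.W602.GT (GeneralType coords IsPluri RegAt Divisorial)
open Pool.Agent.W603.LV
open Pool.Agent.Y172 (exists_crd pluri_coord)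
open Pool.Agent.W602.GT (dform_apply)
open Pool.Agent.Y216.SV (yloc fd_of_fg)
open Pool.Agent.N95.PR (ratios adjoin_ratios mult span_mult coords_alg gt_abs base base_closed
  alg_base trdeg_base finrank_closed ratios_norm ratios_image det_block basis_union det_pluri)

namespace Pool.Agent.N95.RF

section

variable {k K : Type} [Field k] [CharZero k] [IsAlgClosed k] [Field K] [Algebra k K]
  {J : Type} [Fintype J] [LinearOrder J]

/-- **Products of canonical forms**, with families of multipliers. -/
theorem prod_fam {n : ℕ} (hn : Algebra.trdeg k K = n) (M : J → IntermediateField k K)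
    {w : J → ℕ} (htr : ∀ j, Algebra.trdeg k (M j) = w j)
    (hfg : ∀ j, ∃ S : Set (M j), S.Finite ∧ IntermediateField.adjoin k S = ⊤)
    (hsum : ∑ j, w j = n) (halg : ∀ z : K, z ∈ aclo k (⋃ j, (M j : Set K)))
    {G : J → Type} (u : ∀ j, G j → M j)
    (ω : ∀ j, (Fin (w j) → Derivation k (M j) (M j)) → M j) (hω : ∀ j, IsPluri 1 (ω j))
    (hne : ∀ j, ∃ E, ω j E ≠ 0)
    (hreg : ∀ j (g : G j) (P : Place k (M j)), Divisorial (w j) P →
      RegAt P (fun D => u j g * ω j D)) :
    ∃ Ω : (Fin n → Derivation k K K) → K, IsPluri 1 Ω ∧ (∃ E, Ω E ≠ 0) ∧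
      ∀ (g : ∀ j, G j) (P : Place k K), Divisorial n P →
        RegAt P (fun D => (∏ j, (u j (g j) : K)) * Ω D) := by
  classical
  choose y E hy hE using fun j => exists_crd (htr j)
  have hcard : Fintype.card (Fin n) = Fintype.card (Σ j, Fin (w j)) := by
    rw [Fintype.card_sigma, Fintype.card_fin]
    simp [hsum]
  let e : Fin n ≃ Σ j, Fin (w j) := Fintype.equivOfCardEq hcard
  set Y : Fin n → K := fun i => (y (e i).1 (e i).2 : K) with hY
  have hYb : IsTranscendenceBasis k Y := basis_union hn M hsum halg hy e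
  set c : K := ∏ j, (ω j (E j) : K) with hc
  have hc0 : c ≠ 0 := by
    rw [hc]
    refine Finset.prod_ne_zero_iff.2 fun j _ h0 => ?_
    obtain ⟨D, hD⟩ := hne j
    apply hD
    rw [pluri_coord (hy j) (hE j) (hω j) D]
    have h1 : ω j (E j) = 0 := Subtype.ext h0
    rw [h1, mul_zero]
  refine ⟨_, det_pluri Y c, ?_, ?_⟩
  · obtain ⟨D, hD⟩ := Pool.Agent.TH710.SP.dform_ne hn hYb.1
    refine ⟨D, ?_⟩
    rw [dform_apply] at hD
    change (Matrix.of fun i j => D i (Y j) : Matrix (Fin n) (Fin n) K).det * c ≠ 0
    rw [hD, one_mul]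
    exact hc0
  · intro g P hP D hD
    have hloc : ∀ j, ∃ (Z : Matrix (Fin (w j)) (Fin (w j)) K) (z : Fin (w j) → K),
        (∀ c, P.Reg (z c)) ∧ (∀ (D : Derivation k K K) l, D (y j l : K) = ∑ c, Z l c * D (z c)) ∧
          Ge P 0 (((u j (g j) * ω j (E j) : M j) : K) * Z.det ^ 1) := by
      intro j
      obtain ⟨S, hS, htop⟩ := hfg j
      exact yloc k K (M j) (w j) n 1 (htr j) hn (fun y hy => fd_of_fg hS htop hy)
        (fun D => u j (g j) * ω j D) (fun A D => by
          change u j (g j) * ω j (fun i => ∑ j, A i j • D j) = _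
          rw [hω j A D]
          ring) (fun v hv => hreg j (g j) v hv) (y j) (E j) (hy j) (hE j) P hP
    choose Z z hz hexp hge using hloc
    have h1 : (Matrix.of fun i p => D i (Y p) : Matrix (Fin n) (Fin n) K).det =
        (Matrix.of fun i q => D i (z (e q).1 (e q).2) : Matrix (Fin n) (Fin n) K).det *
          ∏ j, (Z j).det := by
      rw [← det_block, ← Matrix.det_submatrix_equiv_self e (Matrix.blockDiagonal' Z),
        ← Matrix.det_transpose ((Matrix.blockDiagonal' Z).submatrix e e), ← Matrix.det_mul]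
      congr 1
      ext i p
      rw [Matrix.of_apply, Matrix.mul_apply]
      have h2 : ∀ q, (Matrix.of fun i q => D i (z (e q).1 (e q).2) : Matrix (Fin n) (Fin n) K) i q *
          ((Matrix.blockDiagonal' Z).submatrix e e).transpose q p =
          (fun r : Σ j, Fin (w j) => D i (z r.1 r.2) * Matrix.blockDiagonal' Z (e p) r) (e q) := by
        intro q
        rfl
      rw [Finset.sum_congr rfl fun q _ => h2 q]
      have h2' := Equiv.sum_comp e
        (fun r : Σ j, Fin (w j) => D i (z r.1 r.2) * Matrix.blockDiagonal' Z (e p) r)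
      refine Eq.trans ?_ h2'.symm
      rw [Fintype.sum_sigma, Finset.sum_eq_single (e p).1]
      · rw [hY, hexp]
        refine Finset.sum_congr rfl fun c _ => ?_
        have h3 : Matrix.blockDiagonal' Z (e p) ⟨(e p).1, c⟩ = Z (e p).1 (e p).2 c :=
          Matrix.blockDiagonal'_apply_eq Z (e p).1 (e p).2 c
        change _ = D i (z (e p).1 c) * _
        rw [h3, mul_comm]
      · intro j _ hj
        refine Finset.sum_eq_zero fun c _ => ?_
        have h3 : Matrix.blockDiagonal' Z (e p) ⟨j, c⟩ = 0 :=
          Matrix.blockDiagonal'_apply_ne Z (e p).2 c (Ne.symm hj)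
        rw [h3, mul_zero]
      · intro h
        exact absurd (Finset.mem_univ _) h
    have h2 : Ge P 0 ((Matrix.of fun i q => D i (z (e q).1 (e q).2) : Matrix (Fin n) (Fin n) K).det) :=
      Pool.Agent.W619.PQ.ge_det P _ fun i q => hD i _ (hz _ _)
    have h3 : (∏ j, (u j (g j) : K)) *
        ((Matrix.of fun i p => D i (Y p) : Matrix (Fin n) (Fin n) K).det * c) =
        (∏ j, (((u j (g j) * ω j (E j) : M j) : K) * (Z j).det ^ 1)) *
          (Matrix.of fun i q => D i (z (e q).1 (e q).2) : Matrix (Fin n) (Fin n) K).det := by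
      rw [h1, Finset.prod_mul_distrib, hc]
      have h4 : ∏ j, ((u j (g j) * ω j (E j) : M j) : K) =
          (∏ j, (u j (g j) : K)) * ∏ j, (ω j (E j) : K) := by
        rw [← Finset.prod_mul_distrib]
        refine Finset.prod_congr rfl fun j _ => ?_
        push_cast
        rfl
      rw [h4]
      simp only [pow_one]
      ring
    change P.Reg ((∏ j, (u j (g j) : K)) *
      ((Matrix.of fun i p => D i (Y p) : Matrix (Fin n) (Fin n) K).det * c))
    rw [h3]
    have h4 : Ge P 0 (∏ j, (((u j (g j) * ω j (E j) : M j) : K) * (Z j).det ^ 1)) := by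
      have h5 := Ge.prod (P := P) Finset.univ
        (fun j => (((u j (g j) * ω j (E j) : M j) : K) * (Z j).det ^ 1))
        (fun _ => 0) (fun j _ => hge j)
      rwa [Finset.sum_const_zero] at h5
    have h5 := h4.mul h2
    rw [add_zero] at h5
    exact h5

end

end Pool.Agent.N95.RF
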