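import Pool.Agent.N95.RF.DatE
import Pool.Agent.N95.PR.Main

/-!
Fields over which several points of a generic complete intersection have small degree.
-/

set_option autoImplicit false
set_option linter.unusedSectionVars false
set_option linter.overlappingInstances false

open FF Module IntermediateField
open Pool.Agent.N111.GI (GenericCI)
open Pool.Agent.N111.FT (aclo mem_aclo subset_aclo aclo_le aclo_mono aclo_closed map_mem_aclo_iff)
open Pool.Agent.W602.GT (GeneralType coords IsPluri RegAt Divisorial)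
open Pool.Agent.TH145.MG (DimLE)
open Pool.Agent.N95.PR (ratios adjoin_ratios aeval_crd mult span_mult coords_alg gt_abs fld base
  base_closed alg_base trdeg_base finrank_closed ratios_norm ratios_image)

namespace Pool.Agent.N95.RF

open MvPolynomial in
/-- **The canonical form of several points of a generic complete intersection.** -/
theorem form_ci {k0 K L : Type} [Field k0] [Field K] [Field L] [Algebra k0 K] [Algebra K L]
    [IsAlgClosed K] [CharZero K] {n m ρ w ex : ℕ} {A : Type} [Fintype A]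
    {dg : A → ℕ} {V : Set (MvPolynomial (Fin (n + 1)) k0)} (hV : DimLE k0 V m)
    {F : A → MvPolynomial (Fin (n + 1)) K} (hF : ∀ a, (F a).IsHomogeneous (dg a))
    {I₀ : A → Fin (n + 1) →₀ ℕ} (h0 : ∀ a, (F a).coeff (I₀ a) ≠ 0)
    (hind : AlgebraicIndependent k0
      fun p : (a : A) × {I : Fin (n + 1) →₀ ℕ // I.degree = dg a ∧ I ≠ I₀ a} =>
        (F p.1).coeff p.2.1 / (F p.1).coeff (I₀ p.1))
    (hw : 0 < w) (htr : Algebra.trdeg K L = w)
    {x : Fin ρ → Fin (n + 1) → L} {c : Fin ρ → Fin (n + 1)}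
    (hxc : ∀ i, x i (c i) = 1) (hxV : ∀ i, ∀ f ∈ V, aeval (x i) (map (algebraMap k0 K) f) = 0)
    (hxF : ∀ i a, aeval (x i) (F a) = 0)
    (hdist : ∀ i j, i ≠ j → ∃ q, eval (x j) (lf (x i) q) ≠ 0) (hdeg : ∀ a, ρ ≤ dg a)
    (halg : ∀ z : L, IsAlgebraic (IntermediateField.adjoin K
      (Set.range fun q : Fin ρ × Fin (n + 1) => x q.1 q.2)) z)
    (hd : (ρ + 1) * m + 1 + ex ≤ ∑ a, (dg a + 1) + w) :
    ∃ Ω : (Fin w → Derivation K L L) → L, IsPluri 1 Ω ∧ (∃ E, Ω E ≠ 0) ∧
      ∀ (f : Fin ρ → Fin ex → Fin (n + 1)) (P : Place K L), Divisorial w P →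
        RegAt P (fun D => (∏ i, ∏ l, x i (f i l)) * Ω D) := by
  let _ : Algebra k0 L := ((algebraMap K L).comp (algebraMap k0 K)).toAlgebra
  have hst : IsScalarTower k0 K L := IsScalarTower.of_algebraMap_eq fun _ => rfl
  obtain ⟨t, -, ht, -⟩ := Pool.Agent.Y172.exists_crd htr
  obtain ⟨S, rfl, rfl⟩ := exists_dat hV hF h0 hind ht hxc hxV hxF hdist hdeg
  exact S.form hw htr halg hd

theorem gt_dep {k K L L' : Type} [Field k] [Field K] [CharZero K] [IsAlgClosed K] [Algebra k K]
    [Field L] [Field L'] [Algebra K L] [Algebra K L'] [Algebra L L'] [IsScalarTower K L L']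
    [FiniteDimensional L L'] [Algebra.EssFiniteType K L] {ρ n r : ℕ}
    (hn : Algebra.trdeg K L = n) (hpos : 0 < n) (X : GenericCI k K)
    (x : Fin ρ → Fin (X.n + 1) → L') (hx : ∀ j, X.Point (x j))
    (hdist : ∀ i j, i ≠ j → ∃ p q, x i p * x j q ≠ x i q * x j p)
    (hρ : ∀ a, ρ ≤ X.d a) (hr0 : 0 < r)
    (hr : ∀ j, finrank L (adjoin L (ratios (x j))) ≤ r)
    (hd : (ρ + 1) * X.m + 2 * r ≤ ∑ a, (X.d a + 1) + n)
    (hgen : adjoin L (⋃ j, ratios (x j)) = ⊤)
    (halg : ∀ z : L', z ∈ aclo K (⋃ j, ratios (x j))) : GeneralType K L n := by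
  classical
  have hess : Algebra.EssFiniteType K L' := Algebra.EssFiniteType.comp K L L'
  have hn' : Algebra.trdeg K L' = n := Pool.Agent.Y172.trdeg_up (K := L) hn
  have hL : CharZero L := charZero_of_injective_algebraMap (algebraMap K L).injective
  have hc : ∀ j, ∃ c, x j c ≠ 0 := fun j => Function.ne_iff.1 (hx j).ne
  choose c hc using hc
  -- the normalized points
  let x1 : Fin ρ → Fin (X.n + 1) → L' := fun j i => x j i / x j (c j)
  let M : Fin ρ → IntermediateField K L' := fun j => fld K (x1 j)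
  have hM : ∀ j, adjoin K (ratios (x j)) = M j := fun j => adjoin_ratios (hc j)
  have hML : ∀ j, adjoin L (ratios (x j)) = fld L (x1 j) := fun j => adjoin_ratios (hc j)
  have hc1 : ∀ j, x1 j (c j) = 1 := fun j => div_self (hc j)
  have hMsub : ∀ j, ratios (x j) ⊆ (M j : Set L') := fun j => by
    rw [← hM j]
    exact subset_adjoin _ _
  -- the form
  obtain ⟨Ω, hΩ, hΩne, hΩreg⟩ := form_ci (k0 := algebraicClosure k K) (K := K) (L := L')
    (ex := 2 * r - 1) X.V_dim X.F_form X.coeff_ne X.generic.algebraicClosure hpos hn'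
    (x := x1) (c := c) hc1 (fun j f hf => by
      obtain ⟨e, he⟩ := X.V_form f hf
      change MvPolynomial.aeval (fun i => x j i / x j (c j)) _ = 0
      rw [Pool.Agent.N111.GI.aeval_div (he.map _), (hx j).mem_V f hf, mul_zero])
    (fun j a => by
      change MvPolynomial.aeval (fun i => x j i / x j (c j)) _ = 0
      rw [Pool.Agent.N111.GI.aeval_div (X.F_form a), (hx j).mem_F a, mul_zero])
    (fun i j hij => by
      obtain ⟨p, q, hpq⟩ := hdist i j hij
      refine ⟨(p, q), ?_⟩
      rw [eval_lf]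
      change x i p / x i (c i) * (x j q / x j (c j)) - x i q / x i (c i) * (x j p / x j (c j)) ≠ 0
      intro h0
      apply hpq
      have h1 := hc i
      have h2 := hc j
      field_simp at h0
      rw [mul_zero] at h0
      exact sub_eq_zero.1 h0) hρ
    (fun z => by
      refine mem_aclo.1 (aclo_le ?_ (halg z))
      refine Set.iUnion_subset fun j => ?_
      have h1 : M j ≤ adjoin K (Set.range fun q : Fin ρ × Fin (X.n + 1) => x1 q.1 q.2) := by
        rw [adjoin_le_iff]
        rintro _ ⟨i, rfl⟩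
        exact subset_adjoin _ _ ⟨(j, i), rfl⟩
      have h2 : adjoin K (Set.range fun q : Fin ρ × Fin (X.n + 1) => x1 q.1 q.2) ≤
          aclo K (Set.range fun q : Fin ρ × Fin (X.n + 1) => x1 q.1 q.2) :=
        adjoin_le_iff.2 (subset_aclo _)
      exact fun a ha => h2 (h1 (hMsub j ha))) (by
        have e1 : (ρ + 1) * X.m + 1 + (2 * r - 1) = (ρ + 1) * X.m + 2 * r := by omega
        rw [e1]
        exact hd)
  have hgen' : adjoin L (⋃ j, Set.range (x1 j)) = ⊤ := by
    rw [eq_top_iff, ← hgen, adjoin_le_iff]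
    refine Set.iUnion_subset fun j => ?_
    intro a ha
    have h1 : a ∈ adjoin L (ratios (x j)) := subset_adjoin _ _ ha
    rw [hML j] at h1
    exact adjoin.mono L _ _ (Set.subset_iUnion (fun j => Set.range (x1 j)) j) h1
  have hr' : ∀ j, finrank L (fld L (x1 j)) ≤ r := fun j => by
    rw [← hML j]
    exact hr j
  refine gt_abs hn (mult (m := fun _ => 2 * r - 1) x1) hΩ (fun g P hP => hΩreg g P hP) hΩne
    (span_mult K hc1 hgen' fun j => by
      have h1 := hr' j
      omega) fun E h cc hh _ hE z => ?_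
  have h1 : ∀ j i, IsAlgebraic E (x1 j i) := fun j i =>
    coords_alg (m := fun _ => 2 * r - 1) hc1 hgen' (fun j => by
      have h1 := hr' j
      omega) hh hE j i
  -- all elements are algebraic over `E`
  have h2 : ⋃ j, ratios (x j) ⊆ ((algebraicClosure E L').restrictScalars K : Set L') := by
    refine Set.iUnion_subset fun j => ?_
    intro a ha
    have h3 : M j ≤ (algebraicClosure E L').restrictScalars K := by
      rw [adjoin_le_iff]
      rintro _ ⟨i, rfl⟩
      change x1 j i ∈ algebraicClosure E L'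
      rw [mem_algebraicClosure_iff]
      exact h1 j i
    exact h3 (hMsub j ha)
  have h3 : IsAlgebraic (adjoin K (⋃ j, ratios (x j))) z := mem_aclo.1 (halg z)
  have h4 : adjoin K (⋃ j, ratios (x j)) ≤ (algebraicClosure E L').restrictScalars K :=
    adjoin_le_iff.2 h2
  have h5 : IsAlgebraic (algebraicClosure E L') z := by
    obtain ⟨q, hq, hqx⟩ := h3
    let φ : adjoin K (⋃ j, ratios (x j)) →+* algebraicClosure E L' :=
      (IntermediateField.inclusion h4).toRingHom
    refine ⟨q.map φ, ?_, ?_⟩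
    · rw [Ne, Polynomial.map_eq_zero]
      exact hq
    · rw [← hqx, Polynomial.aeval_def, Polynomial.eval₂_map, Polynomial.aeval_def]
      rfl
  exact h5.restrictScalars E

section

variable {k K L A : Type} [Field k] [Field K] [CharZero K] [IsAlgClosed K] [Algebra k K] [Field L]
  [Field A] [Algebra K L] [Algebra K A] [Algebra L A] [IsScalarTower K L A]

/-- **Fibrations over varieties of general type.** -/
theorem fib_dep [Normal L A] [Algebra.EssFiniteType K L] (X : GenericCI k K) {ρ r w : ℕ}
    (x : Fin ρ → Fin (X.n + 1) → A) (hx : ∀ j, X.Point (x j))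
    (hdist : ∀ i j, i ≠ j → ∃ p q, x i p * x j q ≠ x i q * x j p) (hρ : ∀ a, ρ ≤ X.d a)
    (hr0 : 0 < r) (hr : ∀ j, finrank L (adjoin L (ratios (x j))) ≤ r)
    (hw : Algebra.trdeg K (adjoin K (⋃ j, ratios (x j))) = w) (hpos : 0 < w)
    (hd : (ρ + 1) * X.m + 2 * r ≤ ∑ a, (X.d a + 1) + w)
    (hconj : ∀ (σ : A ≃ₐ[L] A) j, ∀ z ∈ ratios (x j), σ z ∈ aclo K (⋃ j, ratios (x j))) :
    GeneralType K (base K L (⋃ j, ratios (x j))) w := by
  classical
  obtain ⟨S, hS⟩ : ∃ S : Set A, S = ⋃ j, ratios (x j) := ⟨_, rfl⟩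
  rw [← hS] at hw hconj ⊢
  have hconj' : ∀ (σ : A ≃ₐ[L] A), ∀ z ∈ S, σ z ∈ aclo K S := by
    intro σ z hz
    rw [hS, Set.mem_iUnion] at hz
    obtain ⟨j, hj⟩ := hz
    exact hconj σ j z hj
  let L₁ := base K L S
  have hess : Algebra.EssFiniteType K L₁ := Pool.Agent.N133.CC.ess_any L₁
  have halg : ∀ z ∈ aclo K S, IsAlgebraic L₁ z := fun z hz => alg_base hconj' hz
  have hn : Algebra.trdeg K L₁ = w := by
    rw [← hw]
    exact trdeg_base halg
  have hc : ∀ j, ∃ c, x j c ≠ 0 := fun j => Function.ne_iff.1 (hx j).ne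
  choose c hc using hc
  -- the extension generated by the values
  have hSfin : S.Finite := by
    rw [hS]
    refine Set.finite_iUnion fun j => ?_
    refine (Set.finite_range fun p : Fin (X.n + 1) × Fin (X.n + 1) =>
      x j p.1 / x j p.2).subset ?_
    rintro z ⟨i, i', -, rfl⟩
    exact ⟨(i, i'), rfl⟩
  have hSint : ∀ z ∈ S, IsIntegral L₁ z := fun z hz => (halg z (subset_aclo S hz)).isIntegral
  have hfS : Finite S := hSfin
  let L' : IntermediateField L₁ A := adjoin L₁ S
  have hfd : FiniteDimensional L₁ L' := finiteDimensional_adjoin hSint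
  have hst : IsScalarTower K L₁ L' := inferInstance
  have hst2 : IsScalarTower K L' A := by
    refine IsScalarTower.of_algebraMap_eq fun z => ?_
    rw [IsScalarTower.algebraMap_apply K L₁ L', ← IsScalarTower.algebraMap_apply L₁ L' A,
      ← IsScalarTower.algebraMap_apply K L₁ A]
  have hsub : ∀ j, ratios (x j) ⊆ S := fun j => by
    rw [hS]
    exact Set.subset_iUnion (fun j => ratios (x j)) j
  let x' : Fin ρ → Fin (X.n + 1) → L' := fun j i =>
    ⟨x j i / x j (c j), subset_adjoin _ _ (hsub j ⟨i, c j, hc j, rfl⟩)⟩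
  have hx'A : ∀ j i, algebraMap L' A (x' j i) = x j i / x j (c j) := fun j i => rfl
  have hev : ∀ j (e : ℕ) (P : MvPolynomial (Fin (X.n + 1)) K), P.IsHomogeneous e →
      MvPolynomial.aeval (x j) P = 0 → MvPolynomial.aeval (x' j) P = 0 := by
    intro j e P hP h
    apply (algebraMap L' A).injective
    rw [map_zero]
    have h1 : algebraMap L' A (MvPolynomial.aeval (x' j) P) =
        MvPolynomial.aeval (fun i => x j i / x j (c j)) P := by
      rw [← MvPolynomial.aeval_algebraMap_apply]
      rfl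
    rw [h1, Pool.Agent.N111.GI.aeval_div hP, h, mul_zero]
  have hx' : ∀ j, X.Point (x' j) := fun j =>
    { ne := fun h => by
        have h1 := congrArg (algebraMap L' A) (congrFun h (c j))
        rw [hx'A, div_self (hc j), Pi.zero_apply, map_zero] at h1
        exact one_ne_zero h1
      mem_V := fun f hf => by
        obtain ⟨e, he⟩ := X.V_form f hf
        exact hev j e _ (he.map _) ((hx j).mem_V f hf)
      mem_F := fun a => hev j _ _ (X.F_form a) ((hx j).mem_F a) }
  have hdist' : ∀ i j, i ≠ j → ∃ p q, x' i p * x' j q ≠ x' i q * x' j p := by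
    intro i j hij
    obtain ⟨p, q, hpq⟩ := hdist i j hij
    refine ⟨p, q, fun h => hpq ?_⟩
    have h1 := congrArg (algebraMap L' A) h
    rw [map_mul, map_mul, hx'A, hx'A, hx'A, hx'A] at h1
    have h2 := hc i
    have h3 := hc j
    field_simp at h1
    exact h1
  have hrat : ∀ j, algebraMap L' A '' ratios (x' j) = ratios (x j) := fun j => by
    rw [ratios_image, ← ratios_norm (hc j)]
    rfl
  -- the images of the fields generated by the values
  have hadj : ∀ (R : Type) [Field R] [Algebra R L'] [Algebra R A] [IsScalarTower R L' A]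
      (T : Set L'), (adjoin R T).map (IsScalarTower.toAlgHom R L' A) =
        adjoin R (algebraMap L' A '' T) := by
    intro R _ _ _ _ T
    rw [adjoin_map]
    rfl
  have hUn : algebraMap L' A '' (⋃ j, ratios (x' j)) = S := by
    rw [Set.image_iUnion, hS]
    exact Set.iUnion_congr hrat
  have hst3 : IsScalarTower L₁ L' A := inferInstance
  refine gt_dep (L := L₁) (L' := L') hn hpos X x' hx' hdist' hρ hr0 (fun j => ?_) hd ?_ ?_
  · -- the degrees
    have h1 : finrank L₁ (adjoin L₁ (ratios (x' j))) = finrank L₁ (adjoin L₁ (ratios (x j))) := by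
      rw [← hrat j, ← hadj L₁]
      exact ((adjoin L₁ (ratios (x' j))).equivMap _).toLinearEquiv.finrank_eq
    rw [h1]
    have hfr : Finite (ratios (x j)) := hSfin.subset (hsub j)
    have i1 : FiniteDimensional L₁ (adjoin L₁ (ratios (x j))) :=
      finiteDimensional_adjoin fun z hz => hSint z (hsub j hz)
    have i2 : FiniteDimensional L (adjoin L (ratios (x j))) :=
      finiteDimensional_adjoin fun z hz => (hSint z (hsub j hz)).tower_top
    exact (finrank_closed (K := K) (fun z hz => base_closed hz)).trans (hr j)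
  · apply map_injective (IsScalarTower.toAlgHom L₁ L' A)
    rw [hadj L₁, hUn, ← AlgHom.fieldRange_eq_map]
    ext z
    constructor
    · intro hz
      exact ⟨⟨z, hz⟩, rfl⟩
    · rintro ⟨y, rfl⟩
      exact y.2
  · intro z
    rw [← map_mem_aclo_iff (IsScalarTower.toAlgHom K L' A)]
    have h1 : (IsScalarTower.toAlgHom K L' A) '' (⋃ j, ratios (x' j)) = S := hUn
    rw [h1]
    -- `L'` is contained in the algebraic closure
    have h3 : ∀ y : L₁, algebraMap L₁ A y ∈ aclo K S := fun y => y.2
    let N : IntermediateField L₁ A :=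
      { (aclo K S).toSubfield with
        algebraMap_mem' := h3 }
    have h4 : L' ≤ N := adjoin_le_iff.2 (subset_aclo S)
    exact h4 z.2

end

end Pool.Agent.N95.RF
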