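import Pool.Agent.N95.RF.Cnt

/-!
Several points of a generic complete intersection: local computations.
-/

set_option autoImplicit false
set_option linter.unusedSectionVars false

open MvPolynomial Module Pool.Agent.TH145.GH FF Pool.Agent.W603.LV Pool.Agent.W603.PV
open Pool.Agent.TH145.GC (Tan dF_sub dF_self der_zero_of_alg)
open Pool.Agent.W602.GT (Divisorial DerReg)

namespace Pool.Agent.N95.RF

section

variable {K L : Type} [Field K] [Field L] [Algebra K L] {n ρ : ℕ}

/-- polynomials with regular coefficients -/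
def RegP (Q : Place K L) (g : MvPolynomial (Fin (n + 1)) L) : Prop := ∀ I, Ge Q 0 (g.coeff I)

theorem RegP.mul {Q : Place K L} {g h : MvPolynomial (Fin (n + 1)) L} (hg : RegP Q g)
    (hh : RegP Q h) : RegP Q (g * h) := by
  classical
  intro I
  rw [coeff_mul]
  refine Ge.sum _ _ fun p _ => ?_
  have := (hg p.1).mul (hh p.2)
  rwa [add_zero] at this

theorem RegP.mono {Q : Place K L} (I : Fin (n + 1) →₀ ℕ) :
    RegP Q (monomial I 1 : MvPolynomial (Fin (n + 1)) L) := by
  classical
  intro J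
  rw [coeff_monomial]
  split_ifs
  · exact Ge.one
  · exact Ge.zero

theorem RegP.prod {Q : Place K L} {J : Type} (s : Finset J) (g : J → MvPolynomial (Fin (n + 1)) L)
    (hg : ∀ j ∈ s, RegP Q (g j)) : RegP Q (∏ j ∈ s, g j) := by
  classical
  induction s using Finset.induction_on with
  | empty =>
    rw [Finset.prod_empty]
    exact RegP.mono 0
  | insert a s ha ih =>
    rw [Finset.prod_insert ha]
    exact (hg a (Finset.mem_insert_self _ _)).mul (ih fun j hj => hg j (Finset.mem_insert_of_mem hj))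

theorem RegP.lf {Q : Place K L} {x : Fin (n + 1) → L} (hx : ∀ l, Ge Q 0 (x l))
    (q : Fin (n + 1) × Fin (n + 1)) : RegP Q (lf x q) := by
  classical
  intro I
  unfold Pool.Agent.N95.RF.lf
  rw [coeff_sub, coeff_C_mul, coeff_C_mul, coeff_X', coeff_X']
  refine Ge.sub ?_ ?_
  · split_ifs
    · rw [mul_one]; exact hx _
    · rw [mul_zero]; exact Ge.zero
  · split_ifs
    · rw [mul_one]; exact hx _
    · rw [mul_zero]; exact Ge.zero

/-- forms which move one of the points and fix the points with larger indices -/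
noncomputable def gp (dg : ℕ) (x : Fin ρ → Fin (n + 1) → L) (c : Fin ρ → Fin (n + 1))
    (q : Fin ρ → Fin ρ → Fin (n + 1) × Fin (n + 1)) (i : Fin ρ) : MvPolynomial (Fin (n + 1)) L :=
  monomial (Finsupp.single (c i) (dg - (Finset.Ioi i).card)) 1 *
    ∏ i' ∈ Finset.Ioi i, lf (x i') (q i i')

theorem gp_hom {dg : ℕ} (hdg : ρ ≤ dg) (x : Fin ρ → Fin (n + 1) → L) (c : Fin ρ → Fin (n + 1))
    (q : Fin ρ → Fin ρ → Fin (n + 1) × Fin (n + 1)) (i : Fin ρ) :
    (gp dg x c q i).IsHomogeneous dg := by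
  have h1 := (isHomogeneous_monomial (R := L) (1 : L)
    (Finsupp.degree_single (c i) (dg - (Finset.Ioi i).card))).mul
      (Dat.prod_lf_hom x (Finset.Ioi i) (q i))
  have h2 : (Finset.Ioi i).card ≤ dg := by
    refine le_trans ?_ hdg
    have := Finset.card_le_univ (Finset.Ioi i)
    rwa [Fintype.card_fin] at this
  rw [Nat.sub_add_cancel h2] at h1
  exact h1

theorem gp_eval (dg : ℕ) (x : Fin ρ → Fin (n + 1) → L) (c : Fin ρ → Fin (n + 1))
    (q : Fin ρ → Fin ρ → Fin (n + 1) × Fin (n + 1)) (i : Fin ρ) (z : Fin (n + 1) → L) :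
    eval z (gp dg x c q i) = z (c i) ^ (dg - (Finset.Ioi i).card) *
      ∏ i' ∈ Finset.Ioi i, eval z (lf (x i') (q i i')) := by
  unfold gp
  rw [map_mul, map_prod, eval_monomial', mon_single, one_mul]

theorem eval_lf_smul (x z : Fin (n + 1) → L) (a b : L) (q : Fin (n + 1) × Fin (n + 1)) :
    eval (b • z) (lf (a • x) q) = a * b * eval z (lf x q) := by
  rw [eval_lf, eval_lf]
  simp only [Pi.smul_apply, smul_eq_mul]
  ring

theorem lf_smul (x : Fin (n + 1) → L) (a : L) (q : Fin (n + 1) × Fin (n + 1)) :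
    lf (a • x) q = a • lf x q := by
  unfold lf
  simp only [Pi.smul_apply, smul_eq_mul, smul_eq_C_mul, C_mul]
  ring

theorem gp_reg {Q : Place K L} {x : Fin ρ → Fin (n + 1) → L} (hx : ∀ i l, Ge Q 0 (x i l)) (dg : ℕ)
    (c : Fin ρ → Fin (n + 1)) (q : Fin ρ → Fin ρ → Fin (n + 1) × Fin (n + 1)) (i : Fin ρ) :
    RegP Q (gp dg x c q i) :=
  (RegP.mono _).mul (RegP.prod _ _ fun i' _ => RegP.lf (hx i') _)

end

section

variable {k0 K L : Type} [Field k0] [Field K] [Field L] [Algebra k0 L] [Algebra K L]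
  {n m ρ w : ℕ} {A : Type}

namespace Dat

variable (S : Dat k0 K L n m ρ A)

/-- products of linear forms of scaled points -/
theorem pr_scale {lam : Fin ρ → L} {x' : Fin ρ → Fin (n + 1) → L} (hx : ∀ i, S.x i = lam i • x' i)
    (s : Sx n ρ A) : S.pr s = (∏ i, lam i) • mp x' Finset.univ s.2.1 s.2.2 := by
  unfold pr mp
  have h1 : ∀ i, lf (S.x i) (s.2.2 i) = C (lam i) * lf (x' i) (s.2.2 i) := by
    intro i
    rw [hx, lf_smul, smul_eq_C_mul]
  rw [Finset.prod_congr rfl fun i _ => h1 i, Finset.prod_mul_distrib, smul_eq_C_mul, map_prod]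
  ring

/-- the scaling of the columns -/
def scl (lam : Fin ρ → L) : (Fin ρ × Fin (n + 1) → L) →ₗ[L] (Fin ρ × Fin (n + 1) → L) where
  toFun := fun u q => lam q.1 * u q
  map_add' := fun u v => by
    funext q
    simp only [Pi.add_apply]
    ring
  map_smul' := fun r u => by
    funext q
    simp only [Pi.smul_apply, smul_eq_mul, RingHom.id_apply]
    ring

/-- derivatives of scaled points -/
theorem vd_scale {lam : Fin ρ → L} (hlam : ∀ i, lam i ≠ 0) {x' : Fin ρ → Fin (n + 1) → L}
    (hx : ∀ i, S.x i = lam i • x' i) (δ : Derivation ℤ L L) :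
    vd δ S.x = scl lam (vd δ x') + ∑ i, (δ (lam i) / lam i) • eu S.x i := by
  classical
  funext q
  rw [Pi.add_apply, Finset.sum_apply, Finset.sum_eq_single q.1]
  · change δ (S.x q.1 q.2) = lam q.1 * δ (x' q.1 q.2) +
      δ (lam q.1) / lam q.1 * (if q.1 = q.1 then S.x q.1 q.2 else 0)
    rw [if_pos rfl, hx q.1, Pi.smul_apply, smul_eq_mul, δ.leibniz, smul_eq_mul, smul_eq_mul]
    have := hlam q.1
    field_simp
  · intro i _ hi
    change δ (lam i) / lam i * (if q.1 = i then S.x i q.2 else 0) = 0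
    rw [if_neg (Ne.symm hi), mul_zero]
  · intro h
    exact absurd (Finset.mem_univ _) h

/-- **Regular modifications of the derivations.** -/
theorem exists_reg [CharZero K] (hw : 0 < w) (htr : Algebra.trdeg K L = w) {Q : Place K L}
    (hQ : Divisorial w Q) :
    ∃ R : A → MvPolynomial (Fin (n + 1)) L → Derivation ℤ L L,
      (∀ a g, ∃ ε : Derivation K L L, ∀ f, S.Dg a g f - R a g f = ε f) ∧
      ∀ a g, RegP Q g → ∀ f, Ge Q 0 f → Ge Q 0 (R a g f) := by
  choose ξ hξ using fun a I => Pool.Agent.TH145.GF.exists_lift hw htr hQ (S.sem a I)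
  refine ⟨fun a g => ∑ I : {I : Fin (n + 1) →₀ ℕ // I.degree = S.dg a},
    S.cof a I.1 g • (S.D a I.1 - (ξ a I.1).restrictScalars ℤ), fun a g =>
      ⟨∑ I : {I : Fin (n + 1) →₀ ℕ // I.degree = S.dg a}, S.cof a I.1 g • ξ a I.1, fun f => ?_⟩,
      fun a g hg f hf => ?_⟩
  · rw [Dg, sum_der_apply, sum_der_apply, ← Finset.sum_sub_distrib]
    rw [← Derivation.coeFnAddMonoidHom_apply, map_sum, Finset.sum_apply]
    refine Finset.sum_congr rfl fun I _ => ?_
    rw [Derivation.coeFnAddMonoidHom_apply, Derivation.smul_apply, Derivation.smul_apply,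
      Derivation.smul_apply, Derivation.sub_apply, Derivation.restrictScalars_apply]
    simp only [smul_eq_mul]
    ring
  · rw [sum_der_apply]
    refine Ge.sum _ _ fun I _ => ?_
    rw [Derivation.smul_apply, smul_eq_mul, Derivation.sub_apply,
      Derivation.restrictScalars_apply]
    have h1 : Ge Q 0 (S.cof a I.1 g) := by
      unfold cof
      refine Ge.sub (hg _) ?_
      have := (hg (S.I0 a)).mul (Ge.const (P := Q) ((S.F a).coeff I.1))
      rwa [add_zero] at this
    have h2 : Ge Q 0 (S.D a I.1 f - ξ a I.1 f) := by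
      by_cases h0 : f = 0
      · rw [h0, map_zero, map_zero, sub_zero]
        exact Ge.zero
      · exact (hξ a I.1 f h0).mono (hf.resolve_left h0)
    have := h1.mul h2
    rwa [add_zero] at this

end Dat

end

end Pool.Agent.N95.RF
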