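import Pool.Agent.N95.RF.Loc

/-!
Several points of a generic complete intersection: the relations between the rows and the rows of
regular vectors.
-/

set_option autoImplicit false
set_option linter.unusedSectionVars false

open MvPolynomial Module Pool.Agent.TH145.GH FF Pool.Agent.W603.LV Pool.Agent.W603.PV
open Pool.Agent.TH145.GC (Tan dF_sub dF_self der_zero_of_alg)
open Pool.Agent.W602.GT (Divisorial DerReg)

namespace Pool.Agent.N95.RF

section

variable {k0 K L : Type} [Field k0] [Field K] [Field L] [Algebra k0 L] [Algebra K L]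
  {n m ρ w : ℕ} {A : Type}

namespace Dat

variable (S : Dat k0 K L n m ρ A)

/-- the rows of regular vectors -/
noncomputable def loc (B : Finset (Sx n ρ A)) (x' : Fin ρ → Fin (n + 1) → L)
    (Dd : Fin w → Derivation K L L) (R : A → MvPolynomial (Fin (n + 1)) L → Derivation ℤ L L)
    (G' : A → Fin ρ → MvPolynomial (Fin (n + 1)) L) :
    Ir n ρ w A B → (Fin ρ × Fin (n + 1) → L) :=
  Sum.elim (Sum.elim (Sum.elim (eu x') fun l => vd ((Dd l).restrictScalars ℤ) x') fun s =>
    vd (R s.1.1 (mp x' Finset.univ s.1.2.1 s.1.2.2)) x') fun p => vd (R p.2 (G' p.2 p.1)) x'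

/-- the levels -/
def lev (B : Finset (Sx n ρ A)) : Ir n ρ w A B → ℕ :=
  Sum.elim (Sum.elim (Sum.elim (fun _ => 0) fun _ => 1) fun _ => 2) fun p => 3 + (p.1 : ℕ)

/-- the factors -/
noncomputable def fac (B : Finset (Sx n ρ A)) (lam : Fin ρ → L)
    (G G' : A → Fin ρ → MvPolynomial (Fin (n + 1)) L) : Ir n ρ w A B → L :=
  Sum.elim (Sum.elim (Sum.elim (fun _ => 1) fun _ => 1) fun _ => ∏ i, lam i) fun p =>
    eval (S.x p.1) (G p.2 p.1) / eval (S.x p.1) (G' p.2 p.1)

theorem rel {lam : Fin ρ → L} (hlam : ∀ i, lam i ≠ 0) {x' : Fin ρ → Fin (n + 1) → L}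
    (hx : ∀ i, S.x i = lam i • x' i) {E Dd : Fin w → Derivation K L L}
    (hfull : ∀ δ : Derivation K L L, ∃ c : Fin w → L, ∀ f, δ f = ∑ l, c l * Dd l f)
    {R : A → MvPolynomial (Fin (n + 1)) L → Derivation ℤ L L}
    (hR : ∀ a g, ∃ ε : Derivation K L L, ∀ f, S.Dg a g f - R a g f = ε f)
    {G G' : A → Fin ρ → MvPolynomial (Fin (n + 1)) L} (hG : S.Tri G) (hG' : S.Tri G')
    {B : Finset (Sx n ρ A)} (hB : S.Good B (fun l => (E l).restrictScalars ℤ) G)
    (r : Ir n ρ w A B) :
    S.row B (fun l => (Dd l).restrictScalars ℤ) G r - S.fac B lam G G' r •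
      scl lam (loc B x' Dd R G' r) ∈ Submodule.span L ((fun r => scl lam (loc B x' Dd R G' r)) ''
        {r' | lev B r' < lev B r}) := by
  classical
  obtain ⟨z, hz⟩ : ∃ z : Ir n ρ w A B → (Fin ρ × Fin (n + 1) → L), z = fun r =>
    scl lam (loc B x' Dd R G' r) := ⟨_, rfl⟩
  obtain ⟨Z, hZ⟩ : ∃ Z : ℕ → Submodule L (Fin ρ × Fin (n + 1) → L), ∀ l, Z l =
    Submodule.span L (z '' {r' | lev B r' < l}) := ⟨_, fun _ => rfl⟩
  have hmono : ∀ {l l' : ℕ}, l ≤ l' → Z l ≤ Z l' := by
    intro l l' h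
    rw [hZ, hZ]
    refine Submodule.span_mono (Set.image_mono ?_)
    intro r' hr'
    exact lt_of_lt_of_le hr' h
  have hzZ : ∀ (r : Ir n ρ w A B) {l : ℕ}, lev B r < l → z r ∈ Z l := by
    intro r l h
    rw [hZ]
    exact Submodule.subset_span ⟨r, h, rfl⟩
  have h0 : ∀ i, eu S.x i ∈ Z 1 := by
    intro i
    have h1 : eu S.x i = z (Sum.inl (Sum.inl (Sum.inl i))) := by
      rw [hz]
      funext q
      change (if q.1 = i then S.x i q.2 else 0) = lam q.1 * (if q.1 = i then x' i q.2 else 0)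
      split_ifs with h
      · rw [hx, Pi.smul_apply, smul_eq_mul, h]
      · rw [mul_zero]
    rw [h1]
    exact hzZ _ Nat.zero_lt_one
  have h1 : ∀ δ : Derivation ℤ L L, vd δ S.x - scl lam (vd δ x') ∈ Z 1 := by
    intro δ
    rw [S.vd_scale hlam hx, add_sub_cancel_left]
    exact Submodule.sum_mem _ fun i _ => Submodule.smul_mem _ _ (h0 i)
  have h2' : ∀ l, vd ((Dd l).restrictScalars ℤ) S.x ∈ Z 2 := by
    intro l
    have h3 := (hmono (by norm_num : 1 ≤ 2)) (h1 ((Dd l).restrictScalars ℤ))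
    have h4 : scl lam (vd ((Dd l).restrictScalars ℤ) x') ∈ Z 2 := by
      have h5 := hzZ (Sum.inl (Sum.inl (Sum.inr l))) (l := 2) (by
        change 1 < 2
        norm_num)
      rw [hz] at h5
      exact h5
    have h5 := Submodule.add_mem _ h3 h4
    rwa [sub_add_cancel] at h5
  have h2 : ∀ δ : Derivation K L L, vd (δ.restrictScalars ℤ) S.x ∈ Z 2 := by
    intro δ
    obtain ⟨c, hc⟩ := hfull δ
    have h3 : vd (δ.restrictScalars ℤ) S.x = ∑ l, c l • vd ((Dd l).restrictScalars ℤ) S.x := by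
      funext q
      rw [Finset.sum_apply]
      exact hc _
    rw [h3]
    exact Submodule.sum_mem _ fun l _ => Submodule.smul_mem _ _ (h2' l)
  have h3 : ∀ a g, S.T a g - scl lam (vd (R a g) x') ∈ Z 2 := by
    intro a g
    obtain ⟨ε, hε⟩ := hR a g
    have h4 : S.T a g = vd (R a g) S.x + vd (ε.restrictScalars ℤ) S.x := by
      funext q
      have h5 := hε (S.x q.1 q.2)
      change S.Dg a g (S.x q.1 q.2) = R a g (S.x q.1 q.2) + ε (S.x q.1 q.2)
      rw [← h5]
      ring
    have h5 : S.T a g - scl lam (vd (R a g) x') = (vd (R a g) S.x - scl lam (vd (R a g) x')) +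
        vd (ε.restrictScalars ℤ) S.x := by
      rw [h4]
      abel
    rw [h5]
    exact Submodule.add_mem _ ((hmono (by norm_num : 1 ≤ 2)) (h1 _)) (h2 ε)
  have h4' : ∀ s : B, S.T s.1.1 (S.pr s.1) - (∏ i, lam i) • z (Sum.inl (Sum.inr s)) ∈ Z 2 := by
    intro s
    rw [S.pr_scale hx s.1, map_smul, ← smul_sub]
    refine Submodule.smul_mem _ _ ?_
    have h5 := h3 s.1.1 (mp x' Finset.univ s.1.2.1 s.1.2.2)
    rw [hz]
    exact h5
  have h4'' : ∀ s : B, S.T s.1.1 (S.pr s.1) ∈ Z 3 := by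
    intro s
    have h5 := (hmono (by norm_num : 2 ≤ 3)) (h4' s)
    have h6 : z (Sum.inl (Sum.inr s)) ∈ Z 3 := hzZ _ (by
      change 2 < 3
      norm_num)
    have h7 := Submodule.add_mem _ h5 (Submodule.smul_mem _ (∏ i, lam i) h6)
    rwa [sub_add_cancel] at h7
  have h4 : ∀ s : Sx n ρ A, s.2.1.degree = S.dg s.1 - ρ → S.T s.1 (S.pr s) ∈ Z 3 := by
    intro s hs
    have h5 : Submodule.span L (Set.range fun r : (Fin ρ ⊕ Fin w) ⊕ B =>
        S.row B (fun l => (E l).restrictScalars ℤ) G (Sum.inl r)) ≤ Z 3 := by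
      rw [Submodule.span_le]
      rintro _ ⟨r, rfl⟩
      rcases r with (i | l) | s
      · exact (hmono (by norm_num : 1 ≤ 3)) (h0 i)
      · exact (hmono (by norm_num : 2 ≤ 3)) (h2 (E l))
      · exact h4'' s
    exact h5 (hB.span s hs)
  change _ ∈ Submodule.span L ((fun r => scl lam (loc B x' Dd R G' r)) ''
        {r' | lev B r' < lev B r})
  rw [← hz, ← hZ]
  rcases r with ((i | l) | s) | p
  · have h5 : S.row B (fun l => (Dd l).restrictScalars ℤ) G (Sum.inl (Sum.inl (Sum.inl i))) -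
        S.fac (w := w) B lam G G' (Sum.inl (Sum.inl (Sum.inl i))) •
          scl lam (loc B x' Dd R G' (Sum.inl (Sum.inl (Sum.inl i)))) = 0 := by
      funext q
      change (if q.1 = i then S.x i q.2 else 0) -
        1 * (lam q.1 * (if q.1 = i then x' i q.2 else 0)) = 0
      split_ifs with h
      · rw [hx, Pi.smul_apply, smul_eq_mul, h]
        ring
      · ring
    rw [h5]
    exact Submodule.zero_mem _
  · have h5 := h1 ((Dd l).restrictScalars ℤ)
    change vd ((Dd l).restrictScalars ℤ) S.x - (1 : L) •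
      scl lam (vd ((Dd l).restrictScalars ℤ) x') ∈ Z 1
    rw [one_smul]
    exact h5
  · have h5 := h4' s
    rw [hz] at h5
    exact h5
  · obtain ⟨i, a⟩ := p
    obtain ⟨u, hu⟩ : ∃ u, u = eval (S.x i) (G a i) / eval (S.x i) (G' a i) := ⟨_, rfl⟩
    change S.T a (G a i) - (eval (S.x i) (G a i) / eval (S.x i) (G' a i)) •
      scl lam (vd (R a (G' a i)) x') ∈ Z (3 + (i : ℕ))
    rw [← hu]
    have h5 : (G a i - u • G' a i).IsHomogeneous (S.dg a) := by
      refine (hG.hom a i).sub ?_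
      rw [smul_eq_C_mul]
      have := (isHomogeneous_C (Fin (n + 1)) u).mul (hG'.hom a i)
      rwa [zero_add] at this
    have h6 := S.tri_span hG' a (i : ℕ) i.2.le h5 (fun i' hi' => by
      rw [map_sub, smul_eval]
      rcases Nat.eq_or_lt_of_le hi' with h | h
      · have h7 : i' = i := (Fin.ext h).symm
        rw [h7, hu, div_mul_cancel₀ _ (hG'.ne a i), sub_self]
      · rw [hG.zero a i i' h, hG'.zero a i i' h, mul_zero, sub_self])
    have h7 : Submodule.span L {u | ∃ i' : Fin ρ, (i' : ℕ) < i ∧ u = G' a i'} ⊔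
        Submodule.span L {u | ∃ s : Sx n ρ A, s.1 = a ∧ s.2.1.degree = S.dg s.1 - ρ ∧
          u = S.pr s} ≤ (Z (3 + (i : ℕ))).comap (S.T a) := by
      refine sup_le ?_ ?_
      · rw [Submodule.span_le]
        rintro _ ⟨i', hi', rfl⟩
        change S.T a (G' a i') ∈ Z (3 + (i : ℕ))
        have h8 := (hmono (by omega : 2 ≤ 3 + (i : ℕ))) (h3 a (G' a i'))
        have h9 : z (Sum.inr (i', a)) ∈ Z (3 + (i : ℕ)) := hzZ _ (by
          change 3 + (i' : ℕ) < 3 + (i : ℕ)
          omega)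
        rw [hz] at h9
        have h10 := Submodule.add_mem _ h8 h9
        have h11 : S.T a (G' a i') - scl lam (vd (R a (G' a i')) x') +
            scl lam (loc B x' Dd R G' (Sum.inr (i', a))) = S.T a (G' a i') := by
          change S.T a (G' a i') - scl lam (vd (R a (G' a i')) x') +
            scl lam (vd (R a (G' a i')) x') = _
          rw [sub_add_cancel]
        rwa [h11] at h10
      · rw [Submodule.span_le]
        rintro _ ⟨s, rfl, hs, rfl⟩
        exact (hmono (by omega : 3 ≤ 3 + (i : ℕ))) (h4 s hs)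
    have h8 : S.T a (G a i - u • G' a i) ∈ Z (3 + (i : ℕ)) := h7 h6
    rw [map_sub, map_smul] at h8
    have h9 := (hmono (by omega : 2 ≤ 3 + (i : ℕ))) (h3 a (G' a i))
    have h10 := Submodule.add_mem _ h8 (Submodule.smul_mem _ u h9)
    have h11 : S.T a (G a i) - u • S.T a (G' a i) +
        u • (S.T a (G' a i) - scl lam (vd (R a (G' a i)) x')) =
        S.T a (G a i) - u • scl lam (vd (R a (G' a i)) x') := by
      rw [smul_sub]
      abel
    rwa [h11] at h10

end Dat

end

end Pool.Agent.N95.RF
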