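import Pool.Agent.N95.RF.Gt
import Pool.Agent.N95.GP.Core
import Pool.Agent.TH466.QG.Equiv

/-!
Rational maps to the symmetric powers of generic complete intersections.
-/

set_option autoImplicit false
set_option linter.unusedSectionVars false
set_option linter.overlappingInstances false

open FF Module IntermediateField
open Pool.Agent.N111.GI (GenericCI)
open Pool.Agent.N111.FT (aclo mem_aclo subset_aclo aclo_le aclo_mono aclo_closed map_mem_aclo_iff)
open Pool.Agent.W602.GT (GeneralType coords)
open Pool.Agent.N95.PR (ratios adjoin_ratios base mem_base base_closed alg_base trdeg_base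
  ratios_norm ratios_image)
open Pool.Agent.N95.GP (MVMap CoverBound)

namespace Pool.Agent.N95.RF

/-- A rational map from the variety over `K` with function field `L` to the symmetric power of order
`r` of the generic complete intersection `X`: a cycle of `r` points of `X`, not necessarily distinct,
with coordinates in the algebraic closure of `L`, which is stable under the automorphisms over `L`. -/
structure SymMap (k K L : Type) [Field k] [Field K] [Algebra k K] [Field L] [Algebra K L]
    (X : GenericCI k K) (r : ℕ) where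
  /-- the points of the cycle -/
  p : Fin r → Fin (X.n + 1) → AlgebraicClosure L
  pt : ∀ l, X.Point (p l)
  stable : ∀ σ : AlgebraicClosure L ≃ₐ[L] AlgebraicClosure L, ∃ π : Equiv.Perm (Fin r),
    ∀ l, ∃ c : AlgebraicClosure L, (fun i => σ (p l i)) = c • p (π l)

/-- The values of the rational map to the symmetric power: the ratios of the coordinates of the
points of the cycle. -/
def SymMap.values {k K L : Type} [Field k] [Field K] [Algebra k K] [Field L] [Algebra K L]
    {X : GenericCI k K} {r : ℕ} (f : SymMap k K L X r) : Set (AlgebraicClosure L) :=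
  {z | ∃ l i j, f.p l j ≠ 0 ∧ z = f.p l i / f.p l j}

section

variable {k K L : Type} [Field k] [Field K] [CharZero K] [IsAlgClosed K] [Algebra k K] [Field L]
  [Algebra K L] {X : GenericCI k K} {r : ℕ}

theorem SymMap.values_eq (f : SymMap k K L X r) : f.values = ⋃ l, ratios (f.p l) := by
  ext z
  rw [Set.mem_iUnion]
  rfl

theorem ratios_smul {E : Type} [Field E] {n : ℕ} {x : Fin (n + 1) → E} {c : E} (hc : c ≠ 0) :
    ratios (c • x) = ratios x := by
  ext z
  constructor
  · rintro ⟨i, j, hj, rfl⟩
    refine ⟨i, j, fun h => hj ?_, ?_⟩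
    · rw [Pi.smul_apply, h, smul_zero]
    · rw [Pi.smul_apply, Pi.smul_apply, smul_eq_mul, smul_eq_mul, mul_div_mul_left _ _ hc]
  · rintro ⟨i, j, hj, rfl⟩
    refine ⟨i, j, ?_, ?_⟩
    · rw [Pi.smul_apply, smul_eq_mul]
      exact mul_ne_zero hc hj
    · rw [Pi.smul_apply, Pi.smul_apply, smul_eq_mul, smul_eq_mul, mul_div_mul_left _ _ hc]

theorem SymMap.conj (f : SymMap k K L X r) (σ : AlgebraicClosure L ≃ₐ[L] AlgebraicClosure L)
    (l : Fin r) : ∃ l', ∀ i j, f.p l j ≠ 0 → f.p l' j ≠ 0 ∧
      σ (f.p l i / f.p l j) = f.p l' i / f.p l' j := by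
  obtain ⟨π, hπ⟩ := f.stable σ
  obtain ⟨c, hc⟩ := hπ l
  refine ⟨π l, fun i j hj => ?_⟩
  have h1 : ∀ i, σ (f.p l i) = c * f.p (π l) i := fun i => congrFun hc i
  have h2 : c * f.p (π l) j ≠ 0 := by
    rw [← h1]
    exact (map_ne_zero σ).2 hj
  refine ⟨right_ne_zero_of_mul h2, ?_⟩
  rw [map_div₀, h1, h1, mul_div_mul_left _ _ (left_ne_zero_of_mul h2)]

theorem SymMap.values_conj (f : SymMap k K L X r)
    (σ : AlgebraicClosure L ≃ₐ[L] AlgebraicClosure L) {z : AlgebraicClosure L}
    (hz : z ∈ f.values) : σ z ∈ f.values := by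
  obtain ⟨l, i, j, hj, rfl⟩ := hz
  obtain ⟨l', hl'⟩ := f.conj σ l
  exact ⟨l', i, j, (hl' i j hj).1, (hl' i j hj).2⟩

/-- the degree of the points of the cycle -/
theorem SymMap.finrank_le (f : SymMap k K L X r) (l : Fin r) :
    FiniteDimensional L (adjoin L (ratios (f.p l))) ∧
      finrank L (adjoin L (ratios (f.p l))) ≤ r := by
  classical
  have hL : CharZero L := charZero_of_injective_algebraMap (algebraMap K L).injective
  obtain ⟨c, hc'⟩ := Function.ne_iff.1 (f.pt l).ne
  have hc : f.p l c ≠ 0 := hc'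
  rw [adjoin_ratios hc]
  obtain ⟨F, hF⟩ : ∃ F, F = adjoin L (Set.range fun i => f.p l i / f.p l c) := ⟨_, rfl⟩
  rw [← hF]
  have hfd : FiniteDimensional L F := by
    rw [hF]
    refine finiteDimensional_adjoin ?_
    rintro _ ⟨i, rfl⟩
    exact Algebra.IsIntegral.isIntegral _
  refine ⟨hfd, ?_⟩
  have hmem : ∀ i, f.p l i / f.p l c ∈ F := fun i => by
    rw [hF]
    exact subset_adjoin _ _ ⟨i, rfl⟩
  have h1 : ∀ ψ : F →ₐ[L] AlgebraicClosure L, ∃ l' : Fin r, ∀ i,
      ψ ⟨_, hmem i⟩ = f.p l' i / f.p l' c := by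
    intro ψ
    let σ' : AlgebraicClosure L →ₐ[L] AlgebraicClosure L := ψ.liftNormal (AlgebraicClosure L)
    have hσ' : Function.Bijective σ' := Algebra.IsAlgebraic.algHom_bijective σ'
    let σ : AlgebraicClosure L ≃ₐ[L] AlgebraicClosure L := AlgEquiv.ofBijective σ' hσ'
    obtain ⟨l', hl'⟩ := f.conj σ l
    refine ⟨l', fun i => ?_⟩
    rw [← (hl' i c hc).2]
    exact (ψ.liftNormal_commutes (AlgebraicClosure L) ⟨_, hmem i⟩).symm
  choose g hg using h1
  have hinj : Function.Injective g := by
    intro ψ ψ' h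
    refine algHom_ext_of_eq_adjoin L hF ?_
    rintro _ ⟨i, rfl⟩
    have h2 := (hg ψ i).trans ((congrArg (fun l' => f.p l' i / f.p l' c) h).trans (hg ψ' i).symm)
    exact h2
  have h2 := Fintype.card_le_of_injective g hinj
  rwa [Fintype.card_fin, AlgHom.card] at h2

/-- the values are algebraic over the base -/
theorem SymMap.alg_val (f : SymMap k K L X r) {z : AlgebraicClosure L}
    (hz : z ∈ aclo K f.values) : IsAlgebraic (base K L f.values) z :=
  alg_base (fun σ _ hz => subset_aclo _ (f.values_conj σ hz)) hz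

/-- the multi-valued map given by one of the points -/
theorem SymMap.mv (f : SymMap k K L X r) (l : Fin r) {R : ℕ}
    (hb : 2 * X.m + R ≤ ∑ a, (X.d a + 1)) (hb' : 2 * X.m + 2 ≤ ∑ a, (X.d a + 1)) :
    ∃ C : MVMap k K L r R, ratios (f.p l) ⊆ C.values (AlgebraicClosure L) ∧
      ∀ i j, C.x j ≠ 0 → IsAlgebraic (base K L f.values) (C.x i / C.x j) := by
  classical
  obtain ⟨c, hc'⟩ := Function.ne_iff.1 (f.pt l).ne
  have hc : f.p l c ≠ 0 := hc'
  obtain ⟨hfd, hfr⟩ := f.finrank_le l
  let F := adjoin L (ratios (f.p l))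
  let x : Fin (X.n + 1) → F := fun i => ⟨f.p l i / f.p l c, subset_adjoin _ _ ⟨i, c, hc, rfl⟩⟩
  have hst : IsScalarTower K F (AlgebraicClosure L) := IsScalarTower.of_algebraMap_eq fun c => by
    rw [IsScalarTower.algebraMap_apply K L F, ← IsScalarTower.algebraMap_apply L F,
      ← IsScalarTower.algebraMap_apply K L (AlgebraicClosure L)]
  have hx : X.Point x := by
    have hev : ∀ (e : ℕ) (P : MvPolynomial (Fin (X.n + 1)) K), P.IsHomogeneous e →
        MvPolynomial.aeval (f.p l) P = 0 → MvPolynomial.aeval x P = 0 := by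
      intro e P hP h
      apply (algebraMap F (AlgebraicClosure L)).injective
      rw [map_zero]
      have h1 : algebraMap F (AlgebraicClosure L) (MvPolynomial.aeval x P) =
          MvPolynomial.aeval (fun i => f.p l i / f.p l c) P := by
        rw [← MvPolynomial.aeval_algebraMap_apply]
        rfl
      rw [h1, Pool.Agent.N111.GI.aeval_div hP, h, mul_zero]
    exact
      { ne := fun h => by
          have h1 := congrArg Subtype.val (congrFun h c)
          change f.p l c / f.p l c = 0 at h1
          rw [div_self hc] at h1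
          exact one_ne_zero h1
        mem_V := fun q hq => by
          obtain ⟨e, he⟩ := X.V_form q hq
          exact hev e _ (he.map _) ((f.pt l).mem_V q hq)
        mem_F := fun a => hev _ _ (X.F_form a) ((f.pt l).mem_F a) }
  have hval : ∀ i j, x j ≠ 0 → f.p l j ≠ 0 ∧ ((x i / x j : F) : AlgebraicClosure L) =
      f.p l i / f.p l j := by
    intro i j hj
    have hj' : f.p l j ≠ 0 := by
      intro h
      apply hj
      apply Subtype.ext
      change f.p l j / f.p l c = 0
      rw [h, zero_div]
    refine ⟨hj', ?_⟩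
    change (f.p l i / f.p l c) / (f.p l j / f.p l c) = _
    exact div_div_div_cancel_right₀ hc _ _
  refine ⟨⟨X, hb, hb', F, hfr, x, hx⟩, ?_, fun i j hj => ?_⟩
  · rintro z ⟨i, j, hj, rfl⟩
    have hj' : x j ≠ 0 := by
      intro h
      have h1 := congrArg Subtype.val h
      change f.p l j / f.p l c = 0 at h1
      exact div_ne_zero hj hc h1
    exact ⟨F.val, i, j, hj', (hval i j hj').2.symm⟩
  · obtain ⟨h1, h2⟩ := hval i j hj
    have h3 : IsAlgebraic (base K L f.values) (f.p l i / f.p l j) :=
      f.alg_val (subset_aclo _ ⟨l, i, j, h1, rfl⟩)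
    let ψ' : F →ₐ[base K L f.values] AlgebraicClosure L := F.val.restrictScalars _
    have h4 : ψ' (x i / x j) = f.p l i / f.p l j := h2
    rw [← h4] at h3
    exact (isAlgebraic_algHom_iff ψ' ψ'.injective).1 h3

/-- **Linear degree bounds for the base.** -/
theorem SymMap.cover_base (f : SymMap k K L X r) {ρ : ℕ}
    (hb : 2 * X.m + ρ * r ≤ ∑ a, (X.d a + 1)) (hb' : 2 * X.m + 2 ≤ ∑ a, (X.d a + 1)) {q : ℕ}
    {v : Fin (q + 1) → base K L f.values} (hv : v ≠ 0) (hv' : coords K v = ⊤) :
    CoverBound K ρ v := by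
  refine Pool.Agent.N95.GP.joint_bound (k := k) (r := r) (AlgebraicClosure L) hv hv' fun z =>
    aclo_mono ?_ z.2
  intro y hy
  rw [f.values_eq] at hy
  obtain ⟨l, hl⟩ := Set.mem_iUnion.1 hy
  obtain ⟨C, hC, hCa⟩ := f.mv l hb hb'
  obtain ⟨C₀, h₀⟩ := C.descend (L₀ := base K L f.values) (fun z hz => base_closed hz) hCa
  exact Set.mem_iUnion.2 ⟨C₀, h₀ _ (hC hl)⟩

theorem SymMap.cover_self (f : SymMap k K L X r) {ρ : ℕ}
    (hb : 2 * X.m + ρ * r ≤ ∑ a, (X.d a + 1)) (hb' : 2 * X.m + 2 ≤ ∑ a, (X.d a + 1)) {q : ℕ}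
    {v : Fin (q + 1) → L} (hv : v ≠ 0) (hv' : coords K v = ⊤)
    (h : ∀ z : L, algebraMap L (AlgebraicClosure L) z ∈ aclo K f.values) : CoverBound K ρ v := by
  refine Pool.Agent.N95.GP.joint_bound (k := k) (r := r) (AlgebraicClosure L) hv hv' fun z =>
    aclo_mono ?_ (h z)
  intro y hy
  rw [f.values_eq] at hy
  obtain ⟨l, hl⟩ := Set.mem_iUnion.1 hy
  obtain ⟨C, hC, -⟩ := f.mv l hb hb'
  exact Set.mem_iUnion.2 ⟨C, hC hl⟩

/-- **The base of the fibration defined by a map to a symmetric power is of general type.** -/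
theorem SymMap.gt_base [Algebra.EssFiniteType K L] (f : SymMap k K L X r) {w : ℕ}
    (hdeg : ∀ a, r ≤ X.d a) (hw : Algebra.trdeg K (adjoin K f.values) = w) (hpos : 0 < w)
    (hd : (r + 1) * X.m + 2 * r ≤ ∑ a, (X.d a + 1) + w) :
    GeneralType K (base K L f.values) w := by
  classical
  have hL : CharZero L := charZero_of_injective_algebraMap (algebraMap K L).injective
  let Ω := AlgebraicClosure L
  -- the distinct points
  let Eq : Fin r → Fin r → Prop := fun l l' => ∃ c : Ω, c ≠ 0 ∧ f.p l = c • f.p l'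
  have hEq : Equivalence Eq :=
    { refl := fun l => ⟨1, one_ne_zero, (one_smul _ _).symm⟩
      symm := by
        rintro l l' ⟨c, hc, h⟩
        exact ⟨c⁻¹, inv_ne_zero hc, by rw [h, smul_smul, inv_mul_cancel₀ hc, one_smul]⟩
      trans := by
        rintro l l' l'' ⟨c, hc, h⟩ ⟨c', hc', h'⟩
        exact ⟨c * c', mul_ne_zero hc hc', by rw [h, h', smul_smul]⟩ }
  let s : Setoid (Fin r) := ⟨Eq, hEq⟩
  let T := Quotient s
  have hTf : Fintype T := Fintype.ofFinite T
  have hTr : Fintype.card T ≤ r := by
    have := Fintype.card_le_of_surjective (Quotient.mk s) Quotient.mk_surjective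
    rwa [Fintype.card_fin] at this
  let e : Fin (Fintype.card T) ≃ T := (Fintype.equivFin T).symm
  let p : Fin (Fintype.card T) → Fin (X.n + 1) → Ω := fun l => f.p (e l).out
  have hU : ⋃ l, ratios (p l) = f.values := by
    rw [f.values_eq]
    apply Set.Subset.antisymm
    · exact Set.iUnion_subset fun l => Set.subset_iUnion (fun l => ratios (f.p l)) _
    · refine Set.iUnion_subset fun l => ?_
      have h1 : Eq (e (e.symm (Quotient.mk s l))).out l := by
        rw [Equiv.apply_symm_apply]
        exact Quotient.exact (s := s) (Quotient.out_eq (Quotient.mk s l))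
      obtain ⟨c, hc, h⟩ := h1
      have h2 : ratios (p (e.symm (Quotient.mk s l))) = ratios (f.p l) := by
        change ratios (f.p (e (e.symm (Quotient.mk s l))).out) = _
        rw [h, ratios_smul hc]
      rw [← h2]
      exact Set.subset_iUnion (fun l => ratios (p l)) _
  have h0r : 0 < r := by
    rcases Nat.eq_zero_or_pos r with h | h
    · exfalso
      subst h
      have h1 : f.values = ∅ := by
        rw [Set.eq_empty_iff_forall_notMem]
        rintro z ⟨l, -⟩
        exact l.elim0
      rw [h1, adjoin_empty] at hw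
      have h2 : Algebra.trdeg K (⊥ : IntermediateField K Ω) = 0 :=
        _root_.trdeg_eq_zero
      rw [h2] at hw
      have h3 : w = 0 := by exact_mod_cast hw.symm
      omega
    · exact h
  have h1 := fib_dep (L := L) (A := Ω) X (ρ := Fintype.card T) (r := r) (w := w) p
    (fun l => f.pt _)
    (fun l l' hll => by
      by_contra hcon
      push Not at hcon
      apply hll
      apply e.injective
      rw [← Quotient.out_eq (e l), ← Quotient.out_eq (e l')]
      refine Quotient.sound ?_
      obtain ⟨c, hc'⟩ := Function.ne_iff.1 (f.pt (e l').out).ne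
      have hc : f.p (e l').out c ≠ 0 := hc'
      have h3 : ∀ i, f.p (e l).out i = f.p (e l).out c / f.p (e l').out c * f.p (e l').out i := by
        intro i
        have h4 : f.p (e l).out i * f.p (e l').out c = f.p (e l).out c * f.p (e l').out i :=
          hcon i c
        field_simp
        exact h4
      refine ⟨f.p (e l).out c / f.p (e l').out c, fun h4 => (f.pt (e l).out).ne ?_, funext h3⟩
      funext i
      rw [h3 i, h4, zero_mul]
      rfl)
    (fun a => hTr.trans (hdeg a)) h0r (fun l => (f.finrank_le _).2) (by rw [hU]; exact hw) hpos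
    (by
      have h2 : (Fintype.card T + 1) * X.m ≤ (r + 1) * X.m := Nat.mul_le_mul_right _ (by omega)
      omega)
    (fun σ l z hz => by
      rw [hU]
      refine subset_aclo _ (f.values_conj σ ?_)
      rw [← hU]
      exact Set.mem_iUnion.2 ⟨l, hz⟩)
  rw [hU] at h1
  exact h1

theorem SymMap.base_top (f : SymMap k K L X r)
    (h : ∀ z : L, algebraMap L (AlgebraicClosure L) z ∈ aclo K f.values) :
    base K L f.values = ⊤ := by
  rw [eq_top_iff]
  intro z _
  exact h z

theorem SymMap.gt_self [Algebra.EssFiniteType K L] (f : SymMap k K L X r) {w : ℕ}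
    (hdeg : ∀ a, r ≤ X.d a) (hw : Algebra.trdeg K L = w) (hpos : 0 < w)
    (h : ∀ z : L, algebraMap L (AlgebraicClosure L) z ∈ aclo K f.values)
    (hd : (r + 1) * X.m + 2 * r ≤ ∑ a, (X.d a + 1) + w) : GeneralType K L w := by
  have htop := f.base_top h
  have h1 : Algebra.trdeg K (base K L f.values) = w := by
    rw [htop, ← hw]
    exact (IntermediateField.topEquiv (F := K) (E := L)).trdeg_eq
  have h2 := f.gt_base hdeg (w := w) (by
    rw [← trdeg_base fun z hz => f.alg_val hz]
    exact h1) hpos hd
  exact Pool.Agent.TH466.QG.general_of_equiv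
    ((IntermediateField.equivOfEq htop).trans IntermediateField.topEquiv) h2

end

end Pool.Agent.N95.RF
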