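import Pool.Agent.N95.RF.Gen2
import Pool.Agent.N95.RF.Det
import Pool.Agent.TH145.GL.Main

/-!
Several points of a generic complete intersection: the vectors.
-/

set_option autoImplicit false
set_option linter.unusedSectionVars false

open MvPolynomial Module Pool.Agent.TH145.GH
open Pool.Agent.TH145.GC (Tan dF_sub dF_self)

namespace Pool.Agent.N95.RF

/-- several points of a complete intersection, and derivations which are dual to the coefficients of
its equations -/
structure Dat (k0 K L : Type) [Field k0] [Field K] [Field L] [Algebra k0 L] [Algebra K L]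
    (n m ρ : ℕ) (A : Type) where
  dg : A → ℕ
  F : A → MvPolynomial (Fin (n + 1)) K
  hom : ∀ a, (F a).IsHomogeneous (dg a)
  I0 : A → (Fin (n + 1) →₀ ℕ)
  one : ∀ a, (F a).coeff (I0 a) = 1
  x : Fin ρ → Fin (n + 1) → L
  c : Fin ρ → Fin (n + 1)
  xc : ∀ i, x i (c i) = 1
  mem : ∀ a i, aeval (x i) (F a) = 0
  dist : ∀ i j, i ≠ j → ∃ q, eval (x j) (lf (x i) q) ≠ 0
  deg : ∀ a, ρ ≤ dg a
  D : A → (Fin (n + 1) →₀ ℕ) → Derivation ℤ L L
  sem : ∀ a I, Sem K (D a I)
  kill : ∀ a I (r : k0), D a I (algebraMap k0 L r) = 0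
  dual : ∀ a b I J, I.degree = dg a → I ≠ I0 a → (a = b ∧ I = J →
    D a I (algebraMap K L ((F b).coeff J)) = 1) ∧ (¬ (a = b ∧ I = J) →
    D a I (algebraMap K L ((F b).coeff J)) = 0)
  tan : ∀ i, finrank L (Tan k0 (x i)) ≤ m + 1

noncomputable instance (n d : ℕ) : Fintype {I : Fin (n + 1) →₀ ℕ // I.degree = d} :=
  @Fintype.ofFinite _ (finite_deg n d)

section

variable {k0 K L : Type} [Field k0] [Field K] [Field L] [Algebra k0 L] [Algebra K L]
  {n m ρ : ℕ} {A : Type}

/-- the vector of the derivatives of the coordinates -/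
def vd (δ : Derivation ℤ L L) (x : Fin ρ → Fin (n + 1) → L) : Fin ρ × Fin (n + 1) → L :=
  fun q => δ (x q.1 q.2)

/-- the vector of the coordinates of one point -/
def eu (x : Fin ρ → Fin (n + 1) → L) (i : Fin ρ) : Fin ρ × Fin (n + 1) → L :=
  fun q => if q.1 = i then x i q.2 else 0

theorem vd_add (δ δ' : Derivation ℤ L L) (x : Fin ρ → Fin (n + 1) → L) :
    vd (δ + δ') x = vd δ x + vd δ' x := rfl

theorem vd_smul (a : L) (δ : Derivation ℤ L L) (x : Fin ρ → Fin (n + 1) → L) :
    vd (a • δ) x = a • vd δ x := rfl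

theorem vd_sum {J : Type} (s : Finset J) (δ : J → Derivation ℤ L L) (x : Fin ρ → Fin (n + 1) → L) :
    vd (∑ j ∈ s, δ j) x = ∑ j ∈ s, vd (δ j) x := by
  funext q
  rw [Finset.sum_apply]
  change (∑ j ∈ s, δ j) _ = _
  rw [← Derivation.coeFnAddMonoidHom_apply, map_sum, Finset.sum_apply]
  rfl

namespace Dat

variable (S : Dat k0 K L n m ρ A)

/-- the coefficients of the deformation, normalized -/
noncomputable def cof (a : A) (I : Fin (n + 1) →₀ ℕ) (g : MvPolynomial (Fin (n + 1)) L) : L :=
  g.coeff I - g.coeff (S.I0 a) * algebraMap K L ((S.F a).coeff I)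

/-- the derivation of a deformation of the equations -/
noncomputable def Dg (a : A) (g : MvPolynomial (Fin (n + 1)) L) : Derivation ℤ L L :=
  ∑ I : {I : Fin (n + 1) →₀ ℕ // I.degree = S.dg a}, S.cof a I.1 g • S.D a I.1

theorem cof_add (a : A) (I : Fin (n + 1) →₀ ℕ) (g h : MvPolynomial (Fin (n + 1)) L) :
    S.cof a I (g + h) = S.cof a I g + S.cof a I h := by
  unfold cof
  rw [coeff_add, coeff_add]
  ring

theorem cof_smul (a : A) (I : Fin (n + 1) →₀ ℕ) (r : L) (g : MvPolynomial (Fin (n + 1)) L) :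
    S.cof a I (r • g) = r * S.cof a I g := by
  unfold cof
  rw [coeff_smul, coeff_smul, smul_eq_mul, smul_eq_mul]
  ring

/-- the vector of a deformation of the equations -/
noncomputable def T (a : A) : MvPolynomial (Fin (n + 1)) L →ₗ[L] (Fin ρ × Fin (n + 1) → L) where
  toFun := fun g => vd (S.Dg a g) S.x
  map_add' := fun g h => by
    unfold Dg
    rw [vd_sum, vd_sum, vd_sum, ← Finset.sum_add_distrib]
    refine Finset.sum_congr rfl fun I _ => ?_
    rw [vd_smul, vd_smul, vd_smul, cof_add, add_smul]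
  map_smul' := fun r g => by
    unfold Dg
    rw [vd_sum, vd_sum, RingHom.id_apply, Finset.smul_sum]
    refine Finset.sum_congr rfl fun I _ => ?_
    rw [vd_smul, vd_smul, cof_smul, mul_smul]

theorem T_apply (a : A) (g : MvPolynomial (Fin (n + 1)) L) : S.T a g = vd (S.Dg a g) S.x := rfl

/-- the differential of an equation at a point -/
noncomputable def lam (b : A) (i : Fin ρ) : (Fin ρ × Fin (n + 1) → L) →ₗ[L] L where
  toFun := fun u => dF (map (algebraMap K L) (S.F b)) (S.x i) fun j => u (i, j)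
  map_add' := fun _ _ => dF_add _ _ _ _
  map_smul' := fun _ _ => dF_smul _ _ _ _

theorem lam_apply (b : A) (i : Fin ρ) (u : Fin ρ × Fin (n + 1) → L) :
    S.lam b i u = dF (map (algebraMap K L) (S.F b)) (S.x i) fun j => u (i, j) := rfl

theorem ev0 (b : A) (i : Fin ρ) : eval (S.x i) (map (algebraMap K L) (S.F b)) = 0 := by
  have h1 := S.mem b i
  rwa [aeval_def, ← eval_map] at h1

theorem lam_eu (b : A) (i i' : Fin ρ) : S.lam b i (eu S.x i') = 0 := by
  rw [lam_apply]
  by_cases h : i = i'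
  · subst h
    have h1 : (fun j => eu S.x i (i, j)) = S.x i := by
      funext j
      rw [eu, if_pos rfl]
    rw [h1, dF_self ((S.hom b).map _), S.ev0, mul_zero]
  · have h1 : (fun j => eu S.x i' (i, j)) = 0 := by
      funext j
      rw [eu, if_neg h]
      rfl
    rw [h1]
    unfold dF
    refine Finset.sum_eq_zero fun j _ => ?_
    rw [Pi.zero_apply, mul_zero]

/-- derivations which kill the coefficients -/
theorem lam_vd {δ : Derivation ℤ L L} (hδ : ∀ r : K, δ (algebraMap K L r) = 0) (b : A)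
    (i : Fin ρ) : S.lam b i (vd δ S.x) = 0 := by
  rw [lam_apply]
  have h1 := chainM δ (S.x i) (map (algebraMap K L) (S.F b))
  rw [S.ev0, map_zero] at h1
  have h2 : ∑ u ∈ (map (algebraMap K L) (S.F b)).support,
      δ ((map (algebraMap K L) (S.F b)).coeff u) * mon (S.x i) u = 0 := by
    refine Finset.sum_eq_zero fun u _ => ?_
    rw [coeff_map, hδ, zero_mul]
  rw [h2, zero_add] at h1
  exact h1.symm

theorem deg_I0 (a : A) : (S.I0 a).degree = S.dg a := by
  refine deg_of_mem (S.hom a) (mem_support_iff.2 ?_)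
  rw [S.one]
  exact one_ne_zero

theorem lam_D (a b : A) (i : Fin ρ) {I : Fin (n + 1) →₀ ℕ} (hI : I.degree = S.dg a)
    (hI0 : I ≠ S.I0 a) : (a = b → S.lam b i (vd (S.D a I) S.x) = - mon (S.x i) I) ∧
      (a ≠ b → S.lam b i (vd (S.D a I) S.x) = 0) := by
  classical
  have h1 := chainM (S.D a I) (S.x i) (map (algebraMap K L) (S.F b))
  rw [S.ev0, map_zero] at h1
  have h2 : S.lam b i (vd (S.D a I) S.x) = - ∑ u ∈ (map (algebraMap K L) (S.F b)).support,
      (S.D a I) ((map (algebraMap K L) (S.F b)).coeff u) * mon (S.x i) u := by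
    rw [lam_apply]
    exact (neg_eq_of_add_eq_zero_right h1.symm).symm
  constructor
  · intro hab
    rw [h2, Finset.sum_eq_single I]
    · rw [coeff_map, (S.dual a b I I hI hI0).1 ⟨hab, rfl⟩, one_mul]
    · intro u _ hu
      rw [coeff_map, (S.dual a b I u hI hI0).2 (fun h => hu h.2.symm), zero_mul]
    · intro h
      exfalso
      have h3 := (S.dual a b I I hI hI0).1 ⟨hab, rfl⟩
      rw [MvPolynomial.notMem_support_iff, coeff_map] at h
      rw [h, map_zero] at h3
      exact zero_ne_one h3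
  · intro hab
    rw [h2, neg_eq_zero]
    refine Finset.sum_eq_zero fun u _ => ?_
    rw [coeff_map, (S.dual a b I u hI hI0).2 (fun h => hab h.1), zero_mul]

theorem eval_deg {g : MvPolynomial (Fin (n + 1)) L} {e : ℕ} (hg : g.IsHomogeneous e)
    (z : Fin (n + 1) → L) :
    eval z g = ∑ I : {I : Fin (n + 1) →₀ ℕ // I.degree = e}, g.coeff I.1 * mon z I.1 := by
  classical
  rw [eval_mon, ← Finset.sum_subtype_of_mem (p := fun I : Fin (n + 1) →₀ ℕ => I.degree = e)
    (fun I => g.coeff I * mon z I) (fun I hI => deg_of_mem hg hI)]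
  refine Finset.sum_subset (Finset.subset_univ _) fun I _ hI => ?_
  rw [Finset.mem_subtype, MvPolynomial.notMem_support_iff] at hI
  rw [hI, zero_mul]

/-- **The values of the deformations.** -/
theorem lam_T (a b : A) (i : Fin ρ) {g : MvPolynomial (Fin (n + 1)) L}
    (hg : g.IsHomogeneous (S.dg a)) : (a = b → S.lam b i (S.T a g) = - eval (S.x i) g) ∧
      (a ≠ b → S.lam b i (S.T a g) = 0) := by
  classical
  have h1 : S.lam b i (S.T a g) = ∑ I : {I : Fin (n + 1) →₀ ℕ // I.degree = S.dg a},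
      S.cof a I.1 g * S.lam b i (vd (S.D a I.1) S.x) := by
    rw [T_apply, Dg, vd_sum, map_sum]
    refine Finset.sum_congr rfl fun I _ => ?_
    rw [vd_smul, map_smul, smul_eq_mul]
  have h0 : S.cof a (S.I0 a) g = 0 := by
    unfold cof
    rw [S.one, map_one, mul_one, sub_self]
  constructor
  · intro hab
    have h2 : ∀ I : {I : Fin (n + 1) →₀ ℕ // I.degree = S.dg a},
        S.cof a I.1 g * S.lam b i (vd (S.D a I.1) S.x) = - (S.cof a I.1 g * mon (S.x i) I.1) := by
      intro I
      by_cases hI : I.1 = S.I0 a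
      · rw [hI, h0, zero_mul, zero_mul, neg_zero]
      · rw [(S.lam_D a b i I.2 hI).1 hab, mul_neg]
    rw [h1, Finset.sum_congr rfl fun I _ => h2 I, Finset.sum_neg_distrib]
    congr 1
    have h3 : ∀ I : {I : Fin (n + 1) →₀ ℕ // I.degree = S.dg a},
        S.cof a I.1 g * mon (S.x i) I.1 = g.coeff I.1 * mon (S.x i) I.1 -
          g.coeff (S.I0 a) * ((map (algebraMap K L) (S.F a)).coeff I.1 * mon (S.x i) I.1) := by
      intro I
      rw [coeff_map]
      unfold cof
      ring
    rw [Finset.sum_congr rfl fun I _ => h3 I, Finset.sum_sub_distrib, ← Finset.mul_sum,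
      ← eval_deg hg, ← eval_deg ((S.hom a).map _), S.ev0, mul_zero, sub_zero]
  · intro hab
    rw [h1]
    refine Finset.sum_eq_zero fun I _ => ?_
    by_cases hI : I.1 = S.I0 a
    · rw [hI, h0, zero_mul]
    · rw [(S.lam_D a b i I.2 hI).2 hab, mul_zero]

end Dat

end

end Pool.Agent.N95.RF
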